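import Mathlib

namespace TanChain

open Set Filter Topology
open scoped ContDiff

/-- The plane. -/
abbrev Pl := ℝ × ℝ

/-! ### General definitions used in the final statement -/

/-- `p` is a hyperbolic saddle fixed point of `f`. -/
def IsSaddle (f : Pl ≃ₜ Pl) (p : Pl) : Prop :=
  f p = p ∧ DifferentiableAt ℝ f p ∧ ∃ l₁ l₂ : ℝ, 0 < |l₁| ∧ |l₁| < 1 ∧ 1 < |l₂| ∧
    Module.End.HasEigenvalue (fderiv ℝ f p : Pl →ₗ[ℝ] Pl) l₁ ∧
    Module.End.HasEigenvalue (fderiv ℝ f p : Pl →ₗ[ℝ] Pl) l₂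

/-- The unstable set of the fixed point `p` of `f`. -/
def Wu (f : Pl ≃ₜ Pl) (p : Pl) : Set Pl :=
  {z | Tendsto (fun n : ℕ => f.symm^[n] z) atTop (𝓝 p)}

/-- `γ` is a parametrisation of the unstable manifold of `p` by the real line: a smooth injective
immersion with `γ 0 = p` whose image is the unstable set, on which `f` acts as a homeomorphism `φ`
of the line all of whose backward orbits tend to `0`. -/
structure IsUnstableParam (f : Pl ≃ₜ Pl) (p : Pl) (γ : ℝ → Pl) : Prop where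
  smooth : ContDiff ℝ ∞ γ
  inj : Function.Injective γ
  imm : ∀ t, deriv γ t ≠ 0
  zero : γ 0 = p
  range : Set.range γ = Wu f p
  conj : ∃ φ : ℝ ≃ₜ ℝ, φ 0 = 0 ∧ (∀ t, f (γ t) = γ (φ t)) ∧
    ∀ t, Tendsto (fun n : ℕ => φ.symm^[n] t) atTop (𝓝 0)

/-- The arc of the curve `γ` through `γ t₀` in `D`. -/
def arcIn (γ : ℝ → Pl) (t₀ : ℝ) (D : Set Pl) : Set Pl :=
  γ '' (connectedComponentIn (γ ⁻¹' D) t₀)

/-- Topological transversality of the curves `γ` (unstable) and `σ` (stable) at the point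
`γ t₀ = σ s₀`: there are arbitrarily small closed discs `D` around the point such that the arc of
`σ` through the point cuts `D` into two components `A`, `B`, and the arc of `γ` through the point
meets both of them arbitrarily close to the point. -/
def TopTransverse (γ σ : ℝ → Pl) (t₀ s₀ : ℝ) : Prop :=
  ∀ N ∈ 𝓝 (γ t₀), ∃ D : Set Pl, D ⊆ N ∧ D ∈ 𝓝 (γ t₀) ∧
    Nonempty (D ≃ₜ Metric.closedBall (0 : EuclideanSpace ℝ (Fin 2)) 1) ∧
    ∃ a b : Pl, a ∈ D \ arcIn σ s₀ D ∧ b ∈ D \ arcIn σ s₀ D ∧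
      connectedComponentIn (D \ arcIn σ s₀ D) a ≠ connectedComponentIn (D \ arcIn σ s₀ D) b ∧
      connectedComponentIn (D \ arcIn σ s₀ D) a ∪ connectedComponentIn (D \ arcIn σ s₀ D) b
        = D \ arcIn σ s₀ D ∧
      ∀ V ∈ 𝓝 (γ t₀),
        (arcIn γ t₀ D ∩ V ∩ connectedComponentIn (D \ arcIn σ s₀ D) a).Nonempty ∧
        (arcIn γ t₀ D ∩ V ∩ connectedComponentIn (D \ arcIn σ s₀ D) b).Nonempty

/-- A metric space is chainable if it has finite open chain covers of arbitrarily small mesh. -/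
def Chainable (X : Type*) [MetricSpace X] : Prop :=
  ∀ ε : ℝ, 0 < ε → ∃ (n : ℕ) (U : Fin n → Set X), (∀ i, IsOpen (U i)) ∧ (⋃ i, U i) = univ ∧
    (∀ i, Bornology.IsBounded (U i) ∧ Metric.diam (U i) < ε) ∧
    ∀ i j : Fin n, (U i ∩ U j).Nonempty ↔ |((i : ℕ) : ℤ) - ((j : ℕ) : ℤ)| ≤ 1

/-! ### The construction -/

/-- the horizontal expansion -/
noncomputable def al (x : ℝ) : ℝ := 42/25 * x + 33/20 * (Real.sqrt (x^2 + 81/1600) - 9/40)

/-- inverse of `al` -/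
noncomputable def ali (y : ℝ) : ℝ :=
  (42/25 * (y + 297/800) - 33/20 * Real.sqrt ((y + 297/800)^2 + 999/10000 * (81/1600))) / (999/10000)

/-- the attracting fixed point of `al` -/
noncomputable def xs : ℝ := -5049/22601

/-- the angle of the twist -/
noncomputable def Th (r : ℝ) : ℝ := Real.pi * Real.smoothTransition (r - 3)

/-- rotation -/
noncomputable def rotm (t : ℝ) (z : Pl) : Pl :=
  (Real.cos t * z.1 - Real.sin t * z.2, Real.sin t * z.1 + Real.cos t * z.2)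

/-- twist map -/
noncomputable def Tw (z : Pl) : Pl := rotm (Th (z.1^2 + z.2^2)) z

/-- the map `F τ` = shear ∘ twist ∘ (expansion × contraction) -/
noncomputable def F (τ : ℝ → ℝ) (z : Pl) : Pl :=
  ((Tw (al z.1, z.2/10 - 9/10)).1 + τ (Tw (al z.1, z.2/10 - 9/10)).2,
    (Tw (al z.1, z.2/10 - 9/10)).2)

/-- basic shear -/
noncomputable def tau0 (v : ℝ) : ℝ := 3 * Real.smoothTransition (10 * (v - 1/2))

/-- bump -/
noncomputable def bet (v : ℝ) : ℝ := Real.smoothTransition (1 - 4 * v^2)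

/-- the properties of the constructed map that are used later -/
structure HS (f : Pl ≃ₜ Pl) : Prop where
  smooth : ContDiff ℝ ∞ f
  smooth' : ContDiff ℝ ∞ f.symm
  L : ∀ x y : ℝ, -15 ≤ x → x ≤ ali 1 → |y| ≤ 5/2 → f (x, y) = (al x, y/10 - 9/10)
  R : ∀ x y : ℝ, ali (19/10) ≤ x → x ≤ 53/10 → |y| ≤ 5/2 → f (x, y) = (3 - al x, 9/10 - y/10)
  hole : ∀ x y : ℝ, ali 1 ≤ x → x ≤ ali (19/10) → |y| ≤ 1 →
    1 ≤ (f (x, y)).1 ∧ (f (x, y)).1 ≤ 53/10 ∧ |(f (x, y)).2| ≤ 5/2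
  tan : ∃ x y : ℝ, ali 1 < x ∧ x < ali (19/10) ∧ (y = 1 ∨ y = -1) ∧ (f (x, y)).1 = 1 ∧
    |(f (x, y)).2| ≤ 1 ∧
    ∀ x' y' : ℝ, ali 1 < x' → x' < ali (19/10) → |y'| ≤ 1 → (x', y') ≠ (x, y) →
      1 < (f (x', y')).1

/-- the trapping region -/
def DD : Set Pl :=
  {z | (-15 ≤ z.1 ∧ z.1 ≤ 0 ∧ |z.2| ≤ 5/2) ∨ (0 ≤ z.1 ∧ z.1 ≤ 1 ∧ |z.2| ≤ 1) ∨
    (1 ≤ z.1 ∧ z.1 ≤ 53/10 ∧ |z.2| ≤ 5/2)}

/-- the functions with small fibres -/
noncomputable def hk (f : Pl → Pl) : ℕ → Pl → ℝ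
  | 0, z => z.1
  | (k+1), z => if z.1 ≤ ali 1 then ali (hk f k (f z))
      else if z.1 ≤ ali (19/10) then
        ali 1 + (ali (19/10) - ali 1) * min 1 (10 * ((f z).1 - 1))
      else ali (3 - hk f k (f z))

/-- pairs of points whose orbits approach each other uniformly -/
def Good (w w' : Pl) : Prop :=
  (w.1 = w'.1 ∧ (w.1 ≤ 0 ∨ 1 ≤ w.1)) ∨ (w.1 ≤ -11/50 ∧ w'.1 ≤ -11/50) ∨
    (11/10 ≤ w.1 ∧ 11/10 ≤ w'.1)

/-- reparametrisation of `(xs, ∞)` by the line -/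
noncomputable def ee (t : ℝ) : ℝ := -xs * (Real.exp t - 1)

/-- its inverse -/
noncomputable def eei (x : ℝ) : ℝ := Real.log (1 - x / xs)

/-- number of steps needed -/
noncomputable def nn (t : ℝ) : ℕ := sInf {n : ℕ | ali^[n] (ee t) ≤ ali 1}

/-- parametrisation of the unstable manifold of `(0,-1)` -/
noncomputable def gam (f : Pl ≃ₜ Pl) (t : ℝ) : Pl := f^[nn t] (ali^[nn t] (ee t), -1)

/-- parametrisation of the stable manifold of `(0,-1)` -/
noncomputable def sig (f : Pl ≃ₜ Pl) (s : ℝ) : Pl :=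
  f.symm^[⌈|s|⌉₊] (0, -1 + s / 10^⌈|s|⌉₊)

end TanChain
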