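import Pool.Agent.Helper469.Chain.Defs



namespace TanChain
open Set Filter Topology
open scoped ContDiff


theorem DD_compact : IsCompact DD := by
  have h : DD = (Icc (-15 : ℝ) 0 ×ˢ Icc (-(5/2) : ℝ) (5/2)) ∪
      ((Icc (0 : ℝ) 1 ×ˢ Icc (-1 : ℝ) 1) ∪ (Icc (1 : ℝ) (53/10) ×ˢ Icc (-(5/2) : ℝ) (5/2))) := by
    ext z
    simp only [DD, mem_setOf_eq, mem_union, mem_prod, mem_Icc, abs_le]
    constructor
    · rintro (⟨h1, h2, h3⟩ | ⟨h1, h2, h3⟩ | ⟨h1, h2, h3⟩)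
      · exact Or.inl ⟨⟨h1, h2⟩, h3⟩
      · exact Or.inr (Or.inl ⟨⟨h1, h2⟩, h3⟩)
      · exact Or.inr (Or.inr ⟨⟨h1, h2⟩, h3⟩)
    · rintro (⟨⟨h1, h2⟩, h3⟩ | ⟨⟨h1, h2⟩, h3⟩ | ⟨⟨h1, h2⟩, h3⟩)
      · exact Or.inl ⟨h1, h2, h3⟩
      · exact Or.inr (Or.inl ⟨h1, h2, h3⟩)
      · exact Or.inr (Or.inr ⟨h1, h2, h3⟩)
  rw [h]
  exact (isCompact_Icc.prod isCompact_Icc).union
    ((isCompact_Icc.prod isCompact_Icc).union (isCompact_Icc.prod isCompact_Icc))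

end TanChain
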