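import Pool.Agent.Helper469.Chain.Defs



namespace TanChain
open Set Filter Topology
open scoped ContDiff


theorem al_ali (y : ℝ) : al (ali y) = y := by
  unfold al ali
  obtain ⟨Y, hY⟩ : ∃ Y : ℝ, Y = y + 297/800 := ⟨_, rfl⟩
  rw [← hY]
  obtain ⟨S, hS⟩ : ∃ S : ℝ, S = Real.sqrt (Y^2 + 999/10000 * (81/1600)) := ⟨_, rfl⟩
  rw [← hS]
  have hS2 : S ^ 2 = Y^2 + 999/10000 * (81/1600) := by
    rw [hS, Real.sq_sqrt (by positivity)]
  have hS0 : 0 ≤ S := by
    rw [hS]
    exact Real.sqrt_nonneg _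
  have hSY : Y ≤ S := by
    rw [hS]
    apply Real.le_sqrt_of_sq_le
    linarith
  have hsq : Real.sqrt (((42/25 * Y - 33/20 * S) / (999/10000))^2 + 81/1600) =
      (42/25 * S - 33/20 * Y) / (999/10000) := by
    rw [Real.sqrt_eq_iff_mul_self_eq (by positivity)
      (div_nonneg (by linarith) (by norm_num))]
    linear_combination (-(10000 / 999) : ℝ) * hS2
  rw [hsq]
  have : y = Y - 297/800 := by rw [hY]; ring
  rw [this]
  ring

end TanChain
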