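import Pool.Agent.Helper469.Chain.Defs



namespace TanChain
open Set Filter Topology
open scoped ContDiff


theorem al_bounds : -1 ≤ al (-15) ∧ al (53/10) ≤ 18 ∧ 161/50 ≤ al (11/10) ∧
    al (-11/50) ≤ -11/50 := by
  have h1 : (15 : ℝ) ≤ Real.sqrt ((-15)^2 + 81/1600) := Real.le_sqrt_of_sq_le (by norm_num)
  have h2 : Real.sqrt (((53:ℝ)/10)^2 + 81/1600) ≤ 531/100 :=
    Real.sqrt_le_iff.2 ⟨by norm_num, by norm_num⟩
  have h3 : (112/100 : ℝ) ≤ Real.sqrt ((11/10)^2 + 81/1600) :=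
    Real.le_sqrt_of_sq_le (by norm_num)
  have h4 : Real.sqrt ((-11/50 : ℝ)^2 + 81/1600) ≤ 3147/10000 :=
    Real.sqrt_le_iff.2 ⟨by norm_num, by norm_num⟩
  refine ⟨?_, ?_, ?_, ?_⟩
  · rw [al]; linarith
  · rw [al]; linarith
  · rw [al]; linarith
  · rw [al]; linarith

end TanChain
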