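import Pool.Agent.Helper469.Chain.Defs



namespace TanChain
open Set Filter Topology
open scoped ContDiff


theorem al_mono : StrictMono al := by
  intro x y hxy
  have h1 : Real.sqrt (x^2 + 81/1600) ≤ Real.sqrt (y^2 + 81/1600) + (y - x) := by
    apply Real.sqrt_le_iff.mpr
    have h0 := Real.sqrt_nonneg (y^2 + 81/1600)
    have h2 : Real.sqrt (y^2 + 81/1600) ^ 2 = y^2 + 81/1600 := Real.sq_sqrt (by positivity)
    have h3 : -y ≤ Real.sqrt (y^2 + 81/1600) := by
      apply Real.le_sqrt_of_sq_le
      nlinarith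
    refine ⟨by linarith, ?_⟩
    nlinarith [mul_nonneg (sub_nonneg.mpr hxy.le) (by linarith : 0 ≤ y + Real.sqrt (y^2 + 81/1600))]
  unfold al
  linarith

end TanChain
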