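import Pool.Agent.Helper469.Chain.Defs



namespace TanChain
open Set Filter Topology
open scoped ContDiff


theorem ali_al (x : ℝ) : ali (al x) = x := by
  have hS : Real.sqrt (x^2 + 81/1600) ^ 2 = x^2 + 81/1600 := Real.sq_sqrt (by positivity)
  have hSx : |x| ≤ Real.sqrt (x^2 + 81/1600) := Real.abs_le_sqrt (by linarith)
  unfold ali al
  generalize Real.sqrt (x^2 + 81/1600) = S at hS hSx
  have e : (42/25 * x + 33/20 * (S - 9/40) + 297/800)^2 + 999/10000 * (81/1600) =
      (33/20 * x + 42/25 * S)^2 := by
    linear_combination (-999/10000) * hS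
  have h1 := neg_abs_le x
  have h2 := abs_nonneg x
  have hnn : 0 ≤ 33/20 * x + 42/25 * S := by linarith
  rw [e, Real.sqrt_sq hnn]
  field_simp
  ring

end TanChain
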