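import Pool.Agent.Helper469.Chain.Defs
import Pool.Agent.Helper469.Chain.P_ali_al



namespace TanChain
open Set Filter Topology
open scoped ContDiff


theorem al_vals : al 0 = 0 ∧ al 1 = 3 ∧ al xs = xs ∧ ali 0 = 0 ∧ ali 3 = 1 ∧ ali xs = xs ∧
    xs < 0 ∧ -1/4 < xs ∧ xs < -11/50 := by
  have h0 : al 0 = 0 := by
    unfold al
    rw [show (0:ℝ) ^ 2 + 81 / 1600 = (9 / 40) ^ 2 by norm_num, Real.sqrt_sq (by norm_num)]
    norm_num
  have h1 : al 1 = 3 := by
    unfold al
    rw [show (1:ℝ) ^ 2 + 81 / 1600 = (41 / 40) ^ 2 by norm_num, Real.sqrt_sq (by norm_num)]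
    norm_num
  have h2 : al xs = xs := by
    unfold al xs
    rw [show (-5049 / 22601 : ℝ) ^ 2 + 81 / 1600 = (9 / 40 + 68 / 165 * (5049 / 22601)) ^ 2 by
      norm_num, Real.sqrt_sq (by norm_num)]
    norm_num
  refine ⟨h0, h1, h2, ?_, ?_, ?_, ?_, ?_, ?_⟩
  · have := ali_al 0
    rwa [h0] at this
  · have := ali_al 1
    rwa [h1] at this
  · have := ali_al xs
    rwa [h2] at this
  · unfold xs
    norm_num
  · unfold xs
    norm_num
  · unfold xs
    norm_num

end TanChain
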