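import Pool.Agent.Helper469.Chain.Defs
import Pool.Agent.Helper469.Chain.P_al_ali
import Pool.Agent.Helper469.Chain.P_al_mono



namespace TanChain
open Set Filter Topology
open scoped ContDiff


theorem ali_mono : StrictMono ali := by
  intro x y hxy
  by_contra h
  have h1 : ali y ≤ ali x := not_lt.1 h
  have h2 := al_mono.monotone h1
  rw [al_ali, al_ali] at h2
  exact absurd hxy (not_lt.2 h2)

end TanChain
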