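import Pool.Agent.Helper469.Chain.Defs
import Pool.Agent.Helper469.Chain.P_al_ali
import Pool.Agent.Helper469.Chain.P_ali_al
import Pool.Agent.Helper469.Chain.P_al_mono
import Pool.Agent.Helper469.Chain.P_ali_mono



namespace TanChain
open Set Filter Topology
open scoped ContDiff


theorem ali_vals : 38/100 < ali 1 ∧ ali 1 < 39/100 ∧ 66/100 < ali (19/10) ∧
    ali (19/10) < 67/100 := by
  have hlt : ∀ x y : ℝ, al x < y → x < ali y := fun x y h => by
    have := ali_mono h
    rwa [ali_al] at this
  have hgt : ∀ x y : ℝ, y < al x → ali y < x := fun x y h => by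
    have := ali_mono h
    rwa [ali_al] at this
  refine ⟨hlt _ _ ?_, hgt _ _ ?_, hlt _ _ ?_, hgt _ _ ?_⟩
  · have h : Real.sqrt ((38/100 : ℝ)^2 + 81/1600) ≤ 0.4417 := by
      rw [Real.sqrt_le_left (by norm_num)]
      norm_num
    unfold al
    linarith
  · have h : 0.45 ≤ Real.sqrt ((39/100 : ℝ)^2 + 81/1600) := by
      apply Real.le_sqrt_of_sq_le
      norm_num
    unfold al
    linarith
  · have h : Real.sqrt ((66/100 : ℝ)^2 + 81/1600) ≤ 0.6974 := by
      rw [Real.sqrt_le_left (by norm_num)]
      norm_num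
    unfold al
    linarith
  · have h : 0.7067 ≤ Real.sqrt ((67/100 : ℝ)^2 + 81/1600) := by
      apply Real.le_sqrt_of_sq_le
      norm_num
    unfold al
    linarith

end TanChain
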