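import Pool.Agent.Helper469.Chain.Defs
import Pool.Agent.Helper469.Chain.P_al_ali
import Pool.Agent.Helper469.Chain.P_al_mono
import Pool.Agent.Helper469.Chain.P_al_vals
import Pool.Agent.Helper469.Chain.P_ali_vals
import Pool.Agent.Helper469.Chain.P_al_bounds



namespace TanChain
open Set Filter Topology
open scoped ContDiff


theorem DD_inv (f : Pl ≃ₜ Pl) (hf : HS f) (z : Pl) (hz : z ∈ DD) : f z ∈ DD := by
  obtain ⟨x, y⟩ := z
  obtain ⟨a0, a1, -, -, -, -, -, -, -⟩ := al_vals
  obtain ⟨v1, v2, v3, v4⟩ := ali_vals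
  obtain ⟨b1, b2, -, -⟩ := al_bounds
  have hm := al_mono.monotone
  rcases hz with ⟨h1, h2, h3⟩ | ⟨h1, h2, h3⟩ | ⟨h1, h2, h3⟩
  · simp only at h1 h2 h3
    have e := hf.L x y h1 (by linarith) h3
    rw [e]
    left
    have m1 := hm h1
    have m2 := hm h2
    rw [abs_le] at h3 ⊢
    refine ⟨?_, ?_, ?_, ?_⟩ <;> simp only <;> linarith [h3.1, h3.2]
  · simp only at h1 h2 h3
    rw [abs_le] at h3
    have h3' : |y| ≤ 5 / 2 := by
      rw [abs_le]
      constructor <;> linarith [h3.1, h3.2]
    rcases le_total x (ali 1) with hx | hx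
    · have e := hf.L x y (by linarith) hx h3'
      rw [e]
      right
      left
      have m1 := hm h1
      have m2 := hm hx
      rw [al_ali] at m2
      rw [abs_le]
      refine ⟨?_, ?_, ?_, ?_⟩ <;> simp only <;> linarith [h3.1, h3.2]
    · rcases le_total x (ali (19/10)) with hx2 | hx2
      · right
        right
        exact hf.hole x y hx hx2 (by rw [abs_le]; exact h3)
      · have e := hf.R x y hx2 (by linarith) h3'
        rw [e]
        have m1 := hm hx2
        have m2 := hm h2
        rw [al_ali] at m1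
        rcases le_total (3 - al x) 1 with h4 | h4
        · right
          left
          rw [abs_le]
          refine ⟨?_, ?_, ?_, ?_⟩ <;> simp only <;> linarith [h3.1, h3.2]
        · right
          right
          rw [abs_le]
          refine ⟨?_, ?_, ?_, ?_⟩ <;> simp only <;> linarith [h3.1, h3.2]
  · simp only at h1 h2 h3
    have e := hf.R x y (by linarith) h2 h3
    rw [e]
    left
    have m1 := hm h1
    have m2 := hm h2
    rw [abs_le] at h3 ⊢
    refine ⟨?_, ?_, ?_, ?_⟩ <;> simp only <;> linarith [h3.1, h3.2]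

end TanChain
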