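import Pool.Agent.Helper469.Chain.Defs

namespace TanChain

open Set Filter Topology
open scoped ContDiff

theorem Tw_id (z : Pl) (h : z.1^2 + z.2^2 ≤ 3) : Tw z = z := by
  have h1 : Th (z.1^2 + z.2^2) = 0 := by
    unfold Th
    rw [Real.smoothTransition.zero_of_nonpos (by linarith)]
    simp
  unfold Tw
  rw [h1]
  unfold rotm
  simp

end TanChain
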