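import Pool.Agent.Helper469.Chain.Defs
import Pool.Agent.Helper469.Chain.P_al_ali
import Pool.Agent.Helper469.Chain.P_al_mono
import Pool.Agent.Helper469.Chain.P_al_bounds
import Pool.Agent.Helper469.Chain.P_Tw_id



namespace TanChain
open Set Filter Topology
open scoped ContDiff


theorem F_L (τ : ℝ → ℝ) (h0 : ∀ v, v ≤ -1/2 → τ v = 0) (x y : ℝ) (hx : -15 ≤ x)
    (hx' : x ≤ ali 1) (hy : |y| ≤ 5/2) : F τ (x, y) = (al x, y/10 - 9/10) := by
  obtain ⟨hy1, hy2⟩ := abs_le.mp hy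
  have h1 : -1 ≤ al x := al_bounds.1.trans (al_mono.monotone hx)
  have h2 : al x ≤ 1 := (al_mono.monotone hx').trans (al_ali 1).le
  have h3 : Tw (al x, y/10 - 9/10) = (al x, y/10 - 9/10) := by
    apply Tw_id
    show (al x)^2 + (y/10 - 9/10)^2 ≤ 3
    nlinarith
  show ((Tw (al x, y/10 - 9/10)).1 + τ (Tw (al x, y/10 - 9/10)).2,
    (Tw (al x, y/10 - 9/10)).2) = (al x, y/10 - 9/10)
  rw [h3, h0 _ (by show y/10 - 9/10 ≤ -1/2; linarith), add_zero]

end TanChain
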