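import Pool.Agent.Helper469.Chain.Defs



namespace TanChain
open Set Filter Topology
open scoped ContDiff


theorem Tw_neg (z : Pl) (h : 4 ≤ z.1^2 + z.2^2) : Tw z = (-z.1, -z.2) := by
  have h1 : Th (z.1^2 + z.2^2) = Real.pi := by
    unfold Th
    rw [Real.smoothTransition.one_of_one_le (by linarith), mul_one]
  unfold Tw
  rw [h1]
  simp [rotm]

end TanChain
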