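import Pool.Agent.Helper469.Chain.Defs
import Pool.Agent.Helper469.Chain.P_al_ali
import Pool.Agent.Helper469.Chain.P_al_mono
import Pool.Agent.Helper469.Chain.P_Tw_neg



namespace TanChain
open Set Filter Topology
open scoped ContDiff


theorem F_R (τ : ℝ → ℝ) (h3 : ∀ v, 6/10 ≤ v → τ v = 3) (x y : ℝ) (hx : ali (19/10) ≤ x)
    (hx' : x ≤ 53/10) (hy : |y| ≤ 5/2) : F τ (x, y) = (3 - al x, 9/10 - y/10) := by
  have h1 : 19/10 ≤ al x := by
    have := al_mono.monotone hx
    rwa [al_ali] at this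
  obtain ⟨hy1, hy2⟩ := abs_le.1 hy
  have h2 : Tw (al x, y/10 - 9/10) = (-al x, -(y/10 - 9/10)) := by
    apply Tw_neg
    show 4 ≤ (al x)^2 + (y/10 - 9/10)^2
    nlinarith
  unfold F
  simp only [h2]
  rw [h3 _ (by linarith)]
  ext
  · simp only []; ring
  · simp only []; ring

end TanChain
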