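import Pool.Agent.Helper469.Chain.Defs



namespace TanChain
open Set Filter Topology
open scoped ContDiff


theorem ee_props_xs : xs < 0 := by
  unfold xs
  norm_num

theorem ee_props_pos {x : ℝ} (hx : xs < x) : 0 < 1 - x / xs := by
  have h := ee_props_xs
  have : x / xs < 1 := (div_lt_one_of_neg h).2 hx
  linarith

theorem ee_props : (∀ t, xs < ee t) ∧ (∀ x, xs < x → ee (eei x) = x) ∧ (∀ t, eei (ee t) = t) ∧
    StrictMono ee ∧ ee 0 = 0 ∧ ContDiff ℝ ∞ ee ∧ (∀ t, 0 < deriv ee t) ∧ eei 0 = 0 ∧
    (∀ x, xs < x → ContinuousAt eei x) ∧ (∀ x y, xs < x → x < y → eei x < eei y) := by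
  have h := ee_props_xs
  have hne : xs ≠ 0 := h.ne
  have hee : ∀ t, HasDerivAt ee (-xs * Real.exp t) t := by
    intro t
    unfold ee
    exact ((Real.hasDerivAt_exp t).sub_const 1).const_mul (-xs)
  refine ⟨?_, ?_, ?_, ?_, ?_, ?_, ?_, ?_, ?_, ?_⟩
  · intro t
    unfold ee
    have : 0 < -xs * Real.exp t := mul_pos (by linarith) (Real.exp_pos t)
    linarith
  · intro x hx
    unfold ee eei
    rw [Real.exp_log (ee_props_pos hx)]
    field_simp
    ring
  · intro t
    unfold ee eei
    have e : 1 - -xs * (Real.exp t - 1) / xs = Real.exp t := by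
      field_simp
      ring
    rw [e, Real.log_exp]
  · intro s t hst
    unfold ee
    have h1 : Real.exp s < Real.exp t := Real.exp_lt_exp.2 hst
    have h2 : 0 < -xs := by linarith
    nlinarith
  · unfold ee
    simp
  · unfold ee
    exact contDiff_const.mul (Real.contDiff_exp.sub contDiff_const)
  · intro t
    rw [(hee t).deriv]
    exact mul_pos (by linarith) (Real.exp_pos t)
  · unfold eei
    simp
  · intro x hx
    unfold eei
    have h1 : ContinuousAt (fun x : ℝ => 1 - x / xs) x :=
      (continuous_const.sub (continuous_id.div_const xs)).continuousAt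
    exact h1.log (ee_props_pos hx).ne'
  · intro x y hx hxy
    unfold eei
    apply Real.log_lt_log (ee_props_pos hx)
    have : y / xs < x / xs := (div_lt_div_right_of_neg h).2 hxy
    linarith

end TanChain
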