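import Pool.Agent.Helper469.Chain.Defs



namespace TanChain
open Set Filter Topology
open scoped ContDiff


theorem al_gt (x : ℝ) (hx : 0 < x) : x < al x := by
  have h : (9 / 40 : ℝ) ≤ Real.sqrt (x ^ 2 + 81 / 1600) := by
    apply Real.le_sqrt_of_sq_le
    nlinarith [sq_nonneg x]
  unfold al
  linarith

end TanChain
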