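import Pool.Agent.Helper469.Chain.Defs
import Pool.Agent.Helper469.Chain.P_al_mono
import Pool.Agent.Helper469.Chain.P_al_vals



namespace TanChain
open Set Filter Topology
open scoped ContDiff


theorem al_lt (x : ℝ) (hx : x < 0) (hx' : xs < x) : al x < x ∧ xs < al x := by
  constructor
  · have hB : 0 < 9 / 40 - 68 / 165 * x := by linarith
    have h1 : Real.sqrt (x ^ 2 + 81 / 1600) < 9 / 40 - 68 / 165 * x := by
      rw [Real.sqrt_lt' hB]
      unfold xs at hx'
      nlinarith [mul_pos (sub_pos.2 hx') (neg_pos.2 hx)]
    unfold al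
    linarith
  · have h := al_mono hx'
    rw [al_vals.2.2.1] at h
    exact h

end TanChain
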