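import Pool.Agent.Helper469.Chain.Defs



namespace TanChain
open Set Filter Topology
open scoped ContDiff


theorem ali_smooth : ContDiff ℝ ∞ ali := by
  unfold ali
  have h1 : ContDiff ℝ ∞ (fun y : ℝ => (y + 297/800)^2 + 999/10000 * (81/1600)) := by fun_prop
  have h2 : ContDiff ℝ ∞ (fun y : ℝ => Real.sqrt ((y + 297/800)^2 + 999/10000 * (81/1600))) :=
    h1.sqrt (fun y => by positivity)
  have h3 : ContDiff ℝ ∞ (fun y : ℝ => 42/25 * (y + 297/800)) := by fun_prop
  exact (h3.sub (contDiff_const.mul h2)).div_const _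

end TanChain
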