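import Pool.Agent.Helper469.Chain.Defs
import Pool.Agent.Helper469.Chain.P_al_ali
import Pool.Agent.Helper469.Chain.P_ali_al
import Pool.Agent.Helper469.Chain.P_al_mono
import Pool.Agent.Helper469.Chain.P_ali_mono
import Pool.Agent.Helper469.Chain.P_ali_smooth
import Pool.Agent.Helper469.Chain.P_al_vals
import Pool.Agent.Helper469.Chain.P_al_gt
import Pool.Agent.Helper469.Chain.P_al_lt



namespace TanChain
open Set Filter Topology
open scoped ContDiff


theorem ali_tendsto (t : ℝ) (ht : xs < t) :
    Tendsto (fun n : ℕ => ali^[n] t) atTop (𝓝 0) := by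
  obtain ⟨-, -, -, h0, -, hxs, hxneg, -, -⟩ := al_vals
  have hfix : ∀ L : ℝ, ali L = L → al L = L := by
    intro L hL
    have h1 := al_ali L
    rw [hL] at h1
    exact h1
  have hcont : Continuous ali := ali_smooth.continuous
  rcases lt_trichotomy t 0 with hneg | hz | hpos
  · -- negative
    have hinv : ∀ n, t ≤ ali^[n] t ∧ ali^[n] t < 0 ∧ ali^[n] t ≤ ali^[n + 1] t := by
      have hstep : ∀ x, xs < x → x < 0 → x < ali x ∧ ali x < 0 := by
        intro x hx hx0
        have h1 : ali x < 0 := by
          have := ali_mono hx0
          rwa [h0] at this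
        have h2 : xs < ali x := by
          have := ali_mono hx
          rwa [hxs] at this
        have h3 := (al_lt (ali x) h1 h2).1
        rw [al_ali] at h3
        exact ⟨h3, h1⟩
      intro n
      induction n with
      | zero =>
        refine ⟨le_rfl, hneg, ?_⟩
        rw [Function.iterate_succ_apply']
        exact (hstep t ht hneg).1.le
      | succ n ih =>
        obtain ⟨i1, i2, i3⟩ := ih
        have h4 : xs < ali^[n] t := lt_of_lt_of_le ht i1
        have h5 := hstep _ h4 i2
        have h6 : ali^[n + 1] t = ali (ali^[n] t) := Function.iterate_succ_apply' _ _ _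
        have h7 : ali^[n + 1] t < 0 := by rw [h6]; exact h5.2
        have h8 : t ≤ ali^[n + 1] t := i1.trans i3
        refine ⟨h8, h7, ?_⟩
        rw [Function.iterate_succ_apply' ali (n + 1)]
        exact (hstep _ (lt_of_lt_of_le ht h8) h7).1.le
    have hmono : Monotone (fun n : ℕ => ali^[n] t) := monotone_nat_of_le_succ fun n => (hinv n).2.2
    have hbdd : BddAbove (Set.range (fun n : ℕ => ali^[n] t)) := by
      refine ⟨0, ?_⟩
      rintro _ ⟨n, rfl⟩
      exact (hinv n).2.1.le
    have hlim := tendsto_atTop_ciSup hmono hbdd
    set L := ⨆ n : ℕ, ali^[n] t with hL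
    have hLfix : ali L = L := isFixedPt_of_tendsto_iterate hlim hcont.continuousAt
    have hL0 : L ≤ 0 := le_of_tendsto' hlim (fun n => (hinv n).2.1.le)
    have hLt : t ≤ L := ge_of_tendsto' hlim (fun n => (hinv n).1)
    have hLz : L = 0 := by
      rcases hL0.lt_or_eq with h | h
      · have h9 := (al_lt L h (lt_of_lt_of_le ht hLt)).1
        rw [hfix L hLfix] at h9
        exact absurd h9 (lt_irrefl _)
      · exact h
    rw [hLz] at hlim
    exact hlim
  · -- zero
    subst hz
    have h1 : (fun n : ℕ => ali^[n] (0 : ℝ)) = fun _ => 0 := by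
      funext n
      exact Function.iterate_fixed h0 n
    rw [h1]
    exact tendsto_const_nhds
  · -- positive
    have hstep : ∀ x, 0 < x → ali x < x ∧ 0 < ali x := by
      intro x hx0
      have h1 : 0 < ali x := by
        have := ali_mono hx0
        rwa [h0] at this
      have h3 := al_gt (ali x) h1
      rw [al_ali] at h3
      exact ⟨h3, h1⟩
    have hinv : ∀ n, 0 < ali^[n] t := by
      intro n
      induction n with
      | zero => exact hpos
      | succ n ih =>
        rw [Function.iterate_succ_apply']
        exact (hstep _ ih).2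
    have hanti : Antitone (fun n : ℕ => ali^[n] t) := antitone_nat_of_succ_le fun n => by
      rw [Function.iterate_succ_apply']
      exact (hstep _ (hinv n)).1.le
    have hbdd : BddBelow (Set.range (fun n : ℕ => ali^[n] t)) := by
      refine ⟨0, ?_⟩
      rintro _ ⟨n, rfl⟩
      exact (hinv n).le
    have hlim := tendsto_atTop_ciInf hanti hbdd
    set L := ⨅ n : ℕ, ali^[n] t with hL
    have hLfix : ali L = L := isFixedPt_of_tendsto_iterate hlim hcont.continuousAt
    have hL0 : 0 ≤ L := ge_of_tendsto' hlim (fun n => (hinv n).le)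
    have hLz : L = 0 := by
      rcases hL0.lt_or_eq with h | h
      · have h9 := al_gt L h
        rw [hfix L hLfix] at h9
        exact absurd h9 (lt_irrefl _)
      · exact h.symm
    rw [hLz] at hlim
    exact hlim

end TanChain
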