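import Pool.Agent.Helper469.Chain.Defs
import Pool.Agent.Helper469.Chain.P_ali_vals
import Pool.Agent.Helper469.Chain.P_ali_tendsto
import Pool.Agent.Helper469.Chain.P_ee_props



namespace TanChain
open Set Filter Topology
open scoped ContDiff


theorem nn_spec (t : ℝ) : ali^[nn t] (ee t) ≤ ali 1 := by
  have h0 : (0 : ℝ) < ali 1 := by
    have := ali_vals.1
    linarith
  have h1 := ali_tendsto (ee t) (ee_props.1 t)
  have h2 : ∀ᶠ n : ℕ in atTop, ali^[n] (ee t) ≤ ali 1 := h1.eventually (ge_mem_nhds h0)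
  obtain ⟨n, hn⟩ := h2.exists
  have h3 : {n : ℕ | ali^[n] (ee t) ≤ ali 1}.Nonempty := ⟨n, hn⟩
  exact Nat.sInf_mem h3

end TanChain
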