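import Pool.Agent.Helper469.Chain.Defs
import Pool.Agent.Helper469.Chain.P_ali_mono
import Pool.Agent.Helper469.Chain.P_al_vals
import Pool.Agent.Helper469.Chain.P_ali_vals
import Pool.Agent.Helper469.Chain.P_ee_props
import Pool.Agent.Helper469.Chain.P_DD_inv
import Pool.Agent.Helper469.Chain.P_nn_spec



namespace TanChain
open Set Filter Topology
open scoped ContDiff


theorem Wplus_sub (f : Pl ≃ₜ Pl) (hf : HS f) : gam f '' Ioi 0 ⊆ DD := by
  rintro _ ⟨t, ht, rfl⟩
  have ht' : 0 < t := ht
  obtain ⟨_, _, _, hmono, h0, _⟩ := ee_props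
  have hee : 0 < ee t := by
    rw [← h0]
    exact hmono ht'
  have hfix : ∀ n : ℕ, ali^[n] 0 = 0 := by
    intro n
    exact Function.iterate_fixed al_vals.2.2.2.1 n
  have hu : 0 < ali^[nn t] (ee t) := by
    have := (ali_mono.iterate (nn t)) hee
    rwa [hfix] at this
  have hu1 : ali^[nn t] (ee t) ≤ 1 := by
    have h1 := nn_spec t
    have h2 := ali_vals.2.1
    linarith
  have hbase : ((ali^[nn t] (ee t), -1) : Pl) ∈ DD := by
    refine Or.inr (Or.inl ⟨hu.le, hu1, ?_⟩)
    simp
  have hit : ∀ n : ℕ, ∀ z ∈ DD, f^[n] z ∈ DD := by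
    intro n
    induction n with
    | zero => intro z hz; exact hz
    | succ n ih =>
      intro z hz
      rw [Function.iterate_succ_apply]
      exact ih _ (DD_inv f hf z hz)
  exact hit _ _ hbase

end TanChain

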