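import Pool.Agent.Helper469.Chain.Defs



namespace TanChain
open Set Filter Topology
open scoped ContDiff


theorem al_smooth : ContDiff ℝ ∞ al := by
  have h1 : ContDiff ℝ ∞ (fun x : ℝ => x ^ 2 + 81 / 1600) :=
    (contDiff_id.pow 2).add contDiff_const
  have h2 : ContDiff ℝ ∞ (fun x : ℝ => Real.sqrt (x ^ 2 + 81 / 1600)) :=
    h1.sqrt (fun x => by positivity)
  have h3 : ContDiff ℝ ∞ (fun x : ℝ => 42 / 25 * x + 33 / 20 * (Real.sqrt (x ^ 2 + 81 / 1600) - 9 / 40)) :=
    (contDiff_const.mul contDiff_id).add (contDiff_const.mul (h2.sub contDiff_const))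
  exact h3

end TanChain
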