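import Pool.Agent.Helper469.Chain.Defs
import Pool.Agent.Helper469.Chain.P_ali_mono
import Pool.Agent.Helper469.Chain.P_al_vals



namespace TanChain
open Set Filter Topology
open scoped ContDiff


theorem ali_iter_gt (t : ℝ) (ht : xs < t) (n : ℕ) : xs < ali^[n] t := by
  have hfix : ali xs = xs := al_vals.2.2.2.2.2.1
  induction n with
  | zero => exact ht
  | succ n ih =>
    rw [Function.iterate_succ_apply']
    calc xs = ali xs := hfix.symm
      _ < ali (ali^[n] t) := ali_mono ih

end TanChain
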