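import Pool.Agent.Helper469.Chain.Defs
import Pool.Agent.Helper469.Chain.P_al_ali
import Pool.Agent.Helper469.Chain.P_ali_al
import Pool.Agent.Helper469.Chain.P_al_mono
import Pool.Agent.Helper469.Chain.P_ali_mono
import Pool.Agent.Helper469.Chain.P_al_smooth
import Pool.Agent.Helper469.Chain.P_ali_smooth
import Pool.Agent.Helper469.Chain.P_al_vals
import Pool.Agent.Helper469.Chain.P_ali_tendsto
import Pool.Agent.Helper469.Chain.P_ali_iter_gt
import Pool.Agent.Helper469.Chain.P_ee_props
import Pool.Agent.Helper469.Chain.P_gam_step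



namespace TanChain
open Set Filter Topology
open scoped ContDiff


theorem gam_conj (f : Pl ≃ₜ Pl) (hf : HS f) : ∃ φ : ℝ ≃ₜ ℝ, φ 0 = 0 ∧
    (∀ t, f (gam f t) = gam f (φ t)) ∧ (∀ t, Tendsto (fun n : ℕ => φ.symm^[n] t) atTop (𝓝 0)) ∧
    ∀ t, 0 < t ↔ 0 < φ t := by
  obtain ⟨h1, h2, h3, h4, h5, h6, h7, h8, h9, h10⟩ := ee_props
  obtain ⟨a0, a1, axs, i0, i3, ixs, x0, x1, x2⟩ := al_vals
  have hal : ∀ x, xs < x → xs < al x := by
    intro x hx
    have := al_mono hx
    rwa [axs] at this
  have hali : ∀ x, xs < x → xs < ali x := by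
    intro x hx
    have := ali_mono hx
    rwa [ixs] at this
  have hcont1 : Continuous (fun t => eei (al (ee t))) := by
    rw [continuous_iff_continuousAt]
    intro t
    have g1 : ContinuousAt (fun t => al (ee t)) t :=
      (al_smooth.continuous.comp h6.continuous).continuousAt
    exact ContinuousAt.comp (f := fun t => al (ee t)) (g := eei) (h9 _ (hal _ (h1 t))) g1
  have hcont2 : Continuous (fun t => eei (ali (ee t))) := by
    rw [continuous_iff_continuousAt]
    intro t
    have g1 : ContinuousAt (fun t => ali (ee t)) t :=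
      (ali_smooth.continuous.comp h6.continuous).continuousAt
    exact ContinuousAt.comp (f := fun t => ali (ee t)) (g := eei) (h9 _ (hali _ (h1 t))) g1
  have hee1 : ∀ t, ee (eei (al (ee t))) = al (ee t) := fun t => h2 _ (hal _ (h1 t))
  have hee2 : ∀ t, ee (eei (ali (ee t))) = ali (ee t) := fun t => h2 _ (hali _ (h1 t))
  obtain ⟨φ, hφ, hψ⟩ : ∃ φ : ℝ ≃ₜ ℝ, (∀ t, φ t = eei (al (ee t))) ∧
      (∀ t, φ.symm t = eei (ali (ee t))) :=
    ⟨{ toFun := fun t => eei (al (ee t))
       invFun := fun t => eei (ali (ee t))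
       left_inv := fun t => by
         show eei (ali (ee (eei (al (ee t))))) = t
         rw [hee1, ali_al, h3]
       right_inv := fun t => by
         show eei (al (ee (eei (ali (ee t))))) = t
         rw [hee2, al_ali, h3]
       continuous_toFun := hcont1
       continuous_invFun := hcont2 }, fun t => rfl, fun t => rfl⟩
  refine ⟨φ, ?_, ?_, ?_, ?_⟩
  · rw [hφ, h5, a0, h8]
  · intro t
    rw [hφ]
    exact gam_step f hf t
  · intro t
    have hit : ∀ n : ℕ, φ.symm^[n] t = eei (ali^[n] (ee t)) := by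
      intro n
      induction n with
      | zero =>
        show t = eei (ee t)
        rw [h3]
      | succ n ih =>
        rw [Function.iterate_succ_apply', Function.iterate_succ_apply', ih, hψ,
          h2 _ (ali_iter_gt _ (h1 t) n)]
    have hfun : (fun n : ℕ => φ.symm^[n] t) = fun n : ℕ => eei (ali^[n] (ee t)) := funext hit
    rw [hfun]
    have g1 := (h9 0 x0).tendsto.comp (ali_tendsto (ee t) (h1 t))
    rw [h8] at g1
    exact g1
  · intro t
    have e1 : 0 < t ↔ 0 < ee t := by
      rw [← h4.lt_iff_lt (a := 0) (b := t), h5]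
    have e2 : 0 < ee t ↔ 0 < al (ee t) := by
      rw [← al_mono.lt_iff_lt (a := 0) (b := ee t), a0]
    have e3 : 0 < φ t ↔ 0 < al (ee t) := by
      rw [← h4.lt_iff_lt (a := 0) (b := φ t), h5, hφ, hee1]
    rw [e1, e2, e3]

end TanChain
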