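import Pool.Agent.Helper469.Chain.Defs
import Pool.Agent.Helper469.Chain.P_al_ali
import Pool.Agent.Helper469.Chain.P_ali_mono
import Pool.Agent.Helper469.Chain.P_al_vals
import Pool.Agent.Helper469.Chain.P_ali_vals
import Pool.Agent.Helper469.Chain.P_ali_iter_gt
import Pool.Agent.Helper469.Chain.P_ee_props
import Pool.Agent.Helper469.Chain.P_nn_spec



namespace TanChain
open Set Filter Topology
open scoped ContDiff


theorem gam_spec (f : Pl ≃ₜ Pl) (hf : HS f) (t : ℝ) (n : ℕ) (h : ali^[n] (ee t) ≤ ali 1) :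
    gam f t = f^[n] (ali^[n] (ee t), -1) := by
  obtain ⟨-, -, -, -, -, -, hxs0, hxs1, hxs2⟩ := al_vals
  obtain ⟨ha1, ha2, -, -⟩ := ali_vals
  have key : ∀ m : ℕ, ali^[m] (ee t) ≤ ali 1 → ali^[m + 1] (ee t) ≤ ali 1 ∧
      f^[m + 1] (ali^[m + 1] (ee t), -1) = f^[m] (ali^[m] (ee t), -1) := by
    intro m hm
    have h1 : ali^[m + 1] (ee t) = ali (ali^[m] (ee t)) := Function.iterate_succ_apply' _ _ _
    have h2 : xs < ali^[m + 1] (ee t) := ali_iter_gt _ (ee_props.1 t) _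
    rw [h1] at h2 ⊢
    obtain ⟨u, hu⟩ : ∃ u, u = ali^[m] (ee t) := ⟨_, rfl⟩
    rw [← hu] at hm h2 ⊢
    have h3 : ali u ≤ ali 1 := ali_mono.monotone (by linarith)
    refine ⟨h3, ?_⟩
    have h4 := hf.L (ali u) (-1) (by linarith) h3 (by norm_num)
    rw [Function.iterate_succ_apply, h4, al_ali]
    norm_num
  have h0 : nn t ≤ n := Nat.sInf_le h
  have hall : ∀ k : ℕ, ali^[nn t + k] (ee t) ≤ ali 1 ∧
      f^[nn t + k] (ali^[nn t + k] (ee t), -1) = gam f t := by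
    intro k
    induction k with
    | zero => exact ⟨nn_spec t, rfl⟩
    | succ k ih =>
      obtain ⟨h1, h2⟩ := key (nn t + k) ih.1
      exact ⟨h1, h2.trans ih.2⟩
  obtain ⟨k, rfl⟩ := Nat.exists_eq_add_of_le h0
  exact (hall k).2.symm

end TanChain
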