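import Pool.Agent.Helper469.Chain.Defs
import Pool.Agent.Helper469.Chain.P_ali_mono
import Pool.Agent.Helper469.Chain.P_ali_smooth
import Pool.Agent.Helper469.Chain.P_ali_vals
import Pool.Agent.Helper469.Chain.P_ee_props
import Pool.Agent.Helper469.Chain.P_nn_spec
import Pool.Agent.Helper469.Chain.P_gam_spec



namespace TanChain
open Set Filter Topology
open scoped ContDiff


theorem gam_smooth_iter {E : Type*} [NormedAddCommGroup E] [NormedSpace ℝ E] {g : E → E}
    (hg : ContDiff ℝ ∞ g) (n : ℕ) : ContDiff ℝ ∞ (g^[n]) := by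
  induction n with
  | zero => exact contDiff_id
  | succ n ih =>
    rw [Function.iterate_succ]
    exact ih.comp hg

theorem gam_smooth (f : Pl ≃ₜ Pl) (hf : HS f) : ContDiff ℝ ∞ (gam f) := by
  rw [contDiff_iff_contDiffAt]
  intro t₀
  have hee : ContDiff ℝ ∞ ee := ee_props.2.2.2.2.2.1
  have hlt : ali^[nn t₀ + 1] (ee t₀) < ali 1 := by
    rw [Function.iterate_succ_apply']
    apply ali_mono
    have h1 := nn_spec t₀
    have h2 := ali_vals.2.1
    linarith
  have hc : ContDiff ℝ ∞ fun t => ali^[nn t₀ + 1] (ee t) :=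
    (gam_smooth_iter ali_smooth (nn t₀ + 1)).comp hee
  have hev : ∀ᶠ t in 𝓝 t₀, ali^[nn t₀ + 1] (ee t) < ali 1 :=
    hc.continuous.continuousAt.eventually_lt continuousAt_const hlt
  have heq : gam f =ᶠ[𝓝 t₀] fun t => f^[nn t₀ + 1] (ali^[nn t₀ + 1] (ee t), -1) := by
    filter_upwards [hev] with t ht
    exact gam_spec f hf t (nn t₀ + 1) ht.le
  refine ContDiffAt.congr_of_eventuallyEq ?_ heq
  exact ((gam_smooth_iter hf.smooth (nn t₀ + 1)).comp (hc.prodMk contDiff_const)).contDiffAt

end TanChain
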