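import Pool.Agent.Helper469.Chain.Defs
import Pool.Agent.Helper469.Chain.P_DD_compact
import Pool.Agent.Helper469.Chain.P_gam_smooth
import Pool.Agent.Helper469.Chain.P_gam_conj
import Pool.Agent.Helper469.Chain.P_Wplus_sub



namespace TanChain
open Set Filter Topology
open scoped ContDiff


theorem K_props (f : Pl ≃ₜ Pl) (hf : HS f) : IsCompact (closure (gam f '' Ioi 0)) ∧
    closure (gam f '' Ioi 0) ⊆ DD ∧ f '' closure (gam f '' Ioi 0) = closure (gam f '' Ioi 0) ∧
    IsConnected (closure (gam f '' Ioi 0)) := by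
  have hsub : closure (gam f '' Ioi 0) ⊆ DD :=
    closure_minimal (Wplus_sub f hf) DD_compact.isClosed
  obtain ⟨φ, _, hφ, _, hpos⟩ := gam_conj f hf
  refine ⟨DD_compact.of_isClosed_subset isClosed_closure hsub, hsub, ?_, ?_⟩
  · have h1 : f '' (gam f '' Ioi 0) = gam f '' Ioi 0 := by
      apply Subset.antisymm
      · rintro _ ⟨_, ⟨t, ht, rfl⟩, rfl⟩
        exact ⟨φ t, (hpos t).1 ht, (hφ t).symm⟩
      · rintro _ ⟨t, ht, rfl⟩
        refine ⟨gam f (φ.symm t), ⟨φ.symm t, ?_, rfl⟩, ?_⟩
        · apply (hpos (φ.symm t)).2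
          rw [φ.apply_symm_apply]
          exact ht
        · rw [hφ, φ.apply_symm_apply]
    rw [f.image_closure, h1]
  · apply IsConnected.closure
    exact isConnected_Ioi.image _ (gam_smooth f hf).continuous.continuousOn

end TanChain
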