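import Pool.Agent.Helper469.Chain.Defs



namespace TanChain
open Set Filter Topology
open scoped ContDiff


theorem chain_of_maps_delta {X : Type*} [MetricSpace X] [CompactSpace X] (g : X → ℝ)
    (hg : Continuous g) (ε : ℝ) (h : ∀ x y, g x = g y → dist x y < ε) :
    ∃ δ > 0, ∀ x y, |g x - g y| < δ → dist x y < ε := by
  have hK : IsCompact {p : X × X | ε ≤ dist p.1 p.2} :=
    (isClosed_le continuous_const continuous_dist).isCompact
  have hc : Continuous (fun p : X × X => |g p.1 - g p.2|) := by fun_prop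
  rcases Set.eq_empty_or_nonempty {p : X × X | ε ≤ dist p.1 p.2} with he | hne
  · refine ⟨1, one_pos, fun x y _ => ?_⟩
    by_contra hcon
    push Not at hcon
    have : (x, y) ∈ {p : X × X | ε ≤ dist p.1 p.2} := hcon
    rw [he] at this
    exact this
  · obtain ⟨⟨x0, y0⟩, hp, hmin⟩ := hK.exists_isMinOn hne hc.continuousOn
    refine ⟨|g x0 - g y0|, ?_, fun x y hxy => ?_⟩
    · rw [gt_iff_lt, abs_pos]
      intro h0
      have h1 := h x0 y0 (sub_eq_zero.1 h0)
      have h2 : ε ≤ dist x0 y0 := hp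
      linarith
    · by_contra hcon
      push Not at hcon
      have h1 : |g x0 - g y0| ≤ |g x - g y| :=
        hmin (show (x, y) ∈ {p : X × X | ε ≤ dist p.1 p.2} from hcon)
      linarith

theorem chain_of_maps {X : Type*} [MetricSpace X] [CompactSpace X] [ConnectedSpace X]
    (h : ∀ ε : ℝ, 0 < ε → ∃ g : X → ℝ, Continuous g ∧ ∀ x y, g x = g y → dist x y < ε) :
    Chainable X := by
  intro ε hε
  obtain ⟨g, hg, hgε⟩ := h (ε / 2) (by linarith)
  obtain ⟨δ, hδ, hgδ⟩ := chain_of_maps_delta g hg (ε / 2) hgε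
  have hbd : ∀ S : Set X, Bornology.IsBounded S := fun S =>
    isCompact_univ.isBounded.subset (subset_univ S)
  have hne : (univ : Set X).Nonempty := univ_nonempty
  obtain ⟨xa, -, hxa⟩ := isCompact_univ.exists_isMinOn hne hg.continuousOn
  obtain ⟨xb, -, hxb⟩ := isCompact_univ.exists_isMaxOn hne hg.continuousOn
  have ha : ∀ x, g xa ≤ g x := fun x => hxa (mem_univ x)
  have hb : ∀ x, g x ≤ g xb := fun x => hxb (mem_univ x)
  set a := g xa with hadef
  set b := g xb with hbdef
  rcases eq_or_lt_of_le (ha xb) with hab | hab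
  · -- constant function
    refine ⟨1, fun _ => univ, fun _ => isOpen_univ, ?_, fun _ => ⟨hbd _, ?_⟩, fun i j => ?_⟩
    · ext x
      simp
    · refine lt_of_le_of_lt (Metric.diam_le_of_forall_dist_le (by linarith : (0:ℝ) ≤ ε / 2) ?_)
        (by linarith)
      intro x _ y _
      apply le_of_lt
      apply hgε
      have h1 := ha x
      have h2 := hb x
      have h3 := ha y
      have h4 := hb y
      linarith
    · have hi : i = 0 := Subsingleton.elim _ _
      have hj : j = 0 := Subsingleton.elim _ _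
      subst hi
      subst hj
      simp [hne]
  · have hab' : 0 < b - a := sub_pos.2 hab
    obtain ⟨N, hN⟩ := exists_nat_gt (5 * (b - a) / (3 * δ))
    have hNpos : (0 : ℝ) < N := lt_of_le_of_lt (by positivity) hN
    have hN0 : 0 < N := by exact_mod_cast hNpos
    set w := (b - a) / N with hw
    have hwpos : 0 < w := by positivity
    have hwN : (N : ℝ) * w = b - a := by rw [hw]; field_simp
    have hwδ : 5 * w / 3 < δ := by
      rw [div_lt_iff₀ (by positivity)] at hN
      have h1 : (N : ℝ) * (5 * w / 3) < N * δ := by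
        have : (N : ℝ) * (5 * w / 3) = 5 / 3 * (N * w) := by ring
        rw [this, hwN]
        linarith
      exact lt_of_mul_lt_mul_left h1 hNpos.le
    refine ⟨N, fun i => g ⁻¹' (Ioo (a + (i : ℕ) * w - w / 3) (a + ((i : ℕ) + 1) * w + w / 3)),
      fun i => isOpen_Ioo.preimage hg, ?_, fun i => ⟨hbd _, ?_⟩, fun i j => ?_⟩
    · rw [eq_univ_iff_forall]
      intro x
      have h1 := ha x
      have h2 := hb x
      rw [mem_iUnion]
      have ht0 : 0 ≤ (g x - a) / w := div_nonneg (by linarith) hwpos.le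
      by_cases htN : ⌊(g x - a) / w⌋₊ < N
      · refine ⟨⟨⌊(g x - a) / w⌋₊, htN⟩, ?_⟩
        have f1 := Nat.floor_le ht0
        have f2 := Nat.lt_floor_add_one ((g x - a) / w)
        rw [le_div_iff₀ hwpos] at f1
        rw [div_lt_iff₀ hwpos] at f2
        constructor
        · show a + ((⌊(g x - a) / w⌋₊ : ℕ) : ℝ) * w - w / 3 < g x
          linarith
        · show g x < a + (((⌊(g x - a) / w⌋₊ : ℕ) : ℝ) + 1) * w + w / 3
          linarith
      · refine ⟨⟨N - 1, by omega⟩, ?_⟩
        push Not at htN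
        have f1 : ((N : ℕ) : ℝ) ≤ (g x - a) / w := (Nat.le_floor_iff ht0).1 htN
        rw [le_div_iff₀ hwpos, hwN] at f1
        have e1 : (((N - 1 : ℕ) : ℕ) : ℝ) = N - 1 := by
          rw [Nat.cast_sub (by omega)]
          simp
        constructor
        · show a + (((N - 1 : ℕ) : ℕ) : ℝ) * w - w / 3 < g x
          rw [e1]
          nlinarith
        · show g x < a + ((((N - 1 : ℕ) : ℕ) : ℝ) + 1) * w + w / 3
          rw [e1]
          nlinarith
    · refine lt_of_le_of_lt (Metric.diam_le_of_forall_dist_le (by linarith : (0:ℝ) ≤ ε / 2) ?_)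
        (by linarith)
      rintro x ⟨hx1, hx2⟩ y ⟨hy1, hy2⟩
      apply le_of_lt
      apply hgδ
      rw [abs_lt]
      constructor <;> nlinarith
    · constructor
      · rintro ⟨x, ⟨hi1, hi2⟩, ⟨hj1, hj2⟩⟩
        have h1 : ((i : ℕ) : ℝ) * w < (((j : ℕ) : ℝ) + 2) * w := by nlinarith
        have h2 : ((j : ℕ) : ℝ) * w < (((i : ℕ) : ℝ) + 2) * w := by nlinarith
        have h3 : ((i : ℕ) : ℝ) < ((j : ℕ) : ℝ) + 2 := lt_of_mul_lt_mul_right h1 hwpos.le
        have h4 : ((j : ℕ) : ℝ) < ((i : ℕ) : ℝ) + 2 := lt_of_mul_lt_mul_right h2 hwpos.le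
        have h5 : (i : ℕ) < (j : ℕ) + 2 := by exact_mod_cast h3
        have h6 : (j : ℕ) < (i : ℕ) + 2 := by exact_mod_cast h4
        rw [abs_le]
        constructor <;> omega
      · intro hij
        rw [abs_le] at hij
        have h5 : (i : ℕ) ≤ (j : ℕ) + 1 := by omega
        have h6 : (j : ℕ) ≤ (i : ℕ) + 1 := by omega
        have h7 : ((i : ℕ) : ℝ) ≤ ((j : ℕ) : ℝ) + 1 := by exact_mod_cast h5
        have h8 : ((j : ℕ) : ℝ) ≤ ((i : ℕ) : ℝ) + 1 := by exact_mod_cast h6
        have h9 : ((i : ℕ) : ℝ) + 1 ≤ N := by exact_mod_cast i.2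
        have h10 : ((j : ℕ) : ℝ) + 1 ≤ N := by exact_mod_cast j.2
        have h11 : (0 : ℝ) ≤ ((i : ℕ) : ℝ) := Nat.cast_nonneg _
        have h12 : (0 : ℝ) ≤ ((j : ℕ) : ℝ) := Nat.cast_nonneg _
        obtain ⟨x, hx⟩ := mem_range_of_exists_le_of_exists_ge (c := a + (((i : ℕ) : ℝ) + ((j : ℕ) : ℝ) + 1) / 2 * w) hg
          ⟨xa, by
            have : 0 ≤ (((i : ℕ) : ℝ) + ((j : ℕ) : ℝ) + 1) / 2 * w := by positivity
            linarith⟩
          ⟨xb, by
            have : (((i : ℕ) : ℝ) + ((j : ℕ) : ℝ) + 1) / 2 * w ≤ N * w :=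
              mul_le_mul_of_nonneg_right (by linarith) hwpos.le
            linarith⟩
        refine ⟨x, ⟨?_, ?_⟩, ⟨?_, ?_⟩⟩
        · rw [hx]; nlinarith
        · rw [hx]; nlinarith
        · rw [hx]; nlinarith
        · rw [hx]; nlinarith

end TanChain
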