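import Pool.Agent.Helper469.Chain.Defs



namespace TanChain
open Set Filter Topology
open scoped ContDiff


theorem al_contr_aux (x : ℝ) (hx : x ≤ -11/50) : 0 < Real.sqrt (x^2 + 81/1600) ∧
    -x ≤ Real.sqrt (x^2 + 81/1600) ∧ 69/100 * Real.sqrt (x^2 + 81/1600) ≤ -x ∧
    Real.sqrt (x^2 + 81/1600) ^ 2 = x^2 + 81/1600 := by
  have h0 : 0 < x^2 + 81/1600 := by positivity
  have h1 : 0 < Real.sqrt (x^2 + 81/1600) := Real.sqrt_pos.mpr h0
  have h2 : Real.sqrt (x^2 + 81/1600) ^ 2 = x^2 + 81/1600 := Real.sq_sqrt h0.le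
  refine ⟨h1, ?_, ?_, h2⟩
  · apply Real.le_sqrt_of_sq_le
    nlinarith
  · apply le_of_sq_le_sq _ (by linarith)
    rw [mul_pow, h2]
    nlinarith

theorem al_contr (x x' : ℝ) (hx : x ≤ -11/50) (hx' : x' ≤ -11/50) :
    |al x - al x'| ≤ 3/5 * |x - x'| := by
  obtain ⟨h1, h2, h3, h4⟩ := al_contr_aux x hx
  obtain ⟨h1', h2', h3', h4'⟩ := al_contr_aux x' hx'
  unfold al
  set s := Real.sqrt (x^2 + 81/1600) with hs
  set s' := Real.sqrt (x'^2 + 81/1600) with hs'
  have hss : 0 < s + s' := by linarith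
  have hd : s - s' = (x + x') / (s + s') * (x - x') := by
    rw [div_mul_eq_mul_div, eq_div_iff hss.ne']
    nlinarith
  have hq1 : -1 ≤ (x + x') / (s + s') := by
    rw [le_div_iff₀ hss]
    linarith
  have hq2 : (x + x') / (s + s') ≤ -69/100 := by
    rw [div_le_iff₀ hss]
    linarith
  have he : 42/25 * x + 33/20 * (s - 9/40) - (42/25 * x' + 33/20 * (s' - 9/40)) =
      (42/25 + 33/20 * ((x + x') / (s + s'))) * (x - x') := by
    calc 42/25 * x + 33/20 * (s - 9/40) - (42/25 * x' + 33/20 * (s' - 9/40))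
        = 42/25 * (x - x') + 33/20 * (s - s') := by ring
      _ = 42/25 * (x - x') + 33/20 * ((x + x') / (s + s') * (x - x')) := by rw [hd]
      _ = _ := by ring
  rw [he, abs_mul]
  apply mul_le_mul_of_nonneg_right _ (abs_nonneg _)
  rw [abs_le]
  constructor <;> linarith

end TanChain
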