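import Pool.Agent.Helper469.Chain.Defs
import Pool.Agent.Helper469.Chain.P_al_mono
import Pool.Agent.Helper469.Chain.P_al_vals
import Pool.Agent.Helper469.Chain.P_ali_vals
import Pool.Agent.Helper469.Chain.P_al_bounds
import Pool.Agent.Helper469.Chain.P_al_contr
import Pool.Agent.Helper469.Chain.P_DD_inv



namespace TanChain
open Set Filter Topology
open scoped ContDiff


theorem good_contr_bd (w : Pl) (hw : w ∈ DD) : -15 ≤ w.1 ∧ w.1 ≤ 53/10 ∧ |w.2| ≤ 5/2 := by
  rcases hw with ⟨h1, h2, h3⟩ | ⟨h1, h2, h3⟩ | ⟨h1, h2, h3⟩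
  · exact ⟨h1, by linarith, h3⟩
  · exact ⟨by linarith, by linarith, by linarith⟩
  · exact ⟨by linarith, h2, h3⟩

theorem good_contr_L (f : Pl ≃ₜ Pl) (hf : HS f) (w : Pl) (hw : w ∈ DD) (h : w.1 ≤ 0) :
    f w = (al w.1, w.2/10 - 9/10) := by
  obtain ⟨h1, h2, h3⟩ := good_contr_bd w hw
  have h4 := ali_vals.1
  exact hf.L w.1 w.2 h1 (by linarith) h3

theorem good_contr_R (f : Pl ≃ₜ Pl) (hf : HS f) (w : Pl) (hw : w ∈ DD) (h : 1 ≤ w.1) :
    f w = (3 - al w.1, 9/10 - w.2/10) := by
  obtain ⟨h1, h2, h3⟩ := good_contr_bd w hw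
  have h4 := ali_vals.2.2.2
  exact hf.R w.1 w.2 (by linarith) h2 h3

theorem good_contr_dist (w w' : Pl) : dist w w' = max |w.1 - w'.1| |w.2 - w'.2| := by
  rw [Prod.dist_eq, Real.dist_eq, Real.dist_eq]

theorem good_contr_div (a b : ℝ) : |a / 10 - b / 10| = |a - b| * (1 / 10) := by
  rw [← sub_div, abs_div, abs_of_pos (by norm_num : (0 : ℝ) < 10)]
  ring

theorem good_contr_one (f : Pl ≃ₜ Pl) (hf : HS f) (m : ℕ) : ∀ w w' : Pl, w ∈ DD → w' ∈ DD →
    w.1 = w'.1 → (w.1 ≤ 0 ∨ 1 ≤ w.1) → dist (f^[m] w) (f^[m] w') ≤ |w.2 - w'.2| * (3/5)^m := by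
  induction m with
  | zero =>
    intro w w' hw hw' h1 h2
    rw [Function.iterate_zero, id_eq, id_eq, good_contr_dist, h1, sub_self, abs_zero, pow_zero,
      mul_one]
    exact max_le (abs_nonneg _) le_rfl
  | succ m ih =>
    intro w w' hw hw' h1 h2
    rw [Function.iterate_succ_apply, Function.iterate_succ_apply]
    have hD := DD_inv f hf w hw
    have hD' := DD_inv f hf w' hw'
    have key : ∀ x y : ℝ, |x - y| = |w.2 - w'.2| * (1 / 10) →
        |x - y| * (3/5)^m ≤ |w.2 - w'.2| * (3/5)^(m+1) := by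
      intro x y hxy
      rw [hxy, pow_succ]
      have h3 : 0 ≤ |w.2 - w'.2| * (3/5)^m := by positivity
      nlinarith
    rcases h2 with h2 | h2
    · have e1 := good_contr_L f hf w hw h2
      have e2 := good_contr_L f hf w' hw' (by rw [← h1]; exact h2)
      have h4 := ih (f w) (f w') hD hD' (by rw [e1, e2, h1]) (by
        left
        rw [e1]
        have := al_mono.monotone h2
        rw [al_vals.1] at this
        exact this)
      refine le_trans h4 (key _ _ ?_)
      rw [e1, e2]
      change |(w.2/10 - 9/10) - (w'.2/10 - 9/10)| = _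
      rw [← good_contr_div]
      congr 1; ring
    · have e1 := good_contr_R f hf w hw h2
      have e2 := good_contr_R f hf w' hw' (by rw [← h1]; exact h2)
      have h4 := ih (f w) (f w') hD hD' (by rw [e1, e2, h1]) (by
        left
        rw [e1]
        have := al_mono.monotone h2
        rw [al_vals.2.1] at this
        change 3 - al w.1 ≤ 0
        linarith)
      refine le_trans h4 (key _ _ ?_)
      rw [e1, e2]
      change |(9/10 - w.2/10) - (9/10 - w'.2/10)| = _
      rw [← good_contr_div, abs_sub_comm (w.2/10) (w'.2/10)]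
      congr 1; ring

theorem good_contr_two (f : Pl ≃ₜ Pl) (hf : HS f) (m : ℕ) : ∀ w w' : Pl, w ∈ DD → w' ∈ DD →
    w.1 ≤ -11/50 → w'.1 ≤ -11/50 → dist (f^[m] w) (f^[m] w') ≤ dist w w' * (3/5)^m := by
  induction m with
  | zero =>
    intro w w' hw hw' h1 h2
    rw [Function.iterate_zero, id_eq, id_eq, pow_zero, mul_one]
  | succ m ih =>
    intro w w' hw hw' h1 h2
    rw [Function.iterate_succ_apply, Function.iterate_succ_apply]
    have hD := DD_inv f hf w hw
    have hD' := DD_inv f hf w' hw'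
    have e1 := good_contr_L f hf w hw (by linarith)
    have e2 := good_contr_L f hf w' hw' (by linarith)
    have h3 : (f w).1 ≤ -11/50 := by
      rw [e1]
      exact le_trans (al_mono.monotone h1) al_bounds.2.2.2
    have h4 : (f w').1 ≤ -11/50 := by
      rw [e2]
      exact le_trans (al_mono.monotone h2) al_bounds.2.2.2
    have h5 := ih (f w) (f w') hD hD' h3 h4
    have h6 : dist (f w) (f w') ≤ 3/5 * dist w w' := by
      rw [good_contr_dist, good_contr_dist w w', e1, e2]
      refine max_le ?_ ?_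
      · change |al w.1 - al w'.1| ≤ _
        refine le_trans (al_contr _ _ h1 h2) ?_
        exact mul_le_mul_of_nonneg_left (le_max_left _ _) (by norm_num)
      · change |(w.2/10 - 9/10) - (w'.2/10 - 9/10)| ≤ _
        have e3 : (w.2/10 - 9/10) - (w'.2/10 - 9/10) = w.2/10 - w'.2/10 := by ring
        rw [e3, good_contr_div]
        have h7 : |w.2 - w'.2| ≤ max |w.1 - w'.1| |w.2 - w'.2| := le_max_right _ _
        have h8 := abs_nonneg (w.2 - w'.2)
        linarith
    have h9 : (0 : ℝ) ≤ (3/5)^m := by positivity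
    calc dist (f^[m] (f w)) (f^[m] (f w')) ≤ dist (f w) (f w') * (3/5)^m := h5
      _ ≤ (3/5 * dist w w') * (3/5)^m := mul_le_mul_of_nonneg_right h6 h9
      _ = dist w w' * (3/5)^(m+1) := by rw [pow_succ]; ring

theorem good_contr_two' (f : Pl ≃ₜ Pl) (hf : HS f) (m : ℕ) (w w' : Pl) (hw : w ∈ DD)
    (hw' : w' ∈ DD) (h1 : w.1 ≤ -11/50) (h2 : w'.1 ≤ -11/50) :
    dist (f^[m] w) (f^[m] w') ≤ 15 * (3/5)^m := by
  refine le_trans (good_contr_two f hf m w w' hw hw' h1 h2) ?_
  refine mul_le_mul_of_nonneg_right ?_ (by positivity)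
  obtain ⟨a1, a2, a3⟩ := good_contr_bd w hw
  obtain ⟨b1, b2, b3⟩ := good_contr_bd w' hw'
  rw [abs_le] at a3 b3
  rw [good_contr_dist]
  refine max_le ?_ ?_
  · rw [abs_le]; constructor <;> linarith
  · rw [abs_le]; constructor <;> linarith

theorem good_contr (f : Pl ≃ₜ Pl) (hf : HS f) (w w' : Pl) (hw : w ∈ DD) (hw' : w' ∈ DD)
    (h : Good w w') (m : ℕ) : dist (f^[m] w) (f^[m] w') ≤ 40 * (3/5)^m := by
  have hp : (0 : ℝ) ≤ (3/5)^m := by positivity
  obtain ⟨a1, a2, a3⟩ := good_contr_bd w hw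
  obtain ⟨b1, b2, b3⟩ := good_contr_bd w' hw'
  rw [abs_le] at a3 b3
  rcases h with ⟨h1, h2⟩ | ⟨h1, h2⟩ | ⟨h1, h2⟩
  · refine le_trans (good_contr_one f hf m w w' hw hw' h1 h2) ?_
    refine mul_le_mul_of_nonneg_right ?_ hp
    rw [abs_le]; constructor <;> linarith
  · refine le_trans (good_contr_two' f hf m w w' hw hw' h1 h2) ?_
    linarith
  · cases m with
    | zero =>
      rw [Function.iterate_zero, id_eq, id_eq, pow_zero, mul_one, good_contr_dist]
      refine max_le ?_ ?_
      · rw [abs_le]; constructor <;> linarith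
      · rw [abs_le]; constructor <;> linarith
    | succ m =>
      rw [Function.iterate_succ_apply, Function.iterate_succ_apply]
      have hD := DD_inv f hf w hw
      have hD' := DD_inv f hf w' hw'
      have e1 := good_contr_R f hf w hw (by linarith)
      have e2 := good_contr_R f hf w' hw' (by linarith)
      have h3 : (f w).1 ≤ -11/50 := by
        rw [e1]
        have h5 := al_mono.monotone h1
        have h6 := al_bounds.2.2.1
        change 3 - al w.1 ≤ -11/50
        linarith
      have h4 : (f w').1 ≤ -11/50 := by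
        rw [e2]
        have h5 := al_mono.monotone h2
        have h6 := al_bounds.2.2.1
        change 3 - al w'.1 ≤ -11/50
        linarith
      refine le_trans (good_contr_two' f hf m (f w) (f w') hD hD' h3 h4) ?_
      have hp' : (0 : ℝ) ≤ (3/5)^m := by positivity
      rw [pow_succ]
      nlinarith

end TanChain
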