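import Pool.Agent.Helper469.Chain.Defs
import Pool.Agent.Helper469.Chain.P_al_ali
import Pool.Agent.Helper469.Chain.P_ali_al
import Pool.Agent.Helper469.Chain.P_al_mono
import Pool.Agent.Helper469.Chain.P_ali_mono
import Pool.Agent.Helper469.Chain.P_al_vals
import Pool.Agent.Helper469.Chain.P_ali_vals
import Pool.Agent.Helper469.Chain.P_DD_inv



namespace TanChain
open Set Filter Topology
open scoped ContDiff


theorem hk_bounds (f : Pl ≃ₜ Pl) (hf : HS f) (k : ℕ) (z : Pl) (hz : z ∈ DD) :
    (z.1 ≤ 0 → hk f k z = z.1) ∧ (1 ≤ z.1 → hk f k z = z.1) ∧ (0 < z.1 → 0 < hk f k z) ∧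
      (z.1 < 1 → hk f k z < 1) := by
  induction k generalizing z with
  | zero =>
    exact ⟨fun _ => rfl, fun _ => rfl, fun h => h, fun h => h⟩
  | succ k ih =>
    obtain ⟨va1, va2, va3, va4⟩ := ali_vals
    obtain ⟨al0, al1, _, ali0, ali3, _⟩ := al_vals
    have hfz := DD_inv f hf z hz
    obtain ⟨i1, i2, i3, i4⟩ := ih (f z) hfz
    have hzeq : z = (z.1, z.2) := rfl
    have hDD : -15 ≤ z.1 ∧ z.1 ≤ 53/10 ∧ |z.2| ≤ 5/2 ∧ (0 < z.1 → z.1 < 1 → |z.2| ≤ 1) := by
      rcases hz with h | h | h
      · exact ⟨h.1, by linarith [h.2.1], h.2.2, fun h1 _ => absurd h1 (not_lt.mpr h.2.1)⟩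
      · exact ⟨by linarith [h.1], by linarith [h.2.1], by linarith [h.2.2], fun _ _ => h.2.2⟩
      · exact ⟨by linarith [h.1], h.2.1, h.2.2, fun _ h1 => absurd h.1 (not_le.mpr h1)⟩
    obtain ⟨hd1, hd2, hd3, hd4⟩ := hDD
    by_cases hA : z.1 ≤ ali 1
    · have hval : hk f (k + 1) z = ali (hk f k (f z)) := by
        show (if z.1 ≤ ali 1 then ali (hk f k (f z)) else _) = _
        rw [if_pos hA]
      have hf1 : (f z).1 = al z.1 := by
        rw [hzeq, hf.L z.1 z.2 hd1 hA hd3]
      have hle : al z.1 ≤ 1 := by
        have := al_mono.monotone hA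
        rwa [al_ali] at this
      rw [hf1] at i1 i2 i3 i4
      rw [hval]
      refine ⟨?_, ?_, ?_, ?_⟩
      · intro h0
        have h1 : al z.1 ≤ 0 := by
          have := al_mono.monotone h0
          rwa [al0] at this
        rw [i1 h1, ali_al]
      · intro h1
        linarith
      · intro h0
        have h1 : 0 < al z.1 := by
          have := al_mono h0
          rwa [al0] at this
        have h2 := ali_mono (i3 h1)
        rwa [ali0] at h2
      · intro _
        have h1 : hk f k (f z) ≤ 1 := by
          rcases lt_or_ge (al z.1) 1 with h | h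
          · exact (i4 h).le
          · rw [i2 h]
            exact hle
        have h2 := ali_mono.monotone h1
        linarith
    · have hA' : ali 1 < z.1 := not_le.mp hA
      by_cases hB : z.1 ≤ ali (19/10)
      · have hval : hk f (k + 1) z =
            ali 1 + (ali (19/10) - ali 1) * min 1 (10 * ((f z).1 - 1)) := by
          show (if z.1 ≤ ali 1 then ali (hk f k (f z)) else if z.1 ≤ ali (19/10) then
            ali 1 + (ali (19/10) - ali 1) * min 1 (10 * ((f z).1 - 1)) else _) = _
          rw [if_neg hA, if_pos hB]
        have hy : |z.2| ≤ 1 := hd4 (by linarith) (by linarith)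
        have hh : 1 ≤ (f z).1 := (hf.hole z.1 z.2 hA'.le hB hy).1
        have hm0 : 0 ≤ min 1 (10 * ((f z).1 - 1)) := le_min (by norm_num) (by linarith)
        have hm1 : min 1 (10 * ((f z).1 - 1)) ≤ 1 := min_le_left _ _
        have hpos : 0 < ali (19/10) - ali 1 := by linarith
        have hv1 : ali 1 ≤ hk f (k + 1) z := by
          rw [hval]
          have := mul_nonneg hpos.le hm0
          linarith
        have hv2 : hk f (k + 1) z ≤ ali (19/10) := by
          rw [hval]
          have := mul_le_mul_of_nonneg_left hm1 hpos.le
          linarith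
        refine ⟨?_, ?_, ?_, ?_⟩
        · intro h
          linarith
        · intro h
          linarith
        · intro _
          linarith
        · intro _
          linarith
      · have hB' : ali (19/10) < z.1 := not_le.mp hB
        have hval : hk f (k + 1) z = ali (3 - hk f k (f z)) := by
          show (if z.1 ≤ ali 1 then ali (hk f k (f z)) else if z.1 ≤ ali (19/10) then
            ali 1 + (ali (19/10) - ali 1) * min 1 (10 * ((f z).1 - 1))
            else ali (3 - hk f k (f z))) = _
          rw [if_neg hA, if_neg hB]
        have hf1 : (f z).1 = 3 - al z.1 := by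
          rw [hzeq, hf.R z.1 z.2 hB'.le hd2 hd3]
        rw [hf1] at i1 i2 i3 i4
        have hgt : 19/10 < al z.1 := by
          have := al_mono hB'
          rwa [al_ali] at this
        rw [hval]
        refine ⟨?_, ?_, ?_, ?_⟩
        · intro h
          linarith
        · intro h1
          have h2 : 3 - al z.1 ≤ 0 := by
            have := al_mono.monotone h1
            rw [al1] at this
            linarith
          rw [i1 h2, sub_sub_cancel, ali_al]
        · intro _
          have h1 : hk f k (f z) < 11/10 := by
            rcases lt_or_ge (3 - al z.1) 1 with h | h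
            · linarith [i4 h]
            · rw [i2 h]
              linarith
          have h2 : 0 < 3 - hk f k (f z) := by linarith
          have h3 := ali_mono h2
          rwa [ali0] at h3
        · intro h1
          have h2 : 0 < 3 - al z.1 := by
            have := al_mono h1
            rw [al1] at this
            linarith
          have h3 : 3 - hk f k (f z) < 3 := by linarith [i3 h2]
          have h4 := ali_mono h3
          rwa [ali3] at h4

end TanChain
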