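import Pool.Agent.Helper469.Chain.Defs
import Pool.Agent.Helper469.Chain.P_al_ali
import Pool.Agent.Helper469.Chain.P_ali_mono
import Pool.Agent.Helper469.Chain.P_ali_smooth
import Pool.Agent.Helper469.Chain.P_al_vals
import Pool.Agent.Helper469.Chain.P_ali_vals
import Pool.Agent.Helper469.Chain.P_DD_inv
import Pool.Agent.Helper469.Chain.P_hk_bounds



namespace TanChain
open Set Filter Topology
open scoped ContDiff


theorem hk_cont_mem {z : Pl} (hz : z ∈ DD) (h0 : 0 < z.1) (h1 : z.1 < 1) : |z.2| ≤ 1 := by
  rcases hz with h | h | h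
  · linarith [h.2.1]
  · exact h.2.2
  · linarith [h.1]

theorem hk_cont (f : Pl ≃ₜ Pl) (hf : HS f) (k : ℕ) : ContinuousOn (hk f k) DD := by
  have hfc : Continuous f := f.continuous
  have hali : Continuous ali := ali_smooth.continuous
  obtain ⟨v1, v2, v3, v4⟩ := ali_vals
  have hmaps : MapsTo f DD DD := fun z hz => DD_inv f hf z hz
  induction k with
  | zero => exact continuous_fst.continuousOn
  | succ k ih =>
    have hkf : ContinuousOn (fun z => hk f k (f z)) DD := ih.comp hfc.continuousOn hmaps
    have hA : ContinuousOn (fun z => ali (hk f k (f z))) DD := hali.comp_continuousOn hkf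
    have hC : ContinuousOn (fun z => ali (3 - hk f k (f z))) DD :=
      hali.comp_continuousOn (continuousOn_const.sub hkf)
    have hB : ContinuousOn (fun z : Pl => ali 1 + (ali (19/10) - ali 1) *
        min 1 (10 * ((f z).1 - 1))) DD := by
      apply Continuous.continuousOn
      fun_prop
    have e : hk f (k + 1) = fun z => if z.1 ≤ ali 1 then ali (hk f k (f z))
      else if z.1 ≤ ali (19/10) then
        ali 1 + (ali (19/10) - ali 1) * min 1 (10 * ((f z).1 - 1))
      else ali (3 - hk f k (f z)) := rfl
    rw [e]
    refine ContinuousOn.if ?_ (hA.mono inter_subset_left) ?_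
    · rintro z ⟨hz, hfr⟩
      have hz1 : z.1 = ali 1 := frontier_le_subset_eq continuous_fst continuous_const hfr
      have hz2 := hk_cont_mem hz (by rw [hz1]; linarith) (by rw [hz1]; linarith)
      have hL := hf.L z.1 z.2 (by rw [hz1]; linarith) hz1.le (hz2.trans (by norm_num))
      have hfz : (f z).1 = 1 := by
        have : f z = (al z.1, z.2/10 - 9/10) := hL
        rw [this, hz1, al_ali]
      have hb := (hk_bounds f hf k (f z) (DD_inv f hf z hz)).2.1 hfz.ge
      rw [if_pos (by rw [hz1]; linarith), hb, hfz]
      norm_num
    · refine ContinuousOn.if ?_ (hB.mono ?_) (hC.mono ?_)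
      · rintro z ⟨⟨hz, _⟩, hfr⟩
        have hz1 : z.1 = ali (19/10) := frontier_le_subset_eq continuous_fst continuous_const hfr
        have hz2 := hk_cont_mem hz (by rw [hz1]; linarith) (by rw [hz1]; linarith)
        have hR := hf.R z.1 z.2 hz1.ge (by rw [hz1]; linarith) (hz2.trans (by norm_num))
        have hfz : (f z).1 = 11/10 := by
          have : f z = (3 - al z.1, 9/10 - z.2/10) := hR
          rw [this, hz1, al_ali]
          norm_num
        have hb := (hk_bounds f hf k (f z) (DD_inv f hf z hz)).2.1 (by rw [hfz]; norm_num)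
        rw [hb, hfz]
        norm_num
      · exact inter_subset_left.trans inter_subset_left
      · exact inter_subset_left.trans inter_subset_left

end TanChain
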