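import Pool.Agent.Helper469.Chain.Defs
import Pool.Agent.Helper469.Chain.P_al_ali
import Pool.Agent.Helper469.Chain.P_ali_al
import Pool.Agent.Helper469.Chain.P_al_mono
import Pool.Agent.Helper469.Chain.P_ali_mono
import Pool.Agent.Helper469.Chain.P_al_vals
import Pool.Agent.Helper469.Chain.P_ali_vals
import Pool.Agent.Helper469.Chain.P_DD_inv
import Pool.Agent.Helper469.Chain.P_hk_bounds



namespace TanChain
open Set Filter Topology
open scoped ContDiff


theorem hk_cases (f : Pl ≃ₜ Pl) (hf : HS f) (k : ℕ) (z : Pl) (hz : z ∈ DD) :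
    (hk f (k+1) z = ali (hk f k (f z)) ∧ (f z).2 = z.2/10 - 9/10 ∧ hk f k (f z) ≤ 1 ∧
      (hk f k (f z) = 1 → (f z).1 = 1)) ∨
    (hk f (k+1) z = ali 1 + (ali (19/10) - ali 1) * min 1 (10 * ((f z).1 - 1)) ∧ 1 ≤ (f z).1) ∨
    (hk f (k+1) z = ali (3 - hk f k (f z)) ∧ (f z).2 = 9/10 - z.2/10 ∧ hk f k (f z) < 11/10) := by
  obtain ⟨v1, v2, v3, v4⟩ := ali_vals
  have hfz := DD_inv f hf z hz
  obtain ⟨b1, b2, b3, b4⟩ := hk_bounds f hf k (f z) hfz
  rcases le_or_gt z.1 (ali 1) with h1 | h1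
  · left
    have hL : -15 ≤ z.1 ∧ |z.2| ≤ 5/2 := by
      rcases hz with ⟨c1, c2, c3⟩ | ⟨c1, c2, c3⟩ | ⟨c1, c2, c3⟩
      · exact ⟨c1, c3⟩
      · exact ⟨by linarith, by linarith⟩
      · exact ⟨by linarith, c3⟩
    have hfeq : f z = (al z.1, z.2/10 - 9/10) := hf.L z.1 z.2 hL.1 h1 hL.2
    have hf1 : (f z).1 ≤ 1 := by
      rw [hfeq]
      show al z.1 ≤ 1
      rw [← al_ali 1]
      exact al_mono.monotone h1
    refine ⟨?_, by rw [hfeq], ?_, ?_⟩
    · show (if z.1 ≤ ali 1 then _ else _) = _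
      rw [if_pos h1]
    · rcases lt_or_eq_of_le hf1 with h2 | h2
      · exact (b4 h2).le
      · rw [b2 h2.ge]; exact hf1
    · intro h2
      rcases lt_or_eq_of_le hf1 with h3 | h3
      · exact absurd h2 (b4 h3).ne
      · exact h3
  · right
    rcases le_or_gt z.1 (ali (19/10)) with h2 | h2
    · left
      have hH : |z.2| ≤ 1 := by
        rcases hz with ⟨c1, c2, c3⟩ | ⟨c1, c2, c3⟩ | ⟨c1, c2, c3⟩
        · linarith
        · exact c3
        · linarith
      refine ⟨?_, (hf.hole z.1 z.2 h1.le h2 hH).1⟩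
      show (if z.1 ≤ ali 1 then _ else if z.1 ≤ ali (19/10) then _ else _) = _
      rw [if_neg h1.not_ge, if_pos h2]
    · right
      have hR : z.1 ≤ 53/10 ∧ |z.2| ≤ 5/2 := by
        rcases hz with ⟨c1, c2, c3⟩ | ⟨c1, c2, c3⟩ | ⟨c1, c2, c3⟩
        · exact ⟨by linarith, by linarith⟩
        · exact ⟨by linarith, by linarith⟩
        · exact ⟨c2, c3⟩
      have hfeq : f z = (3 - al z.1, 9/10 - z.2/10) := hf.R z.1 z.2 h2.le hR.1 hR.2
      have hf1 : (f z).1 < 11/10 := by
        rw [hfeq]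
        show 3 - al z.1 < 11/10
        have := al_mono h2
        rw [al_ali] at this
        linarith
      refine ⟨?_, by rw [hfeq], ?_⟩
      · show (if z.1 ≤ ali 1 then _ else if z.1 ≤ ali (19/10) then _ else _) = _
        rw [if_neg h1.not_ge, if_neg h2.not_ge]
      · rcases le_or_gt 1 (f z).1 with h3 | h3
        · rw [b2 h3]; exact hf1
        · have := b4 h3
          linarith

theorem hk_step (f : Pl ≃ₜ Pl) (hf : HS f) (k : ℕ) (z z' : Pl) (hz : z ∈ DD) (hz' : z' ∈ DD)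
    (h : hk f (k+1) z = hk f (k+1) z') :
    Good (f z) (f z') ∨ (hk f k (f z) = hk f k (f z') ∧
      |(f z).2 - (f z').2| = |z.2 - z'.2| * (1/10)) := by
  obtain ⟨v1, v2, v3, v4⟩ := ali_vals
  have hlm : 0 < ali (19/10) - ali 1 := by linarith
  have hminle : ∀ w : Pl, min 1 (10 * (w.1 - 1)) ≤ 1 := fun w => min_le_left _ _
  have hminge : ∀ w : Pl, 1 ≤ w.1 → 0 ≤ min 1 (10 * (w.1 - 1)) := fun w hw =>
    le_min zero_le_one (by linarith)
  have habs1 : |(z.2/10 - 9/10) - (z'.2/10 - 9/10)| = |z.2 - z'.2| * (1/10) := by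
    rw [show (z.2/10 - 9/10) - (z'.2/10 - 9/10) = (z.2 - z'.2) * (1/10) by ring, abs_mul,
      abs_of_pos (by norm_num : (0:ℝ) < 1/10)]
  have habs2 : |(9/10 - z.2/10) - (9/10 - z'.2/10)| = |z.2 - z'.2| * (1/10) := by
    rw [show (9/10 - z.2/10) - (9/10 - z'.2/10) = -((z.2 - z'.2) * (1/10)) by ring, abs_neg,
      abs_mul, abs_of_pos (by norm_num : (0:ℝ) < 1/10)]
  -- values
  have hA : ∀ y : ℝ, y ≤ 1 → ali y ≤ ali 1 := fun y hy => ali_mono.monotone hy
  have hC : ∀ y : ℝ, y < 11/10 → ali (19/10) < ali (3 - y) := fun y hy => ali_mono (by linarith)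
  rcases hk_cases f hf k z hz with ⟨e1, e2, e3, e4⟩ | ⟨e1, e2⟩ | ⟨e1, e2, e3⟩ <;>
  rcases hk_cases f hf k z' hz' with ⟨g1, g2, g3, g4⟩ | ⟨g1, g2⟩ | ⟨g1, g2, g3⟩
  · right
    rw [e1, g1] at h
    refine ⟨ali_mono.injective h, ?_⟩
    rw [e2, g2]; exact habs1
  · left
    rw [e1, g1] at h
    have h1 := hA _ e3
    have h2 := mul_nonneg hlm.le (hminge _ g2)
    have h3 : (ali (19/10) - ali 1) * min 1 (10 * ((f z').1 - 1)) = 0 := by linarith
    have h4 : min 1 (10 * ((f z').1 - 1)) = 0 := by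
      rcases mul_eq_zero.1 h3 with h5 | h5
      · exact absurd h5 hlm.ne'
      · exact h5
    have h5 : (f z').1 = 1 := by
      rcases min_choice 1 (10 * ((f z').1 - 1)) with h6 | h6
      · rw [h6] at h4; norm_num at h4
      · rw [h6] at h4; linarith
    rw [h3, add_zero] at h
    have h6 := e4 (ali_mono.injective h)
    exact Or.inl ⟨by rw [h6, h5], Or.inr h6.ge⟩
  · exfalso
    rw [e1, g1] at h
    have h1 := hA _ e3
    have h2 := hC _ g3
    linarith
  · left
    rw [e1, g1] at h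
    have h1 := hA _ g3
    have h2 := mul_nonneg hlm.le (hminge _ e2)
    have h3 : (ali (19/10) - ali 1) * min 1 (10 * ((f z).1 - 1)) = 0 := by linarith
    have h4 : min 1 (10 * ((f z).1 - 1)) = 0 := by
      rcases mul_eq_zero.1 h3 with h5 | h5
      · exact absurd h5 hlm.ne'
      · exact h5
    have h5 : (f z).1 = 1 := by
      rcases min_choice 1 (10 * ((f z).1 - 1)) with h6 | h6
      · rw [h6] at h4; norm_num at h4
      · rw [h6] at h4; linarith
    rw [h3, add_zero] at h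
    have h6 := g4 (ali_mono.injective h.symm)
    exact Or.inl ⟨by rw [h6, h5], Or.inr h5.ge⟩
  · left
    rw [e1, g1] at h
    have h3 : min 1 (10 * ((f z).1 - 1)) = min 1 (10 * ((f z').1 - 1)) := by
      have : (ali (19/10) - ali 1) * min 1 (10 * ((f z).1 - 1)) =
        (ali (19/10) - ali 1) * min 1 (10 * ((f z').1 - 1)) := by linarith
      exact mul_left_cancel₀ hlm.ne' this
    rcases le_total 1 (10 * ((f z).1 - 1)) with h4 | h4
    · rw [min_eq_left h4] at h3
      have h5 : 1 ≤ 10 * ((f z').1 - 1) := h3.le.trans (min_le_right _ _)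
      exact Or.inr (Or.inr ⟨by linarith, by linarith⟩)
    · rw [min_eq_right h4] at h3
      rcases le_total 1 (10 * ((f z').1 - 1)) with h5 | h5
      · rw [min_eq_left h5] at h3
        exact Or.inr (Or.inr ⟨by linarith, by linarith⟩)
      · rw [min_eq_right h5] at h3
        exact Or.inl ⟨by linarith, Or.inr e2⟩
  · exfalso
    rw [e1, g1] at h
    have h1 := hC _ g3
    have h2 := mul_le_mul_of_nonneg_left (hminle (f z)) hlm.le
    linarith
  · exfalso
    rw [e1, g1] at h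
    have h1 := hA _ g3
    have h2 := hC _ e3
    linarith
  · exfalso
    rw [e1, g1] at h
    have h1 := hC _ e3
    have h2 := mul_le_mul_of_nonneg_left (hminle (f z')) hlm.le
    linarith
  · right
    rw [e1, g1] at h
    have := ali_mono.injective h
    refine ⟨by linarith, ?_⟩
    rw [e2, g2]; exact habs2

end TanChain
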