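import Pool.Agent.Helper469.Chain.Defs
import Pool.Agent.Helper469.Chain.P_DD_inv
import Pool.Agent.Helper469.Chain.P_hk_step



namespace TanChain
open Set Filter Topology
open scoped ContDiff


theorem hk_fiber (f : Pl ≃ₜ Pl) (hf : HS f) (k : ℕ) (z z' : Pl) (hz : z ∈ DD) (hz' : z' ∈ DD)
    (h : hk f k z = hk f k z') :
    (∃ j, 1 ≤ j ∧ j ≤ k ∧ Good (f^[j] z) (f^[j] z')) ∨
      ((f^[k] z).1 = (f^[k] z').1 ∧ |(f^[k] z).2 - (f^[k] z').2| = |z.2 - z'.2| * (1/10)^k) := by
  induction k generalizing z z' with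
  | zero =>
    right
    have h1 : z.1 = z'.1 := h
    refine ⟨by simpa using h1, by simp⟩
  | succ k ih =>
    rcases hk_step f hf k z z' hz hz' h with hg | ⟨h1, h2⟩
    · exact Or.inl ⟨1, le_refl 1, by omega, by simpa using hg⟩
    · rcases ih (f z) (f z') (DD_inv f hf z hz) (DD_inv f hf z' hz') h1 with ⟨j, hj1, hjk, hg⟩ | ⟨h3, h4⟩
      · refine Or.inl ⟨j + 1, by omega, by omega, ?_⟩
        rw [Function.iterate_succ_apply, Function.iterate_succ_apply]
        exact hg
      · right
        rw [Function.iterate_succ_apply, Function.iterate_succ_apply]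
        refine ⟨h3, ?_⟩
        rw [h4, h2]
        ring

end TanChain
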