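import Pool.Agent.Helper469.Chain.Defs
import Pool.Agent.Helper469.Chain.P_DD_compact
import Pool.Agent.Helper469.Chain.P_DD_inv
import Pool.Agent.Helper469.Chain.P_hk_cont
import Pool.Agent.Helper469.Chain.P_hk_fiber
import Pool.Agent.Helper469.Chain.P_good_contr



namespace TanChain
open Set Filter Topology
open scoped ContDiff


theorem eps_map_snd (w : Pl) (hw : w ∈ DD) : |w.2| ≤ 5/2 := by
  rcases hw with h | h | h
  · exact h.2.2
  · linarith [h.2.2]
  · exact h.2.2

theorem eps_map (f : Pl ≃ₜ Pl) (hf : HS f) (K : Set Pl) (hK : IsCompact K) (hKD : K ⊆ DD)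
    (hfK : f '' K = K) (ε : ℝ) (hε : 0 < ε) :
    ∃ g : Pl → ℝ, ContinuousOn g K ∧ ∀ z ∈ K, ∀ z' ∈ K, g z = g z' → dist z z' < ε := by
  obtain ⟨m, hm⟩ : ∃ m : ℕ, 40 * (3/5 : ℝ)^m < ε := by
    obtain ⟨m, hm⟩ := exists_pow_lt_of_lt_one (show (0:ℝ) < ε / 40 by positivity)
      (show (3/5 : ℝ) < 1 by norm_num)
    exact ⟨m, by linarith⟩
  have hfc : Continuous (f^[m] : Pl → Pl) := f.continuous.iterate m
  have huc := DD_compact.uniformContinuousOn_of_continuous hfc.continuousOn
  rw [Metric.uniformContinuousOn_iff] at huc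
  obtain ⟨η, hη, huc⟩ := huc ε hε
  obtain ⟨k, hkk⟩ : ∃ k : ℕ, 5 * (1/10 : ℝ)^k < η := by
    obtain ⟨k, hk⟩ := exists_pow_lt_of_lt_one (show (0:ℝ) < η / 5 by positivity)
      (show (1/10 : ℝ) < 1 by norm_num)
    exact ⟨k, by linarith⟩
  have hmaps : MapsTo (f.symm : Pl → Pl) K K := by
    intro z hz
    rw [← hfK] at hz
    obtain ⟨w, hw, rfl⟩ := hz
    rw [f.symm_apply_apply]
    exact hw
  have hmapsn : MapsTo (f.symm^[m + k] : Pl → Pl) K K := hmaps.iterate _
  have hDDn : ∀ j : ℕ, ∀ w ∈ DD, f^[j] w ∈ DD := by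
    intro j w hw
    have h1 : MapsTo (f : Pl → Pl) DD DD := fun z hz => DD_inv f hf z hz
    exact h1.iterate j hw
  refine ⟨fun z => hk f k (f.symm^[m + k] z), ?_, ?_⟩
  · refine (hk_cont f hf k).comp (f.symm.continuous.iterate _).continuousOn ?_
    intro z hz
    exact hKD (hmapsn hz)
  · intro z hz z' hz' hg
    have hw := hKD (hmapsn hz)
    have hw' := hKD (hmapsn hz')
    have hli : Function.LeftInverse (f : Pl → Pl) f.symm := fun z => f.apply_symm_apply z
    have ez : f^[m + k] (f.symm^[m + k] z) = z := (hli.iterate (m + k)) z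
    have ez' : f^[m + k] (f.symm^[m + k] z') = z' := (hli.iterate (m + k)) z'
    have hg' : hk f k (f.symm^[m + k] z) = hk f k (f.symm^[m + k] z') := hg
    clear hg
    generalize f.symm^[m + k] z = w at *
    generalize f.symm^[m + k] z' = w' at *
    rw [← ez, ← ez']
    rcases hk_fiber f hf k w w' hw hw' hg' with ⟨j, hj1, hjk, hgood⟩ | ⟨h1, h2⟩
    · have e1 : m + k = (m + k - j) + j := by omega
      rw [e1, Function.iterate_add_apply, Function.iterate_add_apply]
      refine lt_of_le_of_lt (good_contr f hf _ _ (hDDn j w hw) (hDDn j w' hw') hgood _) ?_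
      refine lt_of_le_of_lt ?_ hm
      refine mul_le_mul_of_nonneg_left ?_ (by norm_num)
      exact pow_le_pow_of_le_one (by norm_num) (by norm_num) (by omega)
    · rw [Function.iterate_add_apply, Function.iterate_add_apply]
      refine huc _ (hDDn k w hw) _ (hDDn k w' hw') ?_
      rw [Prod.dist_eq]
      refine max_lt ?_ ?_
      · rw [h1, dist_self]; exact hη
      · rw [Real.dist_eq, h2]
        refine lt_of_le_of_lt ?_ hkk
        refine mul_le_mul_of_nonneg_right ?_ (by positivity)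
        have a1 := abs_le.1 (eps_map_snd w hw)
        have a2 := abs_le.1 (eps_map_snd w' hw')
        rw [abs_le]
        constructor <;> linarith [a1.1, a1.2, a2.1, a2.2]

end TanChain
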