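import Pool.Agent.Helper469.Chain.Defs
import Pool.Agent.Helper469.Chain.P_eps_map
import Pool.Agent.Helper469.Chain.P_chain_of_maps
import Pool.Agent.Helper469.Chain.P_K_props



namespace TanChain
open Set Filter Topology
open scoped ContDiff


theorem K_chainable (f : Pl ≃ₜ Pl) (hf : HS f) : Chainable (closure (gam f '' Ioi 0)) := by
  obtain ⟨h1, h2, h3, h4⟩ := K_props f hf
  have : CompactSpace (closure (gam f '' Ioi 0)) := isCompact_iff_compactSpace.1 h1
  have : ConnectedSpace (closure (gam f '' Ioi 0)) := isConnected_iff_connectedSpace.1 h4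
  refine chain_of_maps (fun ε hε => ?_)
  obtain ⟨g, hg, hg2⟩ := eps_map f hf _ h1 h2 h3 ε hε
  refine ⟨(closure (gam f '' Ioi 0)).domRestrict g, continuousOn_iff_continuous_domRestrict.1 hg, ?_⟩
  intro x y hxy
  exact hg2 x x.2 y y.2 hxy

end TanChain
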