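import Pool.Agent.Helper469.Chain.Defs



namespace TanChain
open Set Filter Topology
open scoped ContDiff


theorem Tw_case (z : Pl) (h1 : 1 ≤ z.1) (h3 : z.2 ≤ -4/5) (h : (Tw z).1 < 1) :
    -z.2 ≤ (Tw z).2 ∧ -z.1 ≤ (Tw z).1 := by
  obtain ⟨X, Y⟩ := z
  simp only at h1 h3
  set θ := Th (X ^ 2 + Y ^ 2) with hθ
  have hT : Tw (X, Y) = (Real.cos θ * X - Real.sin θ * Y, Real.sin θ * X + Real.cos θ * Y) := rfl
  rw [hT] at h ⊢
  simp only at h ⊢
  have hθ0 : 0 ≤ θ := by
    rw [hθ]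
    unfold Th
    exact mul_nonneg Real.pi_pos.le (Real.smoothTransition.nonneg _)
  have hθπ : θ ≤ Real.pi := by
    rw [hθ]
    unfold Th
    have := Real.smoothTransition.le_one (X ^ 2 + Y ^ 2 - 3)
    nlinarith [Real.pi_pos]
  have hs : 0 ≤ Real.sin θ := Real.sin_nonneg_of_nonneg_of_le_pi hθ0 hθπ
  have hc : -1 ≤ Real.cos θ := Real.neg_one_le_cos θ
  have hc1 : Real.cos θ ≤ 1 := Real.cos_le_one θ
  have hcs := Real.sin_sq_add_cos_sq θ
  set s := Real.sin θ
  set c := Real.cos θ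
  obtain ⟨w, hw⟩ : ∃ w, w = -Y := ⟨_, rfl⟩
  have hY : Y = -w := by linarith
  have hw1 : 4 / 5 ≤ w := by linarith
  rw [hY] at h ⊢
  have hU : -X ≤ c * X - s * (-w) := by nlinarith
  refine ⟨?_, hU⟩
  by_contra hcon
  push Not at hcon
  have hcon' : s * X + c * -w < w := by linarith
  have hid : (c * X - s * (-w)) ^ 2 + (s * X + c * -w) ^ 2 = X ^ 2 + w ^ 2 := by
    have : (c * X - s * (-w)) ^ 2 + (s * X + c * -w) ^ 2 = (s ^ 2 + c ^ 2) * (X ^ 2 + w ^ 2) := by ring
    rw [this, hcs, one_mul]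
  have hU2 : (c * X - s * (-w)) ^ 2 ≤ X ^ 2 := by
    apply sq_le_sq'
    · exact hU
    · linarith
  have hV2 : w ^ 2 ≤ (s * X + c * -w) ^ 2 := by linarith
  have hV : s * X + c * -w ≤ -w := by
    by_contra hh
    push Not at hh
    have := sq_lt_sq' hh hcon'
    linarith
  have hsX : s * X ≤ (c - 1) * w := by linarith
  have h5 : (c - 1) * w ≤ 0 := by nlinarith
  have h6 : 0 ≤ s * X := by nlinarith
  have h7 : s * X = 0 := by linarith
  have h8 : s = 0 := by
    rcases mul_eq_zero.1 h7 with h | h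
    · exact h
    · linarith
  have h9 : c = 1 := by
    have h10 : (c - 1) * w = 0 := by linarith
    rcases mul_eq_zero.1 h10 with h | h
    · linarith
    · linarith
  rw [h8, h9] at h
  linarith
end TanChain
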