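import Pool.Agent.Helper469.Chain.Defs



namespace TanChain
open Set Filter Topology
open scoped ContDiff


theorem Tw_case_strict (z : Pl) (h1 : 1 < z.1) (h3 : z.2 ≤ -4/5) (h : (Tw z).1 = 1) :
    -z.2 ≤ (Tw z).2 := by
  have hθ0 : 0 ≤ Th (z.1^2 + z.2^2) := by
    unfold Th
    exact mul_nonneg Real.pi_pos.le (Real.smoothTransition.nonneg _)
  have hθ1 : Th (z.1^2 + z.2^2) ≤ Real.pi := by
    unfold Th
    have := Real.smoothTransition.le_one (z.1^2 + z.2^2 - 3)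
    have := Real.pi_pos
    nlinarith
  have hs : 0 ≤ Real.sin (Th (z.1^2 + z.2^2)) := Real.sin_nonneg_of_nonneg_of_le_pi hθ0 hθ1
  have hc : Real.cos (Th (z.1^2 + z.2^2)) ≤ 1 := Real.cos_le_one _
  have hsc := Real.sin_sq_add_cos_sq (Th (z.1^2 + z.2^2))
  have e1 : (Tw z).1 = Real.cos (Th (z.1^2 + z.2^2)) * z.1 - Real.sin (Th (z.1^2 + z.2^2)) * z.2 := rfl
  have e2 : (Tw z).2 = Real.sin (Th (z.1^2 + z.2^2)) * z.1 + Real.cos (Th (z.1^2 + z.2^2)) * z.2 := rfl
  rw [e1] at h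
  rw [e2]
  generalize Real.sin (Th (z.1^2 + z.2^2)) = s at *
  generalize Real.cos (Th (z.1^2 + z.2^2)) = c at *
  generalize z.1 = X at *
  generalize z.2 = y at *
  by_contra hV
  push Not at hV
  have hsq : (s * X + c * y)^2 = X^2 + y^2 - 1 := by
    have h5 : (c * X - s * y)^2 + (s * X + c * y)^2 = (s^2 + c^2) * (X^2 + y^2) := by ring
    rw [h, hsc] at h5
    linarith
  have hV2 : y^2 < (s * X + c * y)^2 := by rw [hsq]; nlinarith
  have hneg : s * X + c * y < y := by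
    by_contra h6
    push Not at h6
    nlinarith
  nlinarith [mul_nonneg hs (by linarith : (0:ℝ) ≤ X), mul_nonneg (by linarith : (0:ℝ) ≤ 1 - c) (by linarith : (0:ℝ) ≤ -y)]

end TanChain
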