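import Pool.Agent.Helper469.Chain.Defs



namespace TanChain
open Set Filter Topology
open scoped ContDiff


theorem Tw_inj_norm (t : ℝ) (z : Pl) :
    (rotm t z).1 ^ 2 + (rotm t z).2 ^ 2 = z.1 ^ 2 + z.2 ^ 2 := by
  have h := Real.sin_sq_add_cos_sq t
  simp only [rotm]
  linear_combination (z.1 ^ 2 + z.2 ^ 2) * h

theorem Tw_inj_rot (t : ℝ) (z : Pl) : rotm (-t) (rotm t z) = z := by
  have h := Real.sin_sq_add_cos_sq t
  simp only [rotm, Real.cos_neg, Real.sin_neg]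
  refine Prod.ext ?_ ?_
  · show _ = z.1
    linear_combination z.1 * h
  · show _ = z.2
    linear_combination z.2 * h

theorem Tw_inj : Function.Injective Tw := by
  intro z w h
  have hz : (Tw z).1 ^ 2 + (Tw z).2 ^ 2 = z.1 ^ 2 + z.2 ^ 2 := Tw_inj_norm _ z
  have hw : (Tw w).1 ^ 2 + (Tw w).2 ^ 2 = w.1 ^ 2 + w.2 ^ 2 := Tw_inj_norm _ w
  have hzw : z.1 ^ 2 + z.2 ^ 2 = w.1 ^ 2 + w.2 ^ 2 := by rw [← hz, ← hw, h]
  have h1 := Tw_inj_rot (Th (z.1 ^ 2 + z.2 ^ 2)) z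
  have h2 := Tw_inj_rot (Th (w.1 ^ 2 + w.2 ^ 2)) w
  have h3 : rotm (Th (z.1 ^ 2 + z.2 ^ 2)) z = rotm (Th (w.1 ^ 2 + w.2 ^ 2)) w := h
  rw [← h1, h3, hzw, h2]

end TanChain
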