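import Pool.Agent.Helper469.Chain.Defs



namespace TanChain
open Set Filter Topology
open scoped ContDiff


theorem Tw_norm (z : Pl) : (Tw z).1^2 + (Tw z).2^2 = z.1^2 + z.2^2 := by
  simp only [Tw, rotm]
  have h := Real.sin_sq_add_cos_sq (Th (z.1^2 + z.2^2))
  linear_combination (z.1^2 + z.2^2) * h

end TanChain
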