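import Pool.Agent.Helper469.Chain.Defs



namespace TanChain
open Set Filter Topology
open scoped ContDiff


theorem Tw_smooth : ContDiff ℝ ∞ Tw := by
  have hr : ContDiff ℝ ∞ (fun z : Pl => Th (z.1^2 + z.2^2)) := by
    unfold Th
    refine contDiff_const.mul ?_
    refine Real.smoothTransition.contDiff.comp ?_
    exact ((contDiff_fst.pow 2).add (contDiff_snd.pow 2)).sub contDiff_const
  have hc : ContDiff ℝ ∞ (fun z : Pl => Real.cos (Th (z.1^2 + z.2^2))) :=
    Real.contDiff_cos.comp hr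
  have hs : ContDiff ℝ ∞ (fun z : Pl => Real.sin (Th (z.1^2 + z.2^2))) :=
    Real.contDiff_sin.comp hr
  have h : Tw = fun z : Pl => (Real.cos (Th (z.1^2 + z.2^2)) * z.1 - Real.sin (Th (z.1^2 + z.2^2)) * z.2,
    Real.sin (Th (z.1^2 + z.2^2)) * z.1 + Real.cos (Th (z.1^2 + z.2^2)) * z.2) := by
    funext z
    rfl
  rw [h]
  exact ((hc.mul contDiff_fst).sub (hs.mul contDiff_snd)).prodMk
    ((hs.mul contDiff_fst).add (hc.mul contDiff_snd))

end TanChain
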