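import Pool.Agent.Helper469.Chain.Defs



namespace TanChain
open Set Filter Topology
open scoped ContDiff


theorem al_deriv : HasDerivAt al (42/25) 0 := by
  have h1 : HasDerivAt (fun x : ℝ => x ^ 2 + 81/1600) (((2:ℕ):ℝ) * 0 ^ (2 - 1)) 0 := 
    (hasDerivAt_pow 2 (0:ℝ)).add_const (81/1600 : ℝ)
  have h2 : HasDerivAt (fun x : ℝ => Real.sqrt (x ^ 2 + 81/1600)) 0 0 := by
    have := h1.sqrt (by norm_num)
    simpa using this
  have h3 := ((hasDerivAt_id (0:ℝ)).const_mul (42/25 : ℝ)).add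
    ((h2.sub_const (9/40 : ℝ)).const_mul (33/20 : ℝ))
  have h4 : HasDerivAt al (42/25 * 1 + 33/20 * 0) 0 := h3
  simpa using h4

end TanChain
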