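import Pool.Agent.Helper469.Chain.Defs



namespace TanChain
open Set Filter Topology
open scoped ContDiff


theorem ali_deriv_pos (x : ℝ) : 0 < deriv ali x := by
  have h1 : HasDerivAt (fun y : ℝ => y + 297/800) 1 x := (hasDerivAt_id x).add_const _
  have h2 : HasDerivAt (fun y : ℝ => (y + 297/800)^2 + 999/10000 * (81/1600))
      (2 * (x + 297/800)) x := by
    have := (h1.pow 2).add_const (999/10000 * (81/1600) : ℝ)
    refine this.congr_deriv ?_
    norm_num
  have hpos : 0 < (x + 297/800)^2 + 999/10000 * (81/1600) := by positivity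
  have h3 := h2.sqrt hpos.ne'
  have h4 : HasDerivAt ali ((42/25 * 1 - 33/20 * (2 * (x + 297/800) /
      (2 * Real.sqrt ((x + 297/800)^2 + 999/10000 * (81/1600))))) / (999/10000)) x :=
    ((h1.const_mul (42/25)).sub (h3.const_mul (33/20))).div_const _
  rw [h4.deriv]
  have hs : 0 < Real.sqrt ((x + 297/800)^2 + 999/10000 * (81/1600)) := Real.sqrt_pos.mpr hpos
  have h5 : x + 297/800 ≤ Real.sqrt ((x + 297/800)^2 + 999/10000 * (81/1600)) :=
    Real.le_sqrt_of_sq_le (by norm_num)
  have h6 : 2 * (x + 297/800) /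
      (2 * Real.sqrt ((x + 297/800)^2 + 999/10000 * (81/1600))) ≤ 1 := by
    rw [div_le_one (by positivity)]
    linarith
  apply div_pos _ (by norm_num)
  linarith

end TanChain
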