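import Pool.Agent.Helper469.Chain.Defs
import Pool.Agent.Helper469.Chain.P_Tw_case
import Pool.Agent.Helper469.Chain.P_Tw_case_strict



namespace TanChain
open Set Filter Topology
open scoped ContDiff


theorem base_gt (z : Pl) (h1 : 1 ≤ z.1) (h2 : z.1 ≤ 19/10) (h3 : z.2 ≤ -4/5) :
    1 ≤ (Tw z).1 + tau0 (Tw z).2 ∧ (1 < z.1 → 1 < (Tw z).1 + tau0 (Tw z).2) := by
  have t0 : ∀ v : ℝ, 0 ≤ tau0 v := fun v => by
    unfold tau0
    have := Real.smoothTransition.nonneg (10 * (v - 1/2))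
    linarith
  have t3 : ∀ v : ℝ, 4 / 5 ≤ v → tau0 v = 3 := fun v hv => by
    unfold tau0
    rw [Real.smoothTransition.one_of_one_le (by linarith)]
    norm_num
  rcases lt_trichotomy (Tw z).1 1 with h | h | h
  · obtain ⟨h4, h5⟩ := Tw_case z h1 h3 h
    have h6 := t3 (Tw z).2 (by linarith)
    rw [h6]
    exact ⟨by linarith, fun _ => by linarith⟩
  · have h4 := t0 (Tw z).2
    refine ⟨by linarith, fun h5 => ?_⟩
    have h6 := Tw_case_strict z h5 h3 h
    have h7 := t3 (Tw z).2 (by linarith)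
    rw [h7]
    linarith
  · have h4 := t0 (Tw z).2
    exact ⟨by linarith, fun _ => by linarith⟩

end TanChain
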