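import Pool.Agent.Helper469.Chain.Defs
import Pool.Agent.Helper469.Chain.P_al_ali
import Pool.Agent.Helper469.Chain.P_ali_al
import Pool.Agent.Helper469.Chain.P_al_smooth
import Pool.Agent.Helper469.Chain.P_ali_smooth



namespace TanChain
open Set Filter Topology
open scoped ContDiff


theorem exists_F_Th : ContDiff ℝ ∞ Th := by
  unfold Th
  exact contDiff_const.mul (Real.smoothTransition.contDiff.comp (contDiff_id.sub contDiff_const))

theorem exists_F_rot (g : Pl → ℝ) (hg : ContDiff ℝ ∞ g) :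
    ContDiff ℝ ∞ (fun z : Pl => rotm (g z) z) := by
  unfold rotm
  exact ContDiff.prodMk ((hg.cos.mul contDiff_fst).sub (hg.sin.mul contDiff_snd))
    ((hg.sin.mul contDiff_fst).add (hg.cos.mul contDiff_snd))

/-- inverse of the twist -/
noncomputable def exists_F_Twi (z : Pl) : Pl := rotm (-(Th (z.1^2 + z.2^2))) z

theorem exists_F_norm (t : ℝ) (z : Pl) : (rotm t z).1 ^ 2 + (rotm t z).2 ^ 2 = z.1 ^ 2 + z.2 ^ 2 := by
  unfold rotm
  have h := Real.sin_sq_add_cos_sq t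
  simp only
  linear_combination (z.1 ^ 2 + z.2 ^ 2) * h

theorem exists_F_inv (t : ℝ) (z : Pl) : rotm (-t) (rotm t z) = z := by
  have h := Real.sin_sq_add_cos_sq t
  unfold rotm
  rw [Real.cos_neg, Real.sin_neg]
  refine Prod.ext ?_ ?_
  · simp only
    linear_combination z.1 * h
  · simp only
    linear_combination z.2 * h

theorem exists_F_li (z : Pl) : exists_F_Twi (Tw z) = z := by
  unfold exists_F_Twi Tw
  rw [exists_F_norm, exists_F_inv]

theorem exists_F_ri (z : Pl) : Tw (exists_F_Twi z) = z := by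
  unfold exists_F_Twi Tw
  rw [exists_F_norm]
  have := exists_F_inv (-(Th (z.1 ^ 2 + z.2 ^ 2))) z
  rwa [neg_neg] at this

theorem exists_F_Tw : ContDiff ℝ ∞ Tw :=
  exists_F_rot _ (exists_F_Th.comp ((contDiff_fst.pow 2).add (contDiff_snd.pow 2)))

theorem exists_F_Twis : ContDiff ℝ ∞ exists_F_Twi :=
  exists_F_rot _ (exists_F_Th.comp ((contDiff_fst.pow 2).add (contDiff_snd.pow 2))).neg

/-- the inverse of `F` -/
noncomputable def exists_F_Fi (τ : ℝ → ℝ) (z : Pl) : Pl :=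
  (ali (exists_F_Twi (z.1 - τ z.2, z.2)).1, 10 * (exists_F_Twi (z.1 - τ z.2, z.2)).2 + 9)

theorem exists_F_Fs (τ : ℝ → ℝ) (hτ : ContDiff ℝ ∞ τ) : ContDiff ℝ ∞ (F τ) := by
  have hA : ContDiff ℝ ∞ (fun z : Pl => ((al z.1, z.2/10 - 9/10) : Pl)) :=
    ContDiff.prodMk (al_smooth.comp contDiff_fst) ((contDiff_snd.div_const _).sub contDiff_const)
  have hT : ContDiff ℝ ∞ (fun z : Pl => Tw (al z.1, z.2/10 - 9/10)) := exists_F_Tw.comp hA
  have h2 : ContDiff ℝ ∞ (fun z : Pl => (Tw (al z.1, z.2/10 - 9/10)).2) := contDiff_snd.comp hT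
  have h1 : ContDiff ℝ ∞ (fun z : Pl => (Tw (al z.1, z.2/10 - 9/10)).1) := contDiff_fst.comp hT
  exact ContDiff.prodMk (h1.add (hτ.comp h2)) h2

theorem exists_F_Fis (τ : ℝ → ℝ) (hτ : ContDiff ℝ ∞ τ) : ContDiff ℝ ∞ (exists_F_Fi τ) := by
  have hA : ContDiff ℝ ∞ (fun z : Pl => ((z.1 - τ z.2, z.2) : Pl)) :=
    ContDiff.prodMk (contDiff_fst.sub (hτ.comp contDiff_snd)) contDiff_snd
  have hT : ContDiff ℝ ∞ (fun z : Pl => exists_F_Twi (z.1 - τ z.2, z.2)) := exists_F_Twis.comp hA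
  have h2 : ContDiff ℝ ∞ (fun z : Pl => (exists_F_Twi (z.1 - τ z.2, z.2)).2) :=
    contDiff_snd.comp hT
  have h1 : ContDiff ℝ ∞ (fun z : Pl => (exists_F_Twi (z.1 - τ z.2, z.2)).1) :=
    contDiff_fst.comp hT
  exact ContDiff.prodMk (ali_smooth.comp h1) ((contDiff_const.mul h2).add contDiff_const)

theorem exists_F (τ : ℝ → ℝ) (hτ : ContDiff ℝ ∞ τ) : ∃ f : Pl ≃ₜ Pl, (∀ z, f z = F τ z) ∧
    ContDiff ℝ ∞ f ∧ ContDiff ℝ ∞ f.symm := by
  refine ⟨{ toFun := F τ
            invFun := exists_F_Fi τ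
            left_inv := ?_
            right_inv := ?_
            continuous_toFun := (exists_F_Fs τ hτ).continuous
            continuous_invFun := (exists_F_Fis τ hτ).continuous }, fun z => rfl,
    exists_F_Fs τ hτ, exists_F_Fis τ hτ⟩
  · intro z
    unfold exists_F_Fi F
    have h1 : (((Tw (al z.1, z.2/10 - 9/10)).1 + τ (Tw (al z.1, z.2/10 - 9/10)).2 -
        τ (Tw (al z.1, z.2/10 - 9/10)).2, (Tw (al z.1, z.2/10 - 9/10)).2) : Pl) =
        Tw (al z.1, z.2/10 - 9/10) := by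
      rw [add_sub_cancel_right]
    simp only
    rw [h1, exists_F_li, ali_al]
    refine Prod.ext rfl ?_
    show 10 * (z.2 / 10 - 9 / 10) + 9 = z.2
    ring
  · intro z
    unfold F exists_F_Fi
    simp only
    have h2 : ∀ w : Pl, ((al (ali w.1), (10 * w.2 + 9) / 10 - 9 / 10) : Pl) = w := by
      intro w
      refine Prod.ext (al_ali _) ?_
      show (10 * w.2 + 9) / 10 - 9 / 10 = w.2
      ring
    rw [h2, exists_F_ri]
    refine Prod.ext ?_ rfl
    show z.1 - τ z.2 + τ z.2 = z.1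
    ring

end TanChain
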