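import Pool.Agent.Helper469.Chain.Defs
import Pool.Agent.Helper469.Chain.P_Tw_norm
import Pool.Agent.Helper469.Chain.P_Tw_case



namespace TanChain
open Set Filter Topology
open scoped ContDiff


theorem mid_gt (z : Pl) (h1 : 1 ≤ z.1) (h3 : z.2 ≤ -4/5) (h : |(Tw z).2| ≤ 1/2) :
    1 < (Tw z).1 := by
  by_contra hcon
  push Not at hcon
  obtain ⟨ha, hb⟩ := abs_le.mp h
  rcases lt_or_eq_of_le hcon with hlt | heq
  · have := (Tw_case z h1 h3 hlt).1
    linarith
  · have h4 := Tw_norm z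
    rw [heq] at h4
    have h5 : (Tw z).2 ^ 2 ≤ 1 / 4 := by nlinarith
    have h6 : 16 / 25 ≤ z.2 ^ 2 := by nlinarith
    have h7 : 1 ≤ z.1 ^ 2 := by nlinarith
    linarith

end TanChain
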