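import Pool.Agent.Helper469.Chain.Defs
import Pool.Agent.Helper469.Chain.P_Tw_smooth
import Pool.Agent.Helper469.Chain.P_Tw_id
import Pool.Agent.Helper469.Chain.P_Tw_neg
import Pool.Agent.Helper469.Chain.P_mid_gt



namespace TanChain
open Set Filter Topology
open scoped ContDiff


theorem bet_cont' : Continuous bet := by
  unfold bet
  exact Real.smoothTransition.continuous.comp (by fun_prop)

theorem exists_min : ∃ d X0 Y0 : ℝ, 0 < d ∧ 1 < X0 ∧ X0 < 19/10 ∧ -1 ≤ Y0 ∧ Y0 ≤ -4/5 ∧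
    |(Tw (X0, Y0)).2| < 1/2 ∧ (Tw (X0, Y0)).1 = 1 + d * bet (Tw (X0, Y0)).2 ∧
    ∀ X Y : ℝ, 1 ≤ X → X ≤ 19/10 → -1 ≤ Y → Y ≤ -4/5 → |(Tw (X, Y)).2| < 1/2 →
      1 + d * bet (Tw (X, Y)).2 ≤ (Tw (X, Y)).1 := by
  have hT : Continuous Tw := Tw_smooth.continuous
  have hT1 : Continuous fun z => (Tw z).1 := continuous_fst.comp hT
  have hT2 : Continuous fun z => (Tw z).2 := continuous_snd.comp hT
  set C : Set Pl := (Icc (1:ℝ) (19/10) ×ˢ Icc (-1:ℝ) (-4/5)) ∩ {z | |(Tw z).2| ≤ 1/2} with hCdef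
  have hC : IsCompact C := (isCompact_Icc.prod isCompact_Icc).inter_right
    (isClosed_le hT2.abs continuous_const)
  have hpos : ∀ z ∈ C, 0 < (Tw z).1 - 1 := by
    intro z hz
    have := mid_gt z hz.1.1.1 hz.1.2.2 hz.2
    linarith
  -- a point with vanishing second coordinate
  obtain ⟨X1, hX1, hX1'⟩ : ∃ X ∈ Icc (1:ℝ) (19/10), (Tw (X, -1)).2 = 0 := by
    have hg : Continuous fun X : ℝ => (Tw (X, -1)).2 := hT2.comp (by fun_prop)
    have h1 : (Tw ((1:ℝ), (-1:ℝ))).2 = -1 := by rw [Tw_id _ (by norm_num)]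
    have h2 : (Tw ((19/10:ℝ), (-1:ℝ))).2 = 1 := by rw [Tw_neg _ (by norm_num)]; norm_num
    have hiv := intermediate_value_Icc (show (1:ℝ) ≤ 19/10 by norm_num) hg.continuousOn
    have h0 : (0:ℝ) ∈ Icc ((Tw ((1:ℝ), (-1:ℝ))).2) ((Tw ((19/10:ℝ), (-1:ℝ))).2) := by
      rw [h1, h2]; constructor <;> norm_num
    obtain ⟨X, hX, hX'⟩ := hiv h0
    exact ⟨X, hX, hX'⟩
  have hz1 : ((X1, -1) : Pl) ∈ C := by
    refine ⟨⟨hX1, ?_⟩, ?_⟩
    · constructor <;> norm_num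
    · show |(Tw (X1, -1)).2| ≤ 1/2
      rw [hX1']; norm_num
  have hcont : ContinuousOn (fun z : Pl => bet (Tw z).2 / ((Tw z).1 - 1)) C := by
    refine ContinuousOn.div (bet_cont'.comp hT2).continuousOn
      (hT1.sub continuous_const).continuousOn ?_
    intro z hz
    exact (hpos z hz).ne'
  obtain ⟨z0, hz0, hmax⟩ := hC.exists_isMaxOn ⟨_, hz1⟩ hcont
  have hmax' : ∀ z ∈ C, bet (Tw z).2 / ((Tw z).1 - 1) ≤ bet (Tw z0).2 / ((Tw z0).1 - 1) :=
    fun z hz => hmax hz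
  set M : ℝ := bet (Tw z0).2 / ((Tw z0).1 - 1) with hM
  have hMpos : 0 < M := by
    have h1 := hmax' _ hz1
    rw [hX1'] at h1
    have h2 : bet 0 = 1 := by
      unfold bet
      norm_num
    rw [h2] at h1
    exact lt_of_lt_of_le (div_pos one_pos (hpos _ hz1)) h1
  have hU0 := hpos z0 hz0
  have hb0 : 0 < bet (Tw z0).2 := by
    have : bet (Tw z0).2 = M * ((Tw z0).1 - 1) := by
      rw [hM]; field_simp
    rw [this]; positivity
  have hV0 : |(Tw z0).2| < 1/2 := by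
    by_contra hcon
    push Not at hcon
    have h4 : 1 - 4 * (Tw z0).2 ^ 2 ≤ 0 := by
      have := sq_abs (Tw z0).2
      nlinarith [abs_nonneg (Tw z0).2]
    have : bet (Tw z0).2 = 0 := by
      unfold bet
      exact Real.smoothTransition.zero_of_nonpos h4
    linarith
  obtain ⟨X0, Y0⟩ := z0
  have hX := hz0.1.1
  have hY := hz0.1.2
  simp only at hX hY
  refine ⟨1 / M, X0, Y0, by positivity, ?_, ?_, hY.1, hY.2, hV0, ?_, ?_⟩
  · refine lt_of_le_of_ne hX.1 ?_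
    intro h
    rw [← h] at hV0
    have hh : (Tw ((1:ℝ), Y0)) = (1, Y0) := Tw_id _ (by
      have h1 := hY.1
      have h2 := hY.2
      show (1:ℝ)^2 + Y0^2 ≤ 3
      nlinarith)
    rw [hh] at hV0
    have h3 := (abs_lt.1 hV0).1
    have h4 := hY.2
    simp only at h3
    linarith
  · refine lt_of_le_of_ne hX.2 ?_
    intro h
    rw [h] at hV0
    have hh : (Tw ((19/10:ℝ), Y0)) = (-(19/10), -Y0) := Tw_neg _ (by
      have h1 := hY.1
      have h2 := hY.2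
      show 4 ≤ (19/10:ℝ)^2 + Y0^2
      nlinarith)
    rw [hh] at hV0
    have h3 := (abs_lt.1 hV0).2
    have h4 := hY.2
    simp only at h3
    linarith
  · have : bet (Tw (X0, Y0)).2 = M * ((Tw (X0, Y0)).1 - 1) := by
      rw [hM]; field_simp
    rw [this]
    field_simp
    ring
  · intro X Y h1 h2 h3 h4 h5
    have hz : ((X, Y) : Pl) ∈ C := ⟨⟨⟨h1, h2⟩, ⟨h3, h4⟩⟩, h5.le⟩
    have h6 := hmax' _ hz
    have h7 := hpos _ hz
    rw [div_le_iff₀ h7] at h6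
    have h8 : 1 / M * bet (Tw (X, Y)).2 ≤ (Tw (X, Y)).1 - 1 := by
      rw [one_div, inv_mul_le_iff₀ hMpos]
      exact h6
    linarith

end TanChain
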