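import Pool.Agent.Helper469.Chain.Defs



namespace TanChain
open Set Filter Topology
open scoped ContDiff


theorem min_boundary (f : Pl ≃ₜ Pl) (l r : ℝ)
    (hf : ∀ x y : ℝ, l ≤ x → x ≤ r → |y| ≤ 1 → 1 ≤ (f (x, y)).1)
    (x y : ℝ) (h1 : l < x) (h2 : x < r) (h3 : |y| ≤ 1) (h4 : (f (x, y)).1 = 1) :
    y = 1 ∨ y = -1 := by
  by_contra hcon
  rw [not_or] at hcon
  obtain ⟨ha, hb⟩ := hcon
  have h5 := abs_le.1 h3
  have h6 : y < 1 := lt_of_le_of_ne h5.2 ha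
  have h7 : -1 < y := lt_of_le_of_ne h5.1 (Ne.symm hb)
  have hO : IsOpen ((Ioo l r ×ˢ Ioo (-1 : ℝ) 1 : Set Pl)) := isOpen_Ioo.prod isOpen_Ioo
  have hfO := f.isOpenMap _ hO
  have hmem : f (x, y) ∈ f '' (Ioo l r ×ˢ Ioo (-1 : ℝ) 1 : Set Pl) :=
    ⟨(x, y), ⟨⟨h1, h2⟩, ⟨h7, h6⟩⟩, rfl⟩
  obtain ⟨ε, hε, hball⟩ := Metric.isOpen_iff.1 hfO _ hmem
  have hq : ((f (x, y)).1 - ε / 2, (f (x, y)).2) ∈ Metric.ball (f (x, y)) ε := by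
    rw [Metric.mem_ball, Prod.dist_eq]
    simp only [dist_self]
    rw [Real.dist_eq]
    have : (f (x, y)).1 - ε / 2 - (f (x, y)).1 = -(ε / 2) := by ring
    rw [this, abs_neg, abs_of_pos (by linarith)]
    rw [max_lt_iff]
    constructor <;> linarith
  obtain ⟨⟨x', y'⟩, ⟨⟨hx1, hx2⟩, ⟨hy1, hy2⟩⟩, hz⟩ := hball hq
  have h8 := hf x' y' hx1.le hx2.le (abs_le.2 ⟨hy1.le, hy2.le⟩)
  rw [hz, h4] at h8
  simp only at h8
  linarith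

end TanChain
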