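import Pool.Agent.Helper469.Chain.Defs



namespace TanChain
open Set Filter Topology
open scoped ContDiff


theorem tau_props_bet_zero (v : ℝ) (h : 1/2 ≤ |v|) : bet v = 0 := by
  unfold bet
  apply Real.smoothTransition.zero_of_nonpos
  have : (1/2)^2 ≤ |v|^2 := by gcongr
  rw [sq_abs] at this
  linarith

theorem tau_props_bet_pos (v : ℝ) (h : |v| < 1/2) : 0 < bet v := by
  unfold bet
  apply Real.smoothTransition.pos_of_pos
  have : |v|^2 < (1/2)^2 := by
    have := abs_nonneg v
    gcongr
  rw [sq_abs] at this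
  linarith

theorem tau_props_tau0_zero (v : ℝ) (h : v ≤ 1/2) : tau0 v = 0 := by
  unfold tau0
  rw [Real.smoothTransition.zero_of_nonpos (by linarith)]
  ring

theorem tau_props (d V0 : ℝ) (hd : 0 < d) (hV : |V0| < 1/2) :
    ∃ τ : ℝ → ℝ, ContDiff ℝ ∞ τ ∧ (∀ v, v ≤ -1/2 → τ v = 0) ∧ (∀ v, 6/10 ≤ v → τ v = 3) ∧
      (∀ v, τ v ≤ 3) ∧ (∀ v, 1/2 ≤ |v| → τ v = tau0 v) ∧ τ V0 = - d * bet V0 ∧
      (∀ v, |v| < 1/2 → v ≠ V0 → - d * bet v < τ v) := by
  refine ⟨fun v => tau0 v - d * bet v * (1 - (v - V0)^2/4), ?_, ?_, ?_, ?_, ?_, ?_, ?_⟩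
  · have h1 : ContDiff ℝ ∞ tau0 := by
      unfold tau0
      exact contDiff_const.mul (Real.smoothTransition.contDiff.comp (by fun_prop))
    have h2 : ContDiff ℝ ∞ bet := by
      unfold bet
      exact Real.smoothTransition.contDiff.comp (by fun_prop)
    have h3 : ContDiff ℝ ∞ (fun v : ℝ => (1 - (v - V0)^2/4)) := by fun_prop
    exact h1.sub ((contDiff_const.mul h2).mul h3)
  · intro v hv
    have hb : bet v = 0 := by
      apply tau_props_bet_zero
      rw [abs_of_nonpos (by linarith)]
      linarith
    simp only []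
    rw [hb, tau_props_tau0_zero v (by linarith)]
    ring
  · intro v hv
    have hb : bet v = 0 := by
      apply tau_props_bet_zero
      rw [abs_of_nonneg (by linarith)]
      linarith
    simp only []
    rw [hb]
    unfold tau0
    rw [Real.smoothTransition.one_of_one_le (by linarith)]
    ring
  · intro v
    have h1 : tau0 v ≤ 3 := by
      unfold tau0
      have := Real.smoothTransition.le_one (10 * (v - 1/2))
      linarith
    have h2 : 0 ≤ d * bet v * (1 - (v - V0)^2/4) := by
      rcases lt_or_ge |v| (1/2) with h | h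
      · have hb := tau_props_bet_pos v h
        have : 0 ≤ 1 - (v - V0)^2/4 := by
          rw [abs_lt] at h hV
          nlinarith [h.1, h.2, hV.1, hV.2]
        positivity
      · rw [tau_props_bet_zero v h]
        simp
    simp only []
    linarith
  · intro v hv
    simp only []
    rw [tau_props_bet_zero v hv]
    ring
  · simp only []
    rw [tau_props_tau0_zero V0 (by rw [abs_lt] at hV; linarith [hV.2])]
    ring
  · intro v hv hne
    simp only []
    rw [tau_props_tau0_zero v (by rw [abs_lt] at hv; linarith [hv.2])]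
    have hb := tau_props_bet_pos v hv
    have h1 : 0 < (v - V0)^2 := by
      have : v - V0 ≠ 0 := sub_ne_zero.mpr hne
      positivity
    have h2 : 0 < d * bet v * ((v - V0)^2/4) := by positivity
    nlinarith

end TanChain
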