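import Pool.Agent.Helper469.Chain.Defs
import Pool.Agent.Helper469.Chain.P_al_ali
import Pool.Agent.Helper469.Chain.P_ali_al
import Pool.Agent.Helper469.Chain.P_al_mono
import Pool.Agent.Helper469.Chain.P_ali_mono
import Pool.Agent.Helper469.Chain.P_Tw_inj
import Pool.Agent.Helper469.Chain.P_exists_F
import Pool.Agent.Helper469.Chain.P_base_gt
import Pool.Agent.Helper469.Chain.P_exists_min
import Pool.Agent.Helper469.Chain.P_tau_props
import Pool.Agent.Helper469.Chain.P_hole_bounds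
import Pool.Agent.Helper469.Chain.P_F_L
import Pool.Agent.Helper469.Chain.P_F_R
import Pool.Agent.Helper469.Chain.P_min_boundary



namespace TanChain
open Set Filter Topology
open scoped ContDiff


theorem exists_HS : ∃ f : Pl ≃ₜ Pl, HS f := by
  obtain ⟨d, X0, Y0, hd, hX1, hX2, hY1, hY2, hV, hU0, hmin⟩ := exists_min
  obtain ⟨τ, hτs, hτ0, hτ3, hτle, hτeq, hτV0, hτgt⟩ := tau_props d (Tw (X0, Y0)).2 hd hV
  obtain ⟨f, hf, hfs, hfs'⟩ := exists_F τ hτs
  -- key inequality
  have key : ∀ X Y : ℝ, 1 ≤ X → X ≤ 19/10 → -1 ≤ Y → Y ≤ -4/5 →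
      1 ≤ (Tw (X, Y)).1 + τ (Tw (X, Y)).2 ∧
      (1 < X → (X, Y) ≠ (X0, Y0) → 1 < (Tw (X, Y)).1 + τ (Tw (X, Y)).2) := by
    intro X Y h1 h2 h3 h4
    by_cases hV' : |(Tw (X, Y)).2| < 1/2
    · have hm := hmin X Y h1 h2 h3 h4 hV'
      by_cases hVV : (Tw (X, Y)).2 = (Tw (X0, Y0)).2
      · have hτV : τ (Tw (X, Y)).2 = - d * bet (Tw (X, Y)).2 := by
          rw [hVV]; exact hτV0
        constructor
        · rw [hτV]; linarith
        · intro _ hne
          rw [hτV]
          have hne' : (Tw (X, Y)).1 ≠ 1 + d * bet (Tw (X, Y)).2 := by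
            intro h
            apply hne
            apply Tw_inj
            apply Prod.ext
            · rw [h, hU0, hVV]
            · exact hVV
          have := lt_of_le_of_ne hm (Ne.symm hne')
          linarith
      · have := hτgt _ hV' hVV
        constructor
        · linarith
        · intro _ _
          linarith
    · have hV'' : 1/2 ≤ |(Tw (X, Y)).2| := not_lt.mp hV'
      rw [hτeq _ hV'']
      have hb := base_gt (X, Y) h1 h2 h4
      exact ⟨hb.1, fun h _ => hb.2 h⟩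
  have ha1 : ∀ x, ali 1 ≤ x → 1 ≤ al x := by
    intro x hx
    have := al_mono.monotone hx
    rwa [al_ali] at this
  have ha2 : ∀ x, x ≤ ali (19/10) → al x ≤ 19/10 := by
    intro x hx
    have := al_mono.monotone hx
    rwa [al_ali] at this
  have hyb : ∀ y : ℝ, |y| ≤ 1 → -1 ≤ y/10 - 9/10 ∧ y/10 - 9/10 ≤ -4/5 := by
    intro y hy
    obtain ⟨h1, h2⟩ := abs_le.mp hy
    constructor <;> linarith
  have hlow : ∀ x y : ℝ, ali 1 ≤ x → x ≤ ali (19/10) → |y| ≤ 1 → 1 ≤ (f (x, y)).1 := by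
    intro x y hx hx' hy
    rw [hf]
    exact (key (al x) (y/10 - 9/10) (ha1 x hx) (ha2 x hx') (hyb y hy).1 (hyb y hy).2).1
  have hxy : al (ali X0) = X0 := al_ali X0
  have hyy : (10 * Y0 + 9)/10 - 9/10 = Y0 := by ring
  have hx1 : ali 1 < ali X0 := ali_mono hX1
  have hx2 : ali X0 < ali (19/10) := ali_mono hX2
  have hyabs : |10 * Y0 + 9| ≤ 1 := by
    rw [abs_le]
    constructor <;> linarith
  have hf1 : (f (ali X0, 10 * Y0 + 9)).1 = 1 := by
    rw [hf]
    show (Tw (al (ali X0), (10 * Y0 + 9)/10 - 9/10)).1 + τ (Tw (al (ali X0), (10 * Y0 + 9)/10 - 9/10)).2 = 1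
    rw [hxy, hyy, hU0, hτV0]
    ring
  have hf2 : (f (ali X0, 10 * Y0 + 9)).2 = (Tw (X0, Y0)).2 := by
    rw [hf]
    show (Tw (al (ali X0), (10 * Y0 + 9)/10 - 9/10)).2 = _
    rw [hxy, hyy]
  refine ⟨f, { smooth := hfs, smooth' := hfs', L := ?_, R := ?_, hole := ?_, tan := ?_ }⟩
  · intro x y h1 h2 h3
    rw [hf]
    exact F_L τ hτ0 x y h1 h2 h3
  · intro x y h1 h2 h3
    rw [hf]
    exact F_R τ hτ3 x y h1 h2 h3
  · intro x y h1 h2 h3
    refine ⟨hlow x y h1 h2 h3, ?_, ?_⟩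
    · rw [hf]
      exact (hole_bounds τ hτle x y h1 h2 h3).1
    · rw [hf]
      exact (hole_bounds τ hτle x y h1 h2 h3).2
  · refine ⟨ali X0, 10 * Y0 + 9, hx1, hx2, ?_, hf1, ?_, ?_⟩
    · exact min_boundary f (ali 1) (ali (19/10)) hlow (ali X0) (10 * Y0 + 9) hx1 hx2 hyabs hf1
    · rw [hf2]
      linarith
    · intro x' y' h1 h2 h3 hne
      rw [hf]
      have h1' : 1 < al x' := by
        have := al_mono h1
        rwa [al_ali] at this
      refine (key (al x') (y'/10 - 9/10) h1'.le (ha2 x' h2.le) (hyb y' h3).1 (hyb y' h3).2).2 h1' ?_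
      intro h
      apply hne
      have e1 : al x' = X0 := congrArg Prod.fst h
      have e2 : y'/10 - 9/10 = Y0 := congrArg Prod.snd h
      apply Prod.ext
      · show x' = ali X0
        rw [← e1, ali_al]
      · show y' = 10 * Y0 + 9
        rw [← e2]; ring

end TanChain
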