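import Pool.Agent.Helper469.Chain.Defs
import Pool.Agent.Helper469.Chain.P_al_ali
import Pool.Agent.Helper469.Chain.P_ali_mono
import Pool.Agent.Helper469.Chain.P_al_vals
import Pool.Agent.Helper469.Chain.P_ali_vals
import Pool.Agent.Helper469.Chain.P_ee_props
import Pool.Agent.Helper469.Chain.P_gam_spec



namespace TanChain
open Set Filter Topology
open scoped ContDiff


theorem gam_at (f : Pl ≃ₜ Pl) (hf : HS f) (x : ℝ) (h1 : xs < x) (h2 : x ≤ 1) :
    gam f (eei x) = (x, -1) := by
  have he : ee (eei x) = x := ee_props.2.1 x h1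
  have hv := al_vals
  have hx1 : ali x ≤ ali 1 := ali_mono.monotone h2
  have hx0 : xs < ali x := by
    have := ali_mono h1
    rw [hv.2.2.2.2.2.1] at this
    exact this
  have h := gam_spec f hf (eei x) 1 (by rw [Function.iterate_one, he]; exact hx1)
  rw [Function.iterate_one, Function.iterate_one, he] at h
  have hneg : xs > -1 / 4 := hv.2.2.2.2.2.2.2.1
  rw [h, hf.L (ali x) (-1) (by linarith) hx1 (by norm_num), al_ali]
  norm_num

end TanChain
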