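import Pool.Agent.Helper469.Chain.Defs
import Pool.Agent.Helper469.Chain.P_ali_mono
import Pool.Agent.Helper469.Chain.P_ali_smooth
import Pool.Agent.Helper469.Chain.P_ali_vals
import Pool.Agent.Helper469.Chain.P_ali_deriv_pos
import Pool.Agent.Helper469.Chain.P_ee_props
import Pool.Agent.Helper469.Chain.P_nn_spec
import Pool.Agent.Helper469.Chain.P_gam_spec



namespace TanChain
open Set Filter Topology
open scoped ContDiff


theorem gam_imm_pos (n : ℕ) (t : ℝ) :
    ∃ d : ℝ, 0 < d ∧ HasDerivAt (fun s => ali^[n] (ee s)) d t := by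
  have hee := ee_props.2.2.2.2.2.1
  have heep := ee_props.2.2.2.2.2.2.1
  have hali : Differentiable ℝ ali := ali_smooth.differentiable (by simp)
  induction n with
  | zero =>
    refine ⟨deriv ee t, heep t, ?_⟩
    simpa using (hee.differentiable (by simp) t).hasDerivAt
  | succ n ih =>
    obtain ⟨d, hd, h⟩ := ih
    refine ⟨deriv ali (ali^[n] (ee t)) * d, mul_pos (ali_deriv_pos _) hd, ?_⟩
    have h1 : (fun s => ali^[n + 1] (ee s)) = fun s => ali (ali^[n] (ee s)) := by
      funext s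
      rw [Function.iterate_succ_apply']
    rw [h1]
    exact HasDerivAt.comp t (hali (ali^[n] (ee t))).hasDerivAt h

theorem gam_imm_it (h : Pl → Pl) (hh : ContDiff ℝ ∞ h) (n : ℕ) : ContDiff ℝ ∞ (h^[n]) := by
  induction n with
  | zero => exact contDiff_id
  | succ n ih =>
    rw [Function.iterate_succ']
    exact hh.comp ih

theorem gam_imm (f : Pl ≃ₜ Pl) (hf : HS f) (t : ℝ) : deriv (gam f) t ≠ 0 := by
  set n : ℕ := nn t + 1 with hn
  obtain ⟨d, hd, hg⟩ := gam_imm_pos n t
  have hlt : ali^[n] (ee t) < ali 1 := by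
    rw [hn, Function.iterate_succ_apply']
    have h1 := ali_mono.monotone (nn_spec t)
    have h2 : ali (ali 1) < ali 1 := ali_mono (by linarith [ali_vals.2.1])
    linarith
  have hev : ∀ᶠ s in 𝓝 t, ali^[n] (ee s) < ali 1 :=
    hg.continuousAt.eventually (gt_mem_nhds hlt)
  have heq : gam f =ᶠ[𝓝 t] fun s => (f : Pl → Pl)^[n] (ali^[n] (ee s), -1) := by
    filter_upwards [hev] with s hs
    exact gam_spec f hf s n hs.le
  rw [heq.deriv_eq]
  intro h0
  have hfn : ContDiff ℝ ∞ ((f : Pl → Pl)^[n]) := gam_imm_it _ hf.smooth n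
  have hfs : ContDiff ℝ ∞ ((f.symm : Pl → Pl)^[n]) := gam_imm_it _ hf.smooth' n
  have hgp : HasDerivAt (fun s => ((ali^[n] (ee s), -1) : Pl)) (d, 0) t :=
    hg.prodMk (hasDerivAt_const t (-1))
  have hcomp : DifferentiableAt ℝ (fun s => (f : Pl → Pl)^[n] (ali^[n] (ee s), -1)) t := by
    have := (hfn.differentiable (by simp) (ali^[n] (ee t), -1)).hasFDerivAt.comp_hasDerivAt t hgp
    exact this.differentiableAt
  have hc2 := hcomp.hasDerivAt
  rw [h0] at hc2
  have hc3 := (hfs.differentiable (by simp)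
    ((f : Pl → Pl)^[n] (ali^[n] (ee t), -1))).hasFDerivAt.comp_hasDerivAt t hc2
  have hid : ((f.symm : Pl → Pl)^[n] ∘ fun s => (f : Pl → Pl)^[n] (ali^[n] (ee s), -1))
      = fun s => ((ali^[n] (ee s), -1) : Pl) := by
    funext s
    exact (Function.LeftInverse.iterate f.symm_apply_apply n) _
  rw [hid] at hc3
  have := hc3.unique hgp
  rw [map_zero] at this
  have h3 := congrArg Prod.fst this
  simp at h3
  exact hd.ne h3

end TanChain
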