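import Pool.Agent.Helper469.Chain.Defs
import Pool.Agent.Helper469.Chain.P_ali_mono
import Pool.Agent.Helper469.Chain.P_ali_vals
import Pool.Agent.Helper469.Chain.P_ee_props
import Pool.Agent.Helper469.Chain.P_nn_spec
import Pool.Agent.Helper469.Chain.P_gam_spec



namespace TanChain
open Set Filter Topology
open scoped ContDiff


theorem iter_le_aux (t : ℝ) (n : ℕ) (h : nn t ≤ n) : ali^[n] (ee t) ≤ ali 1 := by
  induction n, h using Nat.le_induction with
  | base => exact nn_spec t
  | succ n _ ih =>
    rw [Function.iterate_succ_apply']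
    have h1 : ali (ali^[n] (ee t)) ≤ ali (ali 1) := ali_mono.monotone ih
    have h2 : ali (ali 1) < ali 1 := ali_mono (by have := ali_vals.2.1; linarith)
    linarith

theorem gam_inj (f : Pl ≃ₜ Pl) (hf : HS f) : Function.Injective (gam f) := by
  intro t t' htt
  have h1 := iter_le_aux t (max (nn t) (nn t')) (le_max_left _ _)
  have h2 := iter_le_aux t' (max (nn t) (nn t')) (le_max_right _ _)
  rw [gam_spec f hf t _ h1, gam_spec f hf t' _ h2] at htt
  have h3 := f.injective.iterate _ htt
  have h4 := (Prod.ext_iff.1 h3).1
  have h5 := ali_mono.injective.iterate _ h4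
  exact ee_props.2.2.2.1.injective h5

end TanChain
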