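import Pool.Agent.Helper469.Chain.Defs
import Pool.Agent.Helper469.Chain.P_al_ali
import Pool.Agent.Helper469.Chain.P_ali_al
import Pool.Agent.Helper469.Chain.P_al_mono
import Pool.Agent.Helper469.Chain.P_ali_mono
import Pool.Agent.Helper469.Chain.P_al_vals
import Pool.Agent.Helper469.Chain.P_ali_vals
import Pool.Agent.Helper469.Chain.P_ali_tendsto
import Pool.Agent.Helper469.Chain.P_ali_iter_gt
import Pool.Agent.Helper469.Chain.P_ee_props
import Pool.Agent.Helper469.Chain.P_nn_spec
import Pool.Agent.Helper469.Chain.P_gam_spec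



namespace TanChain
open Set Filter Topology
open scoped ContDiff


theorem gam_range_sub (f : Pl ≃ₜ Pl) (hf : HS f) (t : ℝ) : gam f t ∈ Wu f (0, -1) := by
  set n := nn t with hn
  set u := ali^[n] (ee t) with hu
  have hu1 : u ≤ ali 1 := nn_spec t
  have hu2 : xs < u := ali_iter_gt (ee t) (ee_props.1 t) n
  obtain ⟨v1, v2, v3, v4, v5, v6, v7, v8, v9⟩ := al_vals
  obtain ⟨w1, w2, w3, w4⟩ := ali_vals
  have hstep : ∀ v, xs < v → v ≤ 1 → f.symm (v, -1) = (ali v, -1) := by
    intro v hv1 hv2
    rw [Homeomorph.symm_apply_eq]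
    have h1 : xs < ali v := by
      have := ali_mono hv1
      rwa [v6] at this
    rw [hf.L (ali v) (-1) (by linarith) (ali_mono.monotone hv2) (by norm_num), al_ali]
    norm_num
  have hle : ∀ m, ali^[m] u ≤ ali 1 := by
    intro m
    induction m with
    | zero => exact hu1
    | succ m ih =>
      rw [Function.iterate_succ_apply']
      exact (ali_mono.monotone (ih.trans (by linarith)))
  have hit : ∀ m, f.symm^[m] (u, -1) = (ali^[m] u, -1) := by
    intro m
    induction m with
    | zero => rfl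
    | succ m ih =>
      rw [Function.iterate_succ_apply', ih, hstep _ (ali_iter_gt u hu2 m) ((hle m).trans (by linarith)),
        Function.iterate_succ_apply']
  have hinv : f.symm^[n] (gam f t) = (u, -1) := by
    have hL : Function.LeftInverse f.symm f := f.symm_apply_apply
    exact (hL.iterate n) (u, -1)
  unfold Wu
  rw [Set.mem_ofPred_eq, ← tendsto_add_atTop_iff_nat n]
  have h1 : (fun m : ℕ => f.symm^[m + n] (gam f t)) = fun m => (ali^[m] u, (-1:ℝ)) := by
    funext m
    rw [Function.iterate_add_apply, hinv, hit]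
  rw [h1]
  exact (ali_tendsto u hu2).prodMk_nhds tendsto_const_nhds

theorem gam_range_sup (f : Pl ≃ₜ Pl) (hf : HS f) (z : Pl) (hz : z ∈ Wu f (0, -1)) :
    ∃ t, gam f t = z := by
  obtain ⟨v1, v2, v3, v4, v5, v6, v7, v8, v9⟩ := al_vals
  obtain ⟨w1, w2, w3, w4⟩ := ali_vals
  unfold Wu at hz
  rw [Set.mem_ofPred_eq] at hz
  set w : ℕ → Pl := fun n => f.symm^[n] z with hw
  have h1 : Tendsto (fun n => (w n).1) atTop (𝓝 0) := (continuous_fst.tendsto _).comp hz
  have h2 : Tendsto (fun n => (w n).2) atTop (𝓝 (-1)) := (continuous_snd.tendsto _).comp hz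
  have e1 : ∀ᶠ n in atTop, (w n).1 ∈ Set.Ioo (-1/10 : ℝ) (1/10) :=
    h1 (Ioo_mem_nhds (by norm_num) (by norm_num))
  have e2 : ∀ᶠ n in atTop, (w n).2 ∈ Set.Ioo (-2 : ℝ) 0 :=
    h2 (Ioo_mem_nhds (by norm_num) (by norm_num))
  obtain ⟨n0, hn0⟩ := Filter.eventually_atTop.1 (e1.and e2)
  have hws : ∀ n, w n = f (w (n + 1)) := by
    intro n
    simp only [hw]
    rw [Function.iterate_succ_apply', f.apply_symm_apply]
  have hrec : ∀ n, n0 ≤ n → w n = (al (w (n + 1)).1, (w (n + 1)).2 / 10 - 9 / 10) := by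
    intro n hn
    obtain ⟨⟨a1, a2⟩, ⟨b1, b2⟩⟩ := hn0 (n + 1) (by omega)
    rw [hws n]
    have : w (n + 1) = ((w (n + 1)).1, (w (n + 1)).2) := rfl
    conv_lhs => rw [this]
    exact hf.L _ _ (by linarith) (by linarith) (by rw [abs_le]; constructor <;> linarith)
  have hpow : ∀ k, (w (n0 + k)).2 + 1 = 10 ^ k * ((w n0).2 + 1) := by
    intro k
    induction k with
    | zero => simp
    | succ k ih =>
      have h3 := congrArg Prod.snd (hrec (n0 + k) (by omega))
      simp only at h3
      rw [← add_assoc, pow_succ]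
      linarith
  have hy : (w n0).2 = -1 := by
    by_contra hne
    have hpos : 0 < |(w n0).2 + 1| := abs_pos.2 (fun h => hne (by linarith))
    obtain ⟨k, hk⟩ := exists_nat_gt (1 / |(w n0).2 + 1|)
    rw [div_lt_iff₀ hpos] at hk
    obtain ⟨-, ⟨b1, b2⟩⟩ := hn0 (n0 + k) (by omega)
    have h3 : |(w (n0 + k)).2 + 1| ≤ 1 := by rw [abs_le]; constructor <;> linarith
    rw [hpow k, abs_mul, abs_of_pos (by positivity)] at h3
    have h4 : (k : ℝ) ≤ 10 ^ k := by
      have : k < 10 ^ k := Nat.lt_pow_self (by norm_num)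
      exact_mod_cast this.le
    nlinarith
  set x := (w n0).1 with hx
  obtain ⟨⟨a1, a2⟩, -⟩ := hn0 n0 le_rfl
  have hwn0 : w n0 = (x, -1) := Prod.ext rfl hy
  have hzf : z = f^[n0] (x, -1) := by
    rw [← hwn0]
    have hR : Function.RightInverse f.symm f := f.apply_symm_apply
    exact ((Function.RightInverse.iterate hR n0) z).symm
  have hxs : ∀ k, xs < al^[k] x := by
    intro k
    induction k with
    | zero => show xs < x; linarith
    | succ k ih =>
      rw [Function.iterate_succ_apply']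
      have := al_mono ih
      rwa [v3] at this
  have hee := ee_props.2.1 _ (hxs n0)
  have hali : ali^[n0] (ee (eei (al^[n0] x))) = x := by
    rw [hee]
    have hL : Function.LeftInverse ali al := ali_al
    exact (hL.iterate n0) x
  refine ⟨eei (al^[n0] x), ?_⟩
  rw [gam_spec f hf _ n0 (by rw [hali]; linarith), hali, ← hzf]

theorem gam_range (f : Pl ≃ₜ Pl) (hf : HS f) : Set.range (gam f) = Wu f (0, -1) := by
  
  apply Set.Subset.antisymm
  · rintro _ ⟨t, rfl⟩
    exact gam_range_sub f hf t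
  · intro z hz
    obtain ⟨t, ht⟩ := gam_range_sup f hf z hz
    exact ⟨t, ht⟩

end TanChain
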