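import Pool.Agent.Helper469.Chain.Defs
import Pool.Agent.Helper469.Chain.P_al_vals
import Pool.Agent.Helper469.Chain.P_ee_props
import Pool.Agent.Helper469.Chain.P_gam_smooth
import Pool.Agent.Helper469.Chain.P_gam_inj
import Pool.Agent.Helper469.Chain.P_gam_imm
import Pool.Agent.Helper469.Chain.P_gam_range
import Pool.Agent.Helper469.Chain.P_gam_at
import Pool.Agent.Helper469.Chain.P_gam_conj



namespace TanChain
open Set Filter Topology
open scoped ContDiff


theorem gam_param (f : Pl ≃ₜ Pl) (hf : HS f) : IsUnstableParam f (0, -1) (gam f) := by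
  obtain ⟨φ, h0, h1, h2, -⟩ := gam_conj f hf
  obtain ⟨-, -, -, -, -, -, hxs, -, -⟩ := al_vals
  refine ⟨gam_smooth f hf, gam_inj f hf, gam_imm f hf, ?_, gam_range f hf, φ, h0, h1, h2⟩
  have h3 := gam_at f hf 0 hxs (by norm_num)
  obtain ⟨-, -, -, -, -, -, -, he, -⟩ := ee_props
  rw [he] at h3
  exact h3

end TanChain
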