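import Pool.Agent.Helper469.Chain.Defs
import Pool.Agent.Helper469.Chain.P_ali_al
import Pool.Agent.Helper469.Chain.P_al_mono
import Pool.Agent.Helper469.Chain.P_al_vals
import Pool.Agent.Helper469.Chain.P_ee_props
import Pool.Agent.Helper469.Chain.P_nn_spec
import Pool.Agent.Helper469.Chain.P_gam_spec



namespace TanChain
open Set Filter Topology
open scoped ContDiff


theorem gam_step (f : Pl ≃ₜ Pl) (hf : HS f) (t : ℝ) :
    f (gam f t) = gam f (eei (al (ee t))) := by
  obtain ⟨he1, he2, -⟩ := ee_props
  have hxs : al xs = xs := al_vals.2.2.1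
  have h1 : xs < al (ee t) := by
    have := al_mono (he1 t)
    rwa [hxs] at this
  have h2 : ee (eei (al (ee t))) = al (ee t) := he2 _ h1
  have h3 : ali^[nn t + 1] (ee (eei (al (ee t)))) = ali^[nn t] (ee t) := by
    rw [h2, Function.iterate_succ_apply, ali_al]
  have h4 : ali^[nn t + 1] (ee (eei (al (ee t)))) ≤ ali 1 := by
    rw [h3]; exact nn_spec t
  rw [gam_spec f hf _ _ h4, h3, gam_spec f hf t (nn t) (nn_spec t), Function.iterate_succ_apply']

end TanChain
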