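import Pool.Agent.Helper469.Chain.Defs
import Pool.Agent.Helper469.Chain.P_al_ali
import Pool.Agent.Helper469.Chain.P_al_mono
import Pool.Agent.Helper469.Chain.P_Tw_norm



namespace TanChain
open Set Filter Topology
open scoped ContDiff


theorem hole_bounds (τ : ℝ → ℝ) (hτ : ∀ v, τ v ≤ 3) (x y : ℝ) (h1 : ali 1 ≤ x)
    (h2 : x ≤ ali (19/10)) (hy : |y| ≤ 1) :
    (F τ (x, y)).1 ≤ 53/10 ∧ |(F τ (x, y)).2| ≤ 5/2 := by
  have ha1 : 1 ≤ al x := by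
    have := al_mono.monotone h1
    rwa [al_ali] at this
  have ha2 : al x ≤ 19/10 := by
    have := al_mono.monotone h2
    rwa [al_ali] at this
  obtain ⟨hy1, hy2⟩ := abs_le.1 hy
  have hn := Tw_norm (al x, y/10 - 9/10)
  have hF1 : (F τ (x, y)).1 = (Tw (al x, y/10 - 9/10)).1 + τ (Tw (al x, y/10 - 9/10)).2 := rfl
  have hF2 : (F τ (x, y)).2 = (Tw (al x, y/10 - 9/10)).2 := rfl
  obtain ⟨p, hp⟩ : ∃ p, p = (Tw (al x, y/10 - 9/10)).1 := ⟨_, rfl⟩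
  obtain ⟨q, hq⟩ : ∃ q, q = (Tw (al x, y/10 - 9/10)).2 := ⟨_, rfl⟩
  rw [hF1, hF2, ← hp, ← hq]
  rw [← hp, ← hq] at hn
  have hn' : p ^ 2 + q ^ 2 = (al x) ^ 2 + (y/10 - 9/10) ^ 2 := hn
  have h3 : (al x) ^ 2 ≤ (19/10) ^ 2 := pow_le_pow_left₀ (by linarith) ha2 2
  have h4 : (y/10 - 9/10) ^ 2 ≤ 1 := by nlinarith
  have hp2 : p ^ 2 ≤ (23/10) ^ 2 := by nlinarith [sq_nonneg q]
  have hq2 : q ^ 2 ≤ (23/10) ^ 2 := by nlinarith [sq_nonneg p]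
  have hp3 : p ≤ 23/10 := (abs_le_of_sq_le_sq' hp2 (by norm_num)).2
  have hq3 : |q| ≤ 23/10 := abs_le_of_sq_le_sq hq2 (by norm_num)
  refine ⟨?_, by linarith⟩
  have := hτ q
  linarith

end TanChain
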