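import Pool.Agent.Helper469.Chain.Defs



namespace TanChain
open Set Filter Topology
open scoped ContDiff


theorem not_trans (γ σ : ℝ → Pl) (hγ : Continuous γ) (hσ : Continuous σ) (t₀ s₀ ε : ℝ)
    (hε : 0 < ε) (h : γ t₀ = σ s₀) (h1 : ∀ t, 0 < |t - t₀| → |t - t₀| < ε → (γ t).1 < 0)
    (h2 : ∀ s, |s - s₀| < ε → σ s = (0, -1 + s)) : ¬ TopTransverse γ σ t₀ s₀ := by
  intro hT
  have hq : σ s₀ = (0, -1 + s₀) := h2 s₀ (by simpa using hε)
  have g1 : (γ (t₀ + ε/2)).1 < 0 := h1 _ (by rw [add_sub_cancel_left, abs_of_pos] <;> linarith)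
    (by rw [add_sub_cancel_left, abs_of_pos] <;> linarith)
  have g2 : (γ (t₀ - ε/2)).1 < 0 := by
    have e : t₀ - ε/2 - t₀ = -(ε/2) := by ring
    apply h1
    · rw [e, abs_neg, abs_of_pos] <;> linarith
    · rw [e, abs_neg, abs_of_pos] <;> linarith
  set r : ℝ := min (ε/2) (min (-(γ (t₀ + ε/2)).1) (-(γ (t₀ - ε/2)).1)) with hr
  have hrpos : 0 < r := by
    rw [hr]; exact lt_min (by linarith) (lt_min (by linarith) (by linarith))
  have hr1 : r ≤ ε/2 := min_le_left _ _
  have hr2 : r ≤ -(γ (t₀ + ε/2)).1 := le_trans (min_le_right _ _) (min_le_left _ _)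
  have hr3 : r ≤ -(γ (t₀ - ε/2)).1 := le_trans (min_le_right _ _) (min_le_right _ _)
  obtain ⟨D, hDN, hD, -, a, b, ha, hb, hab, -, hV⟩ := hT (Metric.ball (γ t₀) r)
    (Metric.ball_mem_nhds _ hrpos)
  have hqD : γ t₀ ∈ D := mem_of_mem_nhds hD
  have hqγ : γ t₀ = (0, -1 + s₀) := by rw [h, hq]
  -- general interval fact
  have key : ∀ (K : Set ℝ) (c : ℝ), IsPreconnected K → c ∈ K → c + ε/2 ∉ K → c - ε/2 ∉ K →
      ∀ t ∈ K, |t - c| < ε := by
    intro K c hK hc n1 n2 t ht
    have hO := hK.ordConnected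
    rw [abs_lt]
    constructor
    · by_contra hcon
      apply n2
      exact hO.out ht hc ⟨by linarith, by linarith⟩
    · by_contra hcon
      apply n1
      exact hO.out hc ht ⟨by linarith, by linarith⟩
  have subγ : ∀ t ∈ connectedComponentIn (γ ⁻¹' D) t₀, |t - t₀| < ε := by
    apply key _ _ isPreconnected_connectedComponentIn (mem_connectedComponentIn hqD)
    · intro hm
      have hm0 := connectedComponentIn_subset _ _ hm
      have hm' := hDN hm0
      rw [Metric.mem_ball, Prod.dist_eq] at hm'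
      have := lt_of_le_of_lt (le_max_left _ _) hm'
      rw [hqγ, Real.dist_eq] at this
      simp only [sub_zero] at this
      rw [abs_of_neg g1] at this
      linarith
    · intro hm
      have hm0 := connectedComponentIn_subset _ _ hm
      have hm' := hDN hm0
      rw [Metric.mem_ball, Prod.dist_eq] at hm'
      have := lt_of_le_of_lt (le_max_left _ _) hm'
      rw [hqγ, Real.dist_eq] at this
      simp only [sub_zero] at this
      rw [abs_of_neg g2] at this
      linarith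
  have hsD : σ s₀ ∈ D := by rw [← h]; exact hqD
  -- careful: σ (s₀ ± ε/2)
  have s1 : σ (s₀ + ε/2) = (0, -1 + (s₀ + ε/2)) := h2 _ (by rw [add_sub_cancel_left, abs_of_pos] <;> linarith)
  have s2 : σ (s₀ - ε/2) = (0, -1 + (s₀ - ε/2)) := by
    apply h2
    have e : s₀ - ε/2 - s₀ = -(ε/2) := by ring
    rw [e, abs_neg, abs_of_pos] <;> linarith
  have subσ : ∀ t ∈ connectedComponentIn (σ ⁻¹' D) s₀, |t - s₀| < ε := by
    apply key _ _ isPreconnected_connectedComponentIn (mem_connectedComponentIn hsD)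
    · intro hm
      have hm0 := connectedComponentIn_subset _ _ hm
      have hm' := hDN hm0
      rw [Metric.mem_ball, Prod.dist_eq] at hm'
      have := lt_of_le_of_lt (le_max_right _ _) hm'
      rw [hqγ, s1, Real.dist_eq] at this
      simp only at this
      have e : -1 + (s₀ + ε/2) - (-1 + s₀) = ε/2 := by ring
      rw [e, abs_of_pos (by linarith)] at this
      linarith
    · intro hm
      have hm0 := connectedComponentIn_subset _ _ hm
      have hm' := hDN hm0
      rw [Metric.mem_ball, Prod.dist_eq] at hm'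
      have := lt_of_le_of_lt (le_max_right _ _) hm'
      rw [hqγ, s2, Real.dist_eq] at this
      simp only at this
      have e : -1 + (s₀ - ε/2) - (-1 + s₀) = -(ε/2) := by ring
      rw [e, abs_neg, abs_of_pos (by linarith)] at this
      linarith
  have arcγ : ∀ z ∈ arcIn γ t₀ D, z ≠ γ t₀ → z.1 < 0 := by
    rintro z ⟨t, ht, rfl⟩ hz
    have h3 := subγ t ht
    have h4 : t ≠ t₀ := fun e => hz (by rw [e])
    exact h1 t (abs_pos.mpr (sub_ne_zero.mpr h4)) h3
  have arcσ : ∀ z ∈ arcIn σ s₀ D, z.1 = 0 := by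
    rintro z ⟨t, ht, rfl⟩
    rw [h2 t (subσ t ht)]
  have hqS : γ t₀ ∈ arcIn σ s₀ D := ⟨s₀, mem_connectedComponentIn hsD, h.symm⟩
  obtain ⟨r', hr'pos, hr'⟩ := Metric.mem_nhds_iff.mp hD
  obtain ⟨⟨u, ⟨hu1, hu2⟩, hu3⟩, ⟨v, ⟨hv1, hv2⟩, hv3⟩⟩ := hV (Metric.ball (γ t₀) r')
    (Metric.ball_mem_nhds _ hr'pos)
  have huS := connectedComponentIn_subset _ _ hu3
  have hvS := connectedComponentIn_subset _ _ hv3
  have hu0 : u.1 < 0 := arcγ u hu1 (fun e => huS.2 (e ▸ hqS))
  have hv0 : v.1 < 0 := arcγ v hv1 (fun e => hvS.2 (e ▸ hqS))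
  have hC : IsPreconnected (Metric.ball (γ t₀) r' ∩ {z : Pl | z.1 < 0}) := by
    apply Convex.isPreconnected
    apply Convex.inter (convex_ball _ _)
    exact convex_halfSpace_lt (IsLinearMap.mk (fun _ _ => rfl) (fun _ _ => rfl)) 0
  have hCsub : Metric.ball (γ t₀) r' ∩ {z : Pl | z.1 < 0} ⊆ D \ arcIn σ s₀ D := by
    rintro z ⟨hz1, hz2⟩
    refine ⟨hr' hz1, fun hz3 => ?_⟩
    have := arcσ z hz3
    have hz2' : z.1 < 0 := hz2
    linarith
  have hvu : v ∈ connectedComponentIn (D \ arcIn σ s₀ D) u :=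
    hC.subset_connectedComponentIn ⟨hu2, hu0⟩ hCsub ⟨hv2, hv0⟩
  apply hab
  rw [connectedComponentIn_eq hu3, connectedComponentIn_eq hvu, connectedComponentIn_eq hv3]

end TanChain
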