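import Pool.Agent.Helper469.Chain.Defs
import Pool.Agent.Helper469.Chain.P_al_vals
import Pool.Agent.Helper469.Chain.P_ali_vals
import Pool.Agent.Helper469.Chain.P_al_deriv



namespace TanChain
open Set Filter Topology
open scoped ContDiff


theorem saddle (f : Pl ≃ₜ Pl) (hf : HS f) : IsSaddle f (0, -1) := by
  obtain ⟨h0, -⟩ := al_vals
  obtain ⟨ha1, -⟩ := ali_vals
  have hfp : f (0, -1) = (0, -1) := by
    rw [hf.L 0 (-1) (by norm_num) (by linarith) (by rw [abs_le]; constructor <;> norm_num), h0]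
    ext <;> norm_num
  have hev : (f : Pl → Pl) =ᶠ[𝓝 ((0 : ℝ), (-1 : ℝ))] fun z => (al z.1, z.2 / 10 - 9 / 10) := by
    have h1 : ∀ᶠ z : Pl in 𝓝 ((0 : ℝ), (-1 : ℝ)), z.1 ∈ Set.Ioo (-1 : ℝ) (38/100) :=
      continuous_fst.continuousAt.eventually_mem (Ioo_mem_nhds (by norm_num) (by norm_num))
    have h2 : ∀ᶠ z : Pl in 𝓝 ((0 : ℝ), (-1 : ℝ)), z.2 ∈ Set.Ioo (-2 : ℝ) 0 :=
      continuous_snd.continuousAt.eventually_mem (Ioo_mem_nhds (by norm_num) (by norm_num))
    filter_upwards [h1, h2] with z hz1 hz2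
    have := hf.L z.1 z.2 (by linarith [hz1.1]) (by linarith [hz1.2])
      (by rw [abs_le]; constructor <;> linarith [hz2.1, hz2.2])
    exact this
  have hd : HasFDerivAt (f : Pl → Pl)
      (((42/25 : ℝ) • ContinuousLinearMap.fst ℝ ℝ ℝ).prod
        ((1/10 : ℝ) • ContinuousLinearMap.snd ℝ ℝ ℝ)) ((0 : ℝ), (-1 : ℝ)) := by
    refine HasFDerivAt.congr_of_eventuallyEq ?_ hev
    refine HasFDerivAt.prodMk ?_ ?_
    · have h5 : HasFDerivAt (fun z : Pl => z.1) (ContinuousLinearMap.fst ℝ ℝ ℝ)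
          ((0 : ℝ), (-1 : ℝ)) := hasFDerivAt_fst
      have := HasDerivAt.comp_hasFDerivAt (x := ((0 : ℝ), (-1 : ℝ))) (h₂ := al) al_deriv h5
      exact this
    · have h3 : HasFDerivAt (fun z : Pl => z.2) (ContinuousLinearMap.snd ℝ ℝ ℝ)
          ((0 : ℝ), (-1 : ℝ)) := hasFDerivAt_snd
      have h4 := (h3.const_smul (1/10 : ℝ)).sub_const (9/10 : ℝ)
      refine h4.congr_of_eventuallyEq (Filter.Eventually.of_forall fun z => ?_)
      simp only [Pi.smul_apply, smul_eq_mul]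
      ring
  refine ⟨hfp, hd.differentiableAt, 1/10, 42/25, by norm_num, by rw [abs_lt]; constructor <;> norm_num,
    by rw [abs_of_pos (by norm_num)]; norm_num, ?_, ?_⟩
  · rw [hd.fderiv]
    refine Module.End.hasEigenvalue_of_hasEigenvector (x := ((0 : ℝ), (1 : ℝ))) ?_
    rw [Module.End.hasEigenvector_iff, Module.End.mem_eigenspace_iff]
    refine ⟨?_, ?_⟩
    · ext <;> simp
    · intro h
      have := congrArg Prod.snd h
      norm_num at this
  · rw [hd.fderiv]
    refine Module.End.hasEigenvalue_of_hasEigenvector (x := ((1 : ℝ), (0 : ℝ))) ?_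
    rw [Module.End.hasEigenvector_iff, Module.End.mem_eigenspace_iff]
    refine ⟨?_, ?_⟩
    · ext <;> simp
    · intro h
      have := congrArg Prod.fst h
      norm_num at this

end TanChain
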