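import Pool.Agent.Helper469.Chain.Defs
import Pool.Agent.Helper469.Chain.P_al_vals
import Pool.Agent.Helper469.Chain.P_ali_vals



namespace TanChain
open Set Filter Topology
open scoped ContDiff


theorem sig_spec_step (f : Pl ≃ₜ Pl) (hf : HS f) (u : ℝ) (h : |u| ≤ 3/2) :
    f (0, -1 + u) = (0, -1 + u / 10) := by
  obtain ⟨h1, h2⟩ := abs_le.1 h
  have h3 := hf.L 0 (-1 + u) (by norm_num) (by have := ali_vals.1; linarith)
    (abs_le.2 ⟨by linarith, by linarith⟩)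
  rw [h3, al_vals.1]
  congr 1
  ring

theorem sig_spec_iter (f : Pl ≃ₜ Pl) (hf : HS f) (u : ℝ) (h : |u| ≤ 3/2) (m : ℕ) :
    f^[m] (0, -1 + u) = (0, -1 + u / 10 ^ m) := by
  induction m with
  | zero => simp
  | succ m ih =>
    rw [Function.iterate_succ_apply', ih, sig_spec_step f hf]
    · rw [pow_succ, div_div]
    · rw [abs_div, abs_of_pos (by positivity : (0 : ℝ) < 10 ^ m)]
      refine le_trans (div_le_self (abs_nonneg u) ?_) h
      exact one_le_pow₀ (by norm_num)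

theorem sig_spec_key (f : Pl ≃ₜ Pl) (hf : HS f) (s : ℝ) (n k : ℕ) (hnk : n ≤ k)
    (h : |s / 10^n| ≤ 3/2) :
    f.symm^[n] (0, -1 + s / 10^n) = f.symm^[k] (0, -1 + s / 10^k) := by
  obtain ⟨m, rfl⟩ := Nat.exists_eq_add_of_le hnk
  have h1 := sig_spec_iter f hf (s / 10 ^ n) h m
  rw [div_div, ← pow_add] at h1
  rw [← h1, Function.iterate_add_apply]
  congr 1
  exact ((Function.LeftInverse.iterate f.symm_apply_apply m) _).symm

theorem sig_spec (f : Pl ≃ₜ Pl) (hf : HS f) (s : ℝ) (n : ℕ) (h : |s / 10^n| ≤ 3/2) :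
    sig f s = f.symm^[n] (0, -1 + s / 10^n) := by
  have hN : |s / 10 ^ ⌈|s|⌉₊| ≤ 3/2 := by
    rw [abs_div, abs_of_pos (by positivity : (0 : ℝ) < 10 ^ ⌈|s|⌉₊)]
    rw [div_le_iff₀ (by positivity)]
    have h1 : |s| ≤ (⌈|s|⌉₊ : ℝ) := Nat.le_ceil _
    have h2 : ((⌈|s|⌉₊ : ℕ) : ℝ) ≤ 10 ^ ⌈|s|⌉₊ := by
      exact_mod_cast (Nat.lt_pow_self (by norm_num : 1 < 10)).le
    have h3 : (0 : ℝ) ≤ 10 ^ ⌈|s|⌉₊ := by positivity
    linarith
  unfold sig
  rcases le_total n ⌈|s|⌉₊ with hle | hle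
  · exact (sig_spec_key f hf s n _ hle h).symm
  · exact sig_spec_key f hf s _ n hle hN

end TanChain
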