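import Pool.Agent.Helper469.Chain.Defs
import Pool.Agent.Helper469.Chain.P_sig_spec



namespace TanChain
open Set Filter Topology
open scoped ContDiff


theorem sig_conj (f : Pl ≃ₜ Pl) (hf : HS f) : ∃ φ : ℝ ≃ₜ ℝ, φ 0 = 0 ∧
    (∀ t, f.symm (sig f t) = sig f (φ t)) ∧
    ∀ t, Tendsto (fun n : ℕ => φ.symm^[n] t) atTop (𝓝 0) := by
  let φ : ℝ ≃ₜ ℝ :=
    { toFun := fun t => 10 * t
      invFun := fun t => t / 10
      left_inv := fun t => by simp only; ring
      right_inv := fun t => by simp only; ring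
      continuous_toFun := by fun_prop
      continuous_invFun := by fun_prop }
  refine ⟨φ, ?_, ?_, ?_⟩
  · change (10 : ℝ) * 0 = 0
    ring
  · intro t
    change f.symm (sig f t) = sig f (10 * t)
    obtain ⟨n, hn⟩ : ∃ n : ℕ, n = ⌈|t|⌉₊ := ⟨_, rfl⟩
    have h1 : |t| ≤ n := by rw [hn]; exact Nat.le_ceil _
    have h2 : ((n : ℕ) : ℝ) ≤ 10 ^ n := by
      have := (Nat.lt_pow_self (n := n) (a := 10) (by norm_num)).le
      exact_mod_cast this
    have h3 : (0 : ℝ) < 10 ^ n := by positivity
    have h4 : |t / 10 ^ n| ≤ 1 := by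
      rw [abs_div, abs_of_pos h3, div_le_one h3]
      linarith
    have h5 : 10 * t / 10 ^ (n + 1) = t / 10 ^ n := by
      rw [pow_succ]; field_simp
    rw [sig_spec f hf (10 * t) (n + 1) (by rw [h5]; linarith), h5]
    unfold sig
    rw [← hn, Function.iterate_succ_apply']
  · intro t
    have h1 : ∀ n : ℕ, φ.symm^[n] t = t * (1/10) ^ n := by
      intro n
      induction n with
      | zero => simp
      | succ n ih =>
        rw [Function.iterate_succ_apply', ih]
        change t * (1/10) ^ n / 10 = _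
        rw [pow_succ]; ring
    simp only [h1]
    have := (tendsto_pow_atTop_nhds_zero_of_lt_one (r := (1/10 : ℝ)) (by norm_num) (by norm_num)).const_mul t
    rwa [mul_zero] at this

end TanChain
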