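import Pool.Agent.Helper469.Chain.Defs
import Pool.Agent.Helper469.Chain.P_sig_spec



namespace TanChain
open Set Filter Topology
open scoped ContDiff


theorem sig_imm (f : Pl ≃ₜ Pl) (hf : HS f) (t : ℝ) : deriv (sig f) t ≠ 0 := by
  set n : ℕ := ⌈|t|⌉₊ with hn
  have h10 : (0 : ℝ) < 10 ^ n := by positivity
  have hle : |t| ≤ 10 ^ n := by
    have h1 : |t| ≤ (n : ℝ) := Nat.le_ceil _
    have h2 : (n : ℝ) ≤ 10 ^ n := by
      have : n ≤ 10 ^ n := (Nat.lt_pow_self (by norm_num)).le
      exact_mod_cast this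
    exact h1.trans h2
  have hlt : |t / 10 ^ n| < 3 / 2 := by
    rw [abs_div, abs_of_pos h10, div_lt_iff₀ h10]
    linarith
  let c : ℝ → Pl := fun s => (0, -1 + s / 10 ^ n)
  have hc : HasDerivAt c (0, 1 / 10 ^ n) t := by
    refine (hasDerivAt_const t (0 : ℝ)).prodMk ?_
    exact ((hasDerivAt_id t).div_const _).const_add (-1)
  have hev : sig f =ᶠ[𝓝 t] fun s => f.symm^[n] (c s) := by
    have hcont : Continuous fun s : ℝ => |s / 10 ^ n| := by fun_prop
    filter_upwards [hcont.continuousAt.eventually (gt_mem_nhds hlt)] with s hs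
    exact sig_spec f hf s n hs.le
  rw [hev.deriv_eq]
  have hg : Differentiable ℝ (f.symm^[n]) :=
    Differentiable.iterate (hf.smooth'.differentiable (by simp)) n
  have hh : Differentiable ℝ (f^[n]) :=
    Differentiable.iterate (hf.smooth.differentiable (by simp)) n
  have hgc : DifferentiableAt ℝ (fun s => f.symm^[n] (c s)) t :=
    (hg (c t)).comp t hc.differentiableAt
  intro h0
  have h1 : HasDerivAt (fun s => f.symm^[n] (c s)) 0 t := by
    rw [← h0]; exact hgc.hasDerivAt
  have h2 : HasDerivAt (fun s => f^[n] (f.symm^[n] (c s))) 0 t := by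
    have := (hh (f.symm^[n] (c t))).hasFDerivAt.comp_hasDerivAt t h1
    rw [map_zero] at this
    exact this
  have h3 : (fun s => f^[n] (f.symm^[n] (c s))) = c := by
    funext s
    exact (Function.LeftInverse.iterate (fun z => f.apply_symm_apply z) n) (c s)
  rw [h3] at h2
  have h4 := hc.unique h2
  have h5 : (1 : ℝ) / 10 ^ n = 0 := congrArg Prod.snd h4
  exact (one_div_pos.2 h10).ne' h5

end TanChain
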