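import Pool.Agent.Helper469.Chain.Defs
import Pool.Agent.Helper469.Chain.P_sig_spec



namespace TanChain
open Set Filter Topology
open scoped ContDiff


theorem sinj_bound (s : ℝ) (n : ℕ) (h : ⌈|s|⌉₊ ≤ n) : |s / 10 ^ n| ≤ 3 / 2 := by
  have h10 : (0 : ℝ) < 10 ^ n := by positivity
  rw [abs_div, abs_of_pos h10, div_le_iff₀ h10]
  have h1 : |s| ≤ (⌈|s|⌉₊ : ℝ) := Nat.le_ceil _
  have h2 : (⌈|s|⌉₊ : ℝ) ≤ (n : ℝ) := by exact_mod_cast h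
  have h3 : (n : ℝ) ≤ 10 ^ n := by
    have : n ≤ 10 ^ n := (Nat.lt_pow_self (by norm_num)).le
    exact_mod_cast this
  linarith

theorem sig_inj (f : Pl ≃ₜ Pl) (hf : HS f) : Function.Injective (sig f) := by
  intro s s' hss
  have h1 := sig_spec f hf s (max ⌈|s|⌉₊ ⌈|s'|⌉₊) (sinj_bound s _ (le_max_left _ _))
  have h2 := sig_spec f hf s' (max ⌈|s|⌉₊ ⌈|s'|⌉₊) (sinj_bound s' _ (le_max_right _ _))
  rw [h1, h2] at hss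
  have h3 := (f.symm.injective.iterate (max ⌈|s|⌉₊ ⌈|s'|⌉₊)) hss
  have h4 : -1 + s / 10 ^ (max ⌈|s|⌉₊ ⌈|s'|⌉₊) = -1 + s' / 10 ^ (max ⌈|s|⌉₊ ⌈|s'|⌉₊) :=
    congrArg Prod.snd h3
  have h10 : (10 : ℝ) ^ (max ⌈|s|⌉₊ ⌈|s'|⌉₊) ≠ 0 := by positivity
  have h5 : s / 10 ^ (max ⌈|s|⌉₊ ⌈|s'|⌉₊) = s' / 10 ^ (max ⌈|s|⌉₊ ⌈|s'|⌉₊) := by linarith
  exact (div_left_inj' h10).mp h5

end TanChain
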