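import Pool.Agent.Helper469.Chain.Defs
import Pool.Agent.Helper469.Chain.P_al_vals
import Pool.Agent.Helper469.Chain.P_ali_vals
import Pool.Agent.Helper469.Chain.P_al_gt
import Pool.Agent.Helper469.Chain.P_al_lt
import Pool.Agent.Helper469.Chain.P_sig_spec



namespace TanChain
open Set Filter Topology
open scoped ContDiff


theorem sig_range (f : Pl ≃ₜ Pl) (hf : HS f) : Set.range (sig f) = Wu f.symm (0, -1) := by
  obtain ⟨hal0, -, -, -, -, -, hxs0, -, hxs1⟩ := al_vals
  obtain ⟨hali, -, -, -⟩ := ali_vals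
  have hstep : ∀ u : ℝ, |u| ≤ 3 / 2 → f ((0:ℝ), -1 + u) = (0, -1 + u / 10) := by
    intro u hu
    have h1 := abs_le.1 hu
    rw [hf.L 0 (-1 + u) (by norm_num) (by linarith) (abs_le.2 ⟨by linarith, by linarith⟩), hal0]
    congr 1
    ring
  have hiter : ∀ (m : ℕ) (u : ℝ), |u| ≤ 3 / 2 → f^[m] ((0:ℝ), -1 + u) = (0, -1 + u / 10 ^ m) := by
    intro m u hu
    induction m with
    | zero => simp
    | succ m ih =>
      rw [Function.iterate_succ_apply', ih, hstep, div_div, ← pow_succ]
      rw [abs_div, abs_of_pos (by positivity : (0:ℝ) < 10 ^ m), div_le_iff₀ (by positivity)]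
      have : (1:ℝ) ≤ 10 ^ m := one_le_pow₀ (by norm_num)
      nlinarith [abs_nonneg u]
  have hinv : ∀ (n : ℕ) (z : Pl), f^[n] (f.symm^[n] z) = z := by
    intro n z
    have h : Function.LeftInverse (f : Pl → Pl) (f.symm : Pl → Pl) := f.apply_symm_apply
    exact h.iterate n z
  have hinv' : ∀ (n : ℕ) (z : Pl), f.symm^[n] (f^[n] z) = z := by
    intro n z
    have h : Function.LeftInverse (f.symm : Pl → Pl) (f : Pl → Pl) := f.symm_apply_apply
    exact h.iterate n z
  ext z
  constructor
  · rintro ⟨s, rfl⟩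
    show Tendsto (fun n : ℕ => f^[n] (sig f s)) atTop (𝓝 ((0:ℝ), (-1:ℝ)))
    set n := ⌈|s|⌉₊ with hn
    set u := s / 10 ^ n with hu
    have hu1 : |u| ≤ 3 / 2 := by
      rw [hu, abs_div, abs_of_pos (by positivity : (0:ℝ) < 10 ^ n), div_le_iff₀ (by positivity)]
      have h1 : |s| ≤ n := Nat.le_ceil _
      have h2 : (n : ℝ) ≤ 10 ^ n := by
        have : n < 10 ^ n := Nat.lt_pow_self (by norm_num)
        exact_mod_cast this.le
      nlinarith [abs_nonneg s]
    have h1 : ∀ m : ℕ, f^[m + n] (sig f s) = (0, -1 + u / 10 ^ m) := by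
      intro m
      rw [Function.iterate_add_apply]
      have : sig f s = f.symm^[n] (0, -1 + u) := rfl
      rw [this, hinv, hiter m u hu1]
    rw [← tendsto_add_atTop_iff_nat n]
    simp only [h1]
    have h2 : Tendsto (fun m : ℕ => -1 + u / (10:ℝ) ^ m) atTop (𝓝 (-1 + 0)) := by
      apply Tendsto.const_add
      have h3 := (tendsto_pow_atTop_nhds_zero_of_lt_one (r := (1/10 : ℝ)) (by norm_num)
        (by norm_num)).const_mul u
      rw [mul_zero] at h3
      refine h3.congr (fun m => ?_)
      rw [one_div, inv_pow]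
      rfl
    rw [add_zero] at h2
    exact tendsto_const_nhds.prodMk_nhds h2
  · intro hz
    have hz' : Tendsto (fun n : ℕ => f^[n] z) atTop (𝓝 ((0:ℝ), (-1:ℝ))) := hz
    have hx : Tendsto (fun n : ℕ => (f^[n] z).1) atTop (𝓝 (0:ℝ)) :=
      (continuous_fst.tendsto _).comp hz'
    have hy : Tendsto (fun n : ℕ => (f^[n] z).2) atTop (𝓝 (-1:ℝ)) :=
      (continuous_snd.tendsto _).comp hz'
    have e1 := hx.eventually (Ioo_mem_nhds (show (-1/10:ℝ) < 0 by norm_num) (show (0:ℝ) < 1/10 by norm_num))
    have e2 := hy.eventually (Ioo_mem_nhds (show (-2:ℝ) < -1 by norm_num) (show (-1:ℝ) < 0 by norm_num))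
    obtain ⟨n0, hn0⟩ := eventually_atTop.1 (e1.and e2)
    have hstep2 : ∀ n ≥ n0, (f^[n + 1] z).1 = al (f^[n] z).1 := by
      intro n hn
      obtain ⟨⟨h1, h2⟩, h3, h4⟩ := hn0 n hn
      rw [Function.iterate_succ_apply']
      have := hf.L (f^[n] z).1 (f^[n] z).2 (by linarith) (by linarith)
        (abs_le.2 ⟨by linarith, by linarith⟩)
      rw [Prod.mk.eta] at this
      rw [this]
    have hx0 : (f^[n0] z).1 = 0 := by
      rcases lt_trichotomy (f^[n0] z).1 0 with hneg | h0 | hpos
      · exfalso
        have hmono : ∀ m : ℕ, (f^[n0 + m] z).1 ≤ (f^[n0] z).1 := by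
          intro m
          induction m with
          | zero => exact le_rfl
          | succ m ih =>
            rw [← add_assoc, hstep2 _ (by omega)]
            obtain ⟨⟨h1, h2⟩, -, -⟩ := hn0 (n0 + m) (by omega)
            have := (al_lt (f^[n0 + m] z).1 (by linarith) (by linarith)).1
            linarith
        have hlim : Tendsto (fun m : ℕ => (f^[m + n0] z).1) atTop (𝓝 0) :=
          (tendsto_add_atTop_iff_nat n0).2 hx
        have := le_of_tendsto hlim (Eventually.of_forall fun m => by
          have := hmono m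
          rw [add_comm] at this
          exact this)
        linarith
      · exact h0
      · exfalso
        have hmono : ∀ m : ℕ, (f^[n0] z).1 ≤ (f^[n0 + m] z).1 := by
          intro m
          induction m with
          | zero => exact le_rfl
          | succ m ih =>
            rw [← add_assoc, hstep2 _ (by omega)]
            have := al_gt (f^[n0 + m] z).1 (by linarith)
            linarith
        have hlim : Tendsto (fun m : ℕ => (f^[m + n0] z).1) atTop (𝓝 0) :=
          (tendsto_add_atTop_iff_nat n0).2 hx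
        have := ge_of_tendsto hlim (Eventually.of_forall fun m => by
          have := hmono m
          rw [add_comm] at this
          exact this)
        linarith
    obtain ⟨-, h3, h4⟩ := hn0 n0 le_rfl
    refine ⟨((f^[n0] z).2 + 1) * 10 ^ n0, ?_⟩
    have hdiv : ((f^[n0] z).2 + 1) * 10 ^ n0 / (10:ℝ) ^ n0 = (f^[n0] z).2 + 1 := by
      field_simp
    rw [sig_spec f hf _ n0 (by rw [hdiv]; exact abs_le.2 ⟨by linarith, by linarith⟩), hdiv]
    have : ((0:ℝ), -1 + ((f^[n0] z).2 + 1)) = f^[n0] z := by
      apply Prod.ext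
      · exact hx0.symm
      · simp
    rw [this, hinv']

end TanChain
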