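import Pool.Agent.Helper469.Chain.Defs
import Pool.Agent.Helper469.Chain.P_sig_spec



namespace TanChain
open Set Filter Topology
open scoped ContDiff


private theorem j24840_iter (g : Pl → Pl) (hg : ContDiff ℝ ∞ g) (n : ℕ) :
    ContDiff ℝ ∞ (g^[n]) := by
  induction n with
  | zero => exact contDiff_id
  | succ n ih =>
    rw [Function.iterate_succ]
    exact ih.comp hg

theorem sig_smooth (f : Pl ≃ₜ Pl) (hf : HS f) : ContDiff ℝ ∞ (sig f) := by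
  rw [contDiff_iff_contDiffAt]
  intro s₀
  have h1 : |s₀ / 10 ^ ⌈|s₀|⌉₊| < 3 / 2 := by
    have h2 : |s₀| ≤ (⌈|s₀|⌉₊ : ℝ) := Nat.le_ceil _
    have h3 : ((⌈|s₀|⌉₊ : ℕ) : ℝ) ≤ 10 ^ ⌈|s₀|⌉₊ := by
      exact_mod_cast (Nat.lt_pow_self (by norm_num : 1 < 10)).le
    have h4 : (0 : ℝ) < 10 ^ ⌈|s₀|⌉₊ := by positivity
    rw [abs_div, abs_of_pos h4, div_lt_iff₀ h4]
    linarith
  have h5 : ∀ᶠ s in 𝓝 s₀, |s / 10 ^ ⌈|s₀|⌉₊| < 3 / 2 := by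
    have hc : Continuous (fun s : ℝ => |s / 10 ^ ⌈|s₀|⌉₊|) := by fun_prop
    exact hc.continuousAt.eventually_lt continuousAt_const h1
  have h6 : sig f =ᶠ[𝓝 s₀] fun s => f.symm^[⌈|s₀|⌉₊] (0, -1 + s / 10 ^ ⌈|s₀|⌉₊) := by
    filter_upwards [h5] with s hs
    exact sig_spec f hf s _ hs.le
  have h7 : ContDiff ℝ ∞ (fun s : ℝ => f.symm^[⌈|s₀|⌉₊] ((0 : ℝ), -1 + s / 10 ^ ⌈|s₀|⌉₊)) := by
    refine (j24840_iter f.symm hf.smooth' _).comp ?_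
    fun_prop
  exact h7.contDiffAt.congr_of_eventuallyEq h6

end TanChain
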