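import Pool.Agent.Helper469.Chain.Defs
import Pool.Agent.Helper469.Chain.P_sig_spec
import Pool.Agent.Helper469.Chain.P_sig_smooth
import Pool.Agent.Helper469.Chain.P_sig_inj
import Pool.Agent.Helper469.Chain.P_sig_imm
import Pool.Agent.Helper469.Chain.P_sig_range
import Pool.Agent.Helper469.Chain.P_sig_conj



namespace TanChain
open Set Filter Topology
open scoped ContDiff


theorem sig_param (f : Pl ≃ₜ Pl) (hf : HS f) : IsUnstableParam f.symm (0, -1) (sig f) where
  smooth := sig_smooth f hf
  inj := sig_inj f hf
  imm := sig_imm f hf
  zero := by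
    have h := sig_spec f hf 0 0 (by norm_num)
    rw [h]
    simp
  range := sig_range f hf
  conj := sig_conj f hf

end TanChain
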