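import Pool.Agent.Helper469.Chain.Defs
import Pool.Agent.Helper469.Chain.P_al_ali
import Pool.Agent.Helper469.Chain.P_ali_mono
import Pool.Agent.Helper469.Chain.P_al_vals
import Pool.Agent.Helper469.Chain.P_ali_vals
import Pool.Agent.Helper469.Chain.P_ee_props
import Pool.Agent.Helper469.Chain.P_gam_at
import Pool.Agent.Helper469.Chain.P_gam_step



namespace TanChain
open Set Filter Topology
open scoped ContDiff


theorem strand_top (f : Pl ≃ₜ Pl) (hf : HS f) (x : ℝ) (h0 : 0 ≤ x) (h1 : x ≤ 1) :
    gam f (eei (3 - x)) = (x, 1) := by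
  obtain ⟨_, _, _, hali0, hali3, _, hxs, _, _⟩ := al_vals
  obtain ⟨_, hee, _⟩ := ee_props
  have h3 : 0 < ali (3 - x) := by
    rw [← hali0]
    exact ali_mono (by linarith)
  have h4 : ali (3 - x) ≤ 1 := by
    rw [← hali3]
    exact ali_mono.monotone (by linarith)
  have h5 : ali (19/10) ≤ ali (3 - x) := ali_mono.monotone (by linarith)
  have h6 := gam_step f hf (eei (ali (3 - x)))
  rw [hee _ (by linarith), al_ali, gam_at f hf _ (by linarith) h4,
    hf.R _ _ h5 (by linarith) (by rw [abs_neg, abs_one]; norm_num), al_ali] at h6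
  rw [← h6]
  ext
  · show 3 - (3 - x) = x
    ring
  · show (9:ℝ)/10 - (-1)/10 = 1
    norm_num

end TanChain
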