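import Pool.Agent.Helper469.Chain.Defs
import Pool.Agent.Helper469.Chain.P_al_ali
import Pool.Agent.Helper469.Chain.P_ali_al
import Pool.Agent.Helper469.Chain.P_al_mono
import Pool.Agent.Helper469.Chain.P_ali_mono
import Pool.Agent.Helper469.Chain.P_al_smooth
import Pool.Agent.Helper469.Chain.P_ali_smooth
import Pool.Agent.Helper469.Chain.P_al_vals
import Pool.Agent.Helper469.Chain.P_ali_vals
import Pool.Agent.Helper469.Chain.P_al_gt
import Pool.Agent.Helper469.Chain.P_ee_props
import Pool.Agent.Helper469.Chain.P_gam_at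
import Pool.Agent.Helper469.Chain.P_gam_step
import Pool.Agent.Helper469.Chain.P_sig_spec
import Pool.Agent.Helper469.Chain.P_strand_top



namespace TanChain
open Set Filter Topology
open scoped ContDiff


/-- the parametrisation near the tangency -/
theorem tan_data_par (f : Pl ≃ₜ Pl) (hf : HS f) (x y : ℝ) (h0 : 0 < x) (h1 : x < 1)
    (hy : y = 1 ∨ y = -1) : ∃ (X : ℝ) (κ : ℝ → ℝ), 0 < X ∧ Continuous κ ∧ Function.Injective κ ∧
      κ X = x ∧ ∀ u, 0 ≤ κ u → κ u ≤ 1 → gam f (eei u) = (κ u, y) := by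
  obtain ⟨-, -, -, -, -, -, hxs, -, -⟩ := al_vals
  rcases hy with rfl | rfl
  · refine ⟨3 - x, fun u => 3 - u, by linarith, by fun_prop, fun a b h => by
      have : 3 - a = 3 - b := h
      linarith, by ring, fun u hu0 hu1 => ?_⟩
    have := strand_top f hf (3 - u) hu0 hu1
    rwa [sub_sub_cancel] at this
  · exact ⟨x, fun u => u, h0, continuous_id, fun a b h => h, rfl, fun u hu0 hu1 =>
      gam_at f hf u (lt_of_lt_of_le hxs hu0) hu1⟩

/-- two steps back along the unstable manifold -/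
theorem tan_data_back (f : Pl ≃ₜ Pl) (hf : HS f) (t : ℝ) :
    gam f t = f (f (gam f (eei (ali (ali (ee t)))))) := by
  obtain ⟨-, -, haxs, -, -, hixs, hxs, -, -⟩ := al_vals
  obtain ⟨h1, h2, h3, h4, h5, h6, h7, h8, h9, h10⟩ := ee_props
  have ha : xs < ali (ee t) := by
    rw [← hixs]
    exact ali_mono (h1 t)
  have hb : xs < ali (ali (ee t)) := by
    rw [← hixs]
    exact ali_mono ha
  rw [gam_step f hf, h2 _ hb, al_ali, gam_step f hf, h2 _ ha, al_ali, h3]

theorem tan_data (f : Pl ≃ₜ Pl) (hf : HS f) : ∃ t₀ s₀ ε : ℝ, 0 < t₀ ∧ 0 < ε ∧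
    gam f t₀ = sig f s₀ ∧ (∀ t, 0 < |t - t₀| → |t - t₀| < ε → (gam f t).1 < 0) ∧
    (∀ s, |s - s₀| < ε → sig f s = (0, -1 + s)) := by
  obtain ⟨hal0, hal1, haxs, hi0, hi3, hixs, hxs, hxs1, hxs2⟩ := al_vals
  obtain ⟨h1, h2, h3, h4, h5, h6, h7, h8, h9, h10⟩ := ee_props
  obtain ⟨hv1, hv2, hv3, hv4⟩ := ali_vals
  obtain ⟨x, y, hx1, hx2, hy, hf1, hfV, hmin⟩ := hf.tan
  obtain ⟨X, κ, hX, hκc, hκi, hκX, hκ⟩ := tan_data_par f hf x y (by linarith) (by linarith) hy
  have hX1 : 0 < al X := hX.trans (al_gt X hX)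
  have hX2 : 0 < al (al X) := hX1.trans (al_gt _ hX1)
  have hee : ee (eei (al (al X))) = al (al X) := h2 _ (hxs.trans hX2)
  have hyabs : |y| ≤ 1 := by
    rcases hy with rfl | rfl
    · rw [abs_one]
    · rw [abs_neg, abs_one]
  -- the value at `t₀`
  have hval : gam f (eei (al (al X))) = (0, 9/10 - (f (x, y)).2 / 10) := by
    rw [tan_data_back f hf, hee, ali_al, ali_al, hκ X (by rw [hκX]; linarith)
      (by rw [hκX]; linarith), hκX]
    have e1 : f (x, y) = (1, (f (x, y)).2) := Prod.ext hf1 rfl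
    have e2 := hf.R 1 (f (x, y)).2 (by linarith) (by norm_num) (by linarith)
    rw [← e1] at e2
    rw [e2, hal1]
    norm_num
  -- the neighbourhood
  have hopen : IsOpen ((fun t => κ (ali (ali (ee t)))) ⁻¹' Ioo (ali 1) (ali (19/10))) := by
    apply isOpen_Ioo.preimage
    exact hκc.comp (ali_smooth.continuous.comp (ali_smooth.continuous.comp h6.continuous))
  have hmem : eei (al (al X)) ∈
      ((fun t => κ (ali (ali (ee t)))) ⁻¹' Ioo (ali 1) (ali (19/10))) := by
    change κ (ali (ali (ee (eei (al (al X)))))) ∈ Ioo (ali 1) (ali (19/10))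
    rw [hee, ali_al, ali_al, hκX]
    exact ⟨hx1, hx2⟩
  obtain ⟨ε, hε, hball⟩ := Metric.isOpen_iff.mp hopen _ hmem
  have hV := abs_le.mp hfV
  have hsig : ∀ s, |s - (19/10 - (f (x, y)).2 / 10)| < 1 → sig f s = (0, -1 + s) := by
    intro s hs
    have hs' := abs_lt.mp hs
    have hs1 : |s / 10 ^ 1| ≤ 3/2 := by
      rw [abs_le]
      constructor <;> linarith [hs'.1, hs'.2, hV.1, hV.2]
    rw [sig_spec f hf s 1 hs1, Function.iterate_one, Homeomorph.symm_apply_eq]
    have hs2 : |(-1 + s)| ≤ 5/2 := by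
      rw [abs_le]
      constructor <;> linarith [hs'.1, hs'.2, hV.1, hV.2]
    rw [hf.L 0 (-1 + s) (by norm_num) (by linarith) hs2, hal0]
    congr 1
    ring
  refine ⟨eei (al (al X)), 19/10 - (f (x, y)).2 / 10, min ε 1, ?_, lt_min hε one_pos, ?_, ?_, ?_⟩
  · have := h10 0 (al (al X)) hxs hX2
    rwa [h8] at this
  · rw [hval, hsig _ (by rw [sub_self, abs_zero]; exact one_pos)]
    congr 1
    ring
  · intro t ht0 ht1
    have hne : t ≠ eei (al (al X)) := by
      intro h
      rw [h, sub_self, abs_zero] at ht0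
      exact lt_irrefl _ ht0
    have hin : κ (ali (ali (ee t))) ∈ Ioo (ali 1) (ali (19/10)) := by
      apply hball
      rw [Metric.mem_ball, Real.dist_eq]
      exact lt_of_lt_of_le ht1 (min_le_left _ _)
    rw [tan_data_back f hf, hκ _ (by linarith [hin.1]) (by linarith [hin.2])]
    have hneq : (κ (ali (ali (ee t))), y) ≠ (x, y) := by
      intro h
      apply hne
      have h11 : κ (ali (ali (ee t))) = κ X := by
        rw [hκX]
        exact congrArg Prod.fst h
      have h12 := hκi h11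
      rw [← ali_al X] at h12
      have h13 := ali_mono.injective h12
      rw [← ali_al (al X)] at h13
      have h14 := ali_mono.injective h13
      rw [← h14, h3]
    have hg := hmin _ _ hin.1 hin.2 hyabs hneq
    obtain ⟨-, hg2, hg3⟩ := hf.hole _ y hin.1.le hin.2.le hyabs
    have e2 := hf.R (f (κ (ali (ali (ee t))), y)).1 (f (κ (ali (ali (ee t))), y)).2
      (by linarith) hg2 hg3
    rw [Prod.mk.eta] at e2
    rw [e2]
    change 3 - al (f (κ (ali (ali (ee t))), y)).1 < 0
    have := al_mono hg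
    rw [hal1] at this
    linarith
  · intro s hs
    exact hsig s (lt_of_lt_of_le hs (min_le_right _ _))

end TanChain
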