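import Pool.Agent.Helper469.Chain.Defs
import Pool.Agent.Helper469.Chain.P_exists_HS
import Pool.Agent.Helper469.Chain.P_gam_param
import Pool.Agent.Helper469.Chain.P_sig_param
import Pool.Agent.Helper469.Chain.P_saddle
import Pool.Agent.Helper469.Chain.P_tan_data
import Pool.Agent.Helper469.Chain.P_not_trans
import Pool.Agent.Helper469.Chain.P_K_props
import Pool.Agent.Helper469.Chain.P_K_chainable



namespace TanChain
open Set Filter Topology
open scoped ContDiff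


theorem main : ∃ (f : Pl ≃ₜ Pl) (p : Pl) (γ σ : ℝ → Pl) (t₀ s₀ : ℝ),
    ContDiff ℝ ∞ f ∧ ContDiff ℝ ∞ f.symm ∧ IsSaddle f p ∧
    IsUnstableParam f p γ ∧ IsUnstableParam f.symm p σ ∧
    0 < t₀ ∧ γ t₀ = σ s₀ ∧ ¬ TopTransverse γ σ t₀ s₀ ∧
    (∃ ε > 0, (∀ t, 0 < |t - t₀| → |t - t₀| < ε → (γ t).1 < (γ t₀).1) ∧
      ∀ s, |s - s₀| < ε → σ s = ((γ t₀).1, (γ t₀).2 + (s - s₀))) ∧
    IsCompact (closure (γ '' Ioi 0)) ∧ IsConnected (closure (γ '' Ioi 0)) ∧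
    Chainable (closure (γ '' Ioi 0)) := by
  obtain ⟨f, hf⟩ := exists_HS
  obtain ⟨t₀, s₀, ε, ht₀, hε, hts, h1, h2⟩ := tan_data f hf
  have hγ := gam_param f hf
  have hσ := sig_param f hf
  have hs0 : sig f s₀ = (0, -1 + s₀) := h2 s₀ (by simpa using hε)
  obtain ⟨hK1, -, -, hK2⟩ := K_props f hf
  refine ⟨f, (0, -1), gam f, sig f, t₀, s₀, hf.smooth, hf.smooth', saddle f hf, hγ, hσ, ht₀, hts,
    ?_, ⟨ε, hε, ?_, ?_⟩, hK1, hK2, K_chainable f hf⟩
  · exact not_trans _ _ hγ.smooth.continuous hσ.smooth.continuous t₀ s₀ ε hε hts h1 h2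
  · intro t ht ht'
    rw [hts, hs0]
    exact h1 t ht ht'
  · intro s hs
    rw [hts, hs0, h2 s hs]
    ext
    · rfl
    · simp only
      ring

end TanChain
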